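import Pool.Agent.W254.LF.Stm

/-!
# Leopoldt's conjecture in families: fourth round of statements (all primes, ramified classes)
-/

set_option autoImplicit false

namespace Pool.Agent.W254.LF

open Polynomial NumberField Filter Topology Pool.Agent.W289.SL

/-- Elements of the unit ball which are fixed by a power of the Frobenius modulo `p`. -/
def Fr (p : ℕ) [Fact p.Prime] (x : ℂ_[p]) : Prop :=
  ‖x‖ ≤ 1 ∧ ∃ n : ℕ, 1 ≤ n ∧ ‖x ^ (p ^ n) - x‖ ≤ ‖(p : ℂ_[p])‖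

/-- Cluster data at `t₁`: the factorisation of `(X - t₁) ∏ (X - α_i) - 1`. -/
def Clus (p : ℕ) [Fact p.Prime] (L : ℂ_[p] → ℂ_[p]) (m : ℕ) (α : Fin m → ℂ_[p])
    (t₁ : ℂ_[p]) : Prop :=
  ∃ (q : ℕ) (x : Fin q → ℂ_[p]) (e : Fin q → ℕ), (∀ c, 1 ≤ e c) ∧
    (X - C t₁) * ∏ i, (X - C (α i)) - 1 = ∏ c, (X - C (x c)) ^ (e c) ∧
    (∀ c c', c ≠ c' → ‖x c - x c'‖ = 1) ∧ (∀ c i, ‖x c - α i‖ = 1) ∧
    (∀ c i, ‖L (x c - α i)‖ ≤ ‖(p : ℂ_[p])‖)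

/-- The elements fixed by Frobenius form a ring; unramifiedness; their logarithms. -/
def S_FRR : Prop :=
  ∀ (p : ℕ) [Fact p.Prime],
    (∀ x y : ℂ_[p], Fr p x → Fr p y → Fr p (x - y)) ∧
    (∀ x y : ℂ_[p], Fr p x → Fr p y → Fr p (x * y)) ∧
    (∀ n : ℤ, Fr p (n : ℂ_[p])) ∧
    (∀ x : ℂ_[p], Fr p x → ‖x‖ < 1 → ‖x‖ ≤ ‖(p : ℂ_[p])‖) ∧
    (p ≠ 2 → ∀ L : ℂ_[p] → ℂ_[p], IsIwasawaLog p L → ∀ x : ℂ_[p], Fr p x → ‖x‖ = 1 →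
      ‖L x‖ ≤ ‖(p : ℂ_[p])‖)

/-- Roots of integral polynomials which are separable modulo `p`. -/
def S_FRS : Prop :=
  ∀ (p : ℕ) [Fact p.Prime] (f : ℤ[X]), f.Monic →
    (f.map (Int.castRingHom (ZMod p))).Separable → ∀ x : ℂ_[p], aeval x f = 0 → Fr p x

/-- Elements of number fields, for almost all primes. -/
def S_FRK : Prop :=
  ∀ (K : Type) [Field K] [NumberField K] (β : K), ∃ P₀ : ℕ, ∀ (p : ℕ) [Fact p.Prime], P₀ < p →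
    ∀ τ : K →+* ℂ_[p], Fr p (τ β)

/-- A polynomial which is not separable modulo `p` has two roots which are congruent. -/
def S_SEPR : Prop :=
  ∀ (p : ℕ) [Fact p.Prime] (n : ℕ) (F : ℤ[X]) (y : Fin n → ℂ_[p]),
    F.map (Int.castRingHom ℂ_[p]) = ∏ j, (X - C (y j)) →
    ¬ (F.map (Int.castRingHom (ZMod p))).Separable → ∃ i j, i ≠ j ∧ ‖y i - y j‖ < 1

/-- Puiseux expansion with integral coefficients (tame case). -/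
def S_PUI : Prop :=
  ∀ (p : ℕ) [Fact p.Prime] (e : ℕ), 1 ≤ e → e < p → ∀ (M P : ℂ_[p][X]),
    (∀ k, ‖M.coeff k‖ ≤ 1) → (∀ k, ‖P.coeff k‖ ≤ 1) → ‖M.coeff 0‖ = 1 → ‖P.coeff 0‖ = 1 →
    ∃ η : ℕ → ℂ_[p], (∀ k, ‖η k‖ ≤ 1) ∧ ‖η 0‖ = 1 ∧
      ∀ w : ℂ_[p], ‖w‖ < 1 →
        (w * ∑' k, η k * w ^ k) ^ e * M.eval (w * ∑' k, η k * w ^ k) =
          w ^ e * P.eval (w * ∑' k, η k * w ^ k)

/-- The logarithm of a power series, with the shape of its coefficients. -/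
def S_PLOG : Prop :=
  ∀ (p : ℕ) [Fact p.Prime] (L : ℂ_[p] → ℂ_[p]), IsIwasawaLog p L →
    ∀ η : ℕ → ℂ_[p], (∀ k, ‖η k‖ ≤ 1) →
    ∃ T : ℕ → ℕ → ℂ_[p], (∀ k n, 1 ≤ n → ‖T k n‖ ≤ ‖(n : ℂ_[p])‖⁻¹) ∧
      (∀ k, 1 ≤ k → T k k = (-1) ^ (k - 1) / (k : ℂ_[p]) * η 0 ^ k) ∧
      ∀ u w : ℂ_[p], ‖u‖ = 1 → ‖w‖ < 1 →
        (Summable fun k : ℕ =>
          ‖(∑ n ∈ Finset.Icc 1 (k + 1), T (k + 1) n * u⁻¹ ^ n) * w ^ (k + 1)‖) ∧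
        L (u + w * ∑' k, η k * w ^ k) =
          L u + ∑' k : ℕ, (∑ n ∈ Finset.Icc 1 (k + 1), T (k + 1) n * u⁻¹ ^ n) * w ^ (k + 1)

/-- The confluent Cauchy determinant. -/
def S_CCAU : Prop :=
  ∀ (p : ℕ) [Fact p.Prime] (m q : ℕ) (x : Fin q → ℂ_[p]) (α : Fin m → ℂ_[p]) (e : Fin q → ℕ)
    (φ : Fin m ≃ Σ c : Fin q, Fin (e c)),
    (∀ i, ‖α i‖ ≤ 1) → (∀ c i, ‖x c - α i‖ = 1) → (∀ c c', c ≠ c' → ‖x c - x c'‖ = 1) →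
    (∀ i j, i ≠ j → ‖α i - α j‖ = 1) →
    ‖(Matrix.of fun i j : Fin m => ((x (φ j).1 - α i)⁻¹) ^ (((φ j).2 : ℕ) + 1)).det‖ = 1

/-- Selection of a nonzero minor. -/
def S_SEL : Prop :=
  ∀ (F : Type) [Field F] (m : ℕ) (J : Type) [Fintype J] (R : Matrix (Fin m) J F)
    (Q : Matrix J (Fin m) F), (R * Q).det ≠ 0 →
    ∃ g : Fin m → J, Function.Injective g ∧ (Matrix.of fun i j : Fin m => R i (g j)).det ≠ 0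

/-- Existence of the cluster data, for almost all primes. -/
def S_DATA : Prop :=
  ∀ (m : ℕ) (P : ℤ[X]), P.Monic → (P.map (Int.castRingHom ℚ)).Separable → P.natDegree = m →
    1 ≤ m → ∃ P₀ : ℕ, ∀ (p : ℕ) [Fact p.Prime], P₀ < p →
      ∀ L : ℂ_[p] → ℂ_[p], IsIwasawaLog p L →
      ∃ α : Fin m → ℂ_[p], P.map (Int.castRingHom ℂ_[p]) = ∏ i, (X - C (α i)) ∧
        (∀ i, ‖α i‖ ≤ 1) ∧ (∀ i j, i ≠ j → ‖α i - α j‖ = 1) ∧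
        ∀ t₀ : ℤ, ∃ t₁ : ℂ_[p], ‖(t₀ : ℂ_[p]) - t₁‖ ≤ ‖(p : ℂ_[p])‖ ∧ Clus p L m α t₁

end Pool.Agent.W254.LF
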