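import Pool.Agent.W254.LF.Stm

/-!
# A vanishing determinant of primitives has a vanishing determinant of residues
-/

set_option autoImplicit false

namespace Pool.Agent.W254.LF

open Polynomial

theorem det_of (hOST : S_OST) : S_DET := by
  intro C F E _ _ _ _ _ _ _ _ DF DE hcomp hconst r hr m Y W hYW hdet
  have hczF : CharZero F := (RingHom.charZero_iff (algebraMap F E).injective).2 inferInstance
  have hczC : CharZero C := (RingHom.charZero_iff (algebraMap C E).injective).2 inferInstance
  set Fs : Submodule C E := LinearMap.range (IsScalarTower.toAlgHom C F E).toLinearMap with hFs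
  let y : Fin m × Fin m → E := fun i => Y i.1 i.2
  let w : Fin m × Fin m → F := fun i => W i.1 i.2
  obtain ⟨κ, a, ha, hspan, hli⟩ := exists_linearIndependent' C (fun i => Fs.mkQ (y i))
  have hfin : Fintype κ := Fintype.ofInjective a ha
  have hdec : DecidableEq κ := Classical.decEq κ
  have hind : AlgebraicIndependent F (fun k => y (a k)) := by
    apply hOST C F E DF DE hcomp hconst κ (fun k => y (a k)) (fun k => w (a k))
      (fun k => hYW _ _)
    intro c f hcf
    have h1 : ∑ k, c k • Fs.mkQ (y (a k)) = 0 := by
      have h2 : Fs.mkQ (∑ k, algebraMap C E (c k) * y (a k)) = 0 := by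
        rw [hcf, Submodule.mkQ_apply, Submodule.Quotient.mk_eq_zero]
        exact ⟨f, rfl⟩
      rw [map_sum] at h2
      rw [← h2]
      refine Finset.sum_congr rfl fun k _ => ?_
      rw [← map_smul, Algebra.smul_def]
    funext k
    exact Fintype.linearIndependent_iff.1 hli c h1 k
  have hex : ∀ i, ∃ (γ : κ → C) (f : F), y i = ∑ k, algebraMap C E (γ k) * y (a k) +
      algebraMap F E f := by
    intro i
    have h1 : Fs.mkQ (y i) ∈ Submodule.span C (Set.range (fun k => Fs.mkQ (y (a k)))) := by
      have h2 : Submodule.span C (Set.range (fun k => Fs.mkQ (y (a k)))) =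
        Submodule.span C (Set.range (fun i => Fs.mkQ (y i))) := hspan
      rw [h2]
      exact Submodule.subset_span ⟨i, rfl⟩
    rw [Submodule.mem_span_range_iff_exists_fun] at h1
    obtain ⟨γ, hγ⟩ := h1
    have h3 : Fs.mkQ (y i - ∑ k, algebraMap C E (γ k) * y (a k)) = 0 := by
      rw [map_sub, map_sum, ← hγ, sub_eq_zero]
      refine Finset.sum_congr rfl fun k _ => ?_
      rw [← map_smul, Algebra.smul_def]
    rw [Submodule.mkQ_apply, Submodule.Quotient.mk_eq_zero] at h3
    obtain ⟨f, hf⟩ := h3
    refine ⟨γ, f, ?_⟩
    have hf' : algebraMap F E f = y i - ∑ k, algebraMap C E (γ k) * y (a k) := hf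
    rw [hf']
    ring
  choose γ f hyf using hex
  -- the residues
  have hW : ∀ i, w i = ∑ k, algebraMap C F (γ i k) * w (a k) + DF (f i) := by
    intro i
    apply (algebraMap F E).injective
    have h1 : DE (y i) = algebraMap F E (w i) := hYW _ _
    rw [← h1, hyf i, map_add, map_sum, map_add, map_sum, hcomp]
    congr 1
    refine Finset.sum_congr rfl fun k _ => ?_
    rw [Derivation.leibniz, Derivation.map_algebraMap, smul_zero, add_zero, smul_eq_mul, map_mul,
      ← IsScalarTower.algebraMap_apply]
    congr 1
    exact hYW _ _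
  have hrW : ∀ i, r (w i) = ∑ k, γ i k * r (w (a k)) := by
    intro i
    rw [hW i, map_add, hr, add_zero, map_sum]
    refine Finset.sum_congr rfl fun k _ => ?_
    rw [← Algebra.smul_def, map_smul, smul_eq_mul]
  -- the polynomial identity
  let Q : Matrix (Fin m) (Fin m) (MvPolynomial κ F) := Matrix.of fun i j =>
    ∑ k, MvPolynomial.C (algebraMap C F (γ (i, j) k)) * MvPolynomial.X k +
      MvPolynomial.C (f (i, j))
  have hQ : Q.det = 0 := by
    apply hind
    rw [map_zero, AlgHom.map_det, ← hdet]
    congr 1
    ext i j
    change MvPolynomial.aeval (fun k => y (a k)) (Q i j) = y (i, j)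
    rw [hyf (i, j)]
    simp only [Q, Matrix.of_apply, map_add, map_sum, map_mul, MvPolynomial.aeval_X,
      MvPolynomial.aeval_C, ← IsScalarTower.algebraMap_apply]
  -- evaluate
  let B : Matrix (Fin m) (Fin m) F := Matrix.of fun i j => algebraMap C F (r (w (i, j)))
  let G : Matrix (Fin m) (Fin m) F := Matrix.of fun i j => f (i, j)
  have hval : ∀ l : C, l ≠ 0 → (B + (algebraMap C F l) • G).det = 0 := by
    intro l hl
    have hl' : algebraMap C F l ≠ 0 := by
      rw [Ne, map_eq_zero]
      exact hl
    have h1 : ((algebraMap C F l)⁻¹ • B + G).det = 0 := by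
      have h2 := congrArg (MvPolynomial.eval
        (fun k => (algebraMap C F l)⁻¹ * algebraMap C F (r (w (a k))))) hQ
      rw [map_zero, RingHom.map_det] at h2
      rw [← h2]
      congr 1
      ext i j
      simp only [Q, B, G, Matrix.of_apply, Matrix.add_apply, Matrix.smul_apply, smul_eq_mul,
        RingHom.mapMatrix_apply, Matrix.map_apply, map_add, map_sum, map_mul, MvPolynomial.eval_X,
        MvPolynomial.eval_C]
      congr 1
      rw [hrW, map_sum, Finset.mul_sum]
      refine Finset.sum_congr rfl fun k _ => ?_
      rw [map_mul]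
      ring
    have h3 : B + (algebraMap C F l) • G = (algebraMap C F l) • ((algebraMap C F l)⁻¹ • B + G) := by
      rw [smul_add, smul_smul, mul_inv_cancel₀ hl', one_smul]
    rw [h3, Matrix.det_smul, h1, mul_zero]
  let R : Matrix (Fin m) (Fin m) F[X] := B.map Polynomial.C + (Polynomial.X : F[X]) • G.map Polynomial.C
  have hR : ∀ l : F, (R.det).eval l = (B + l • G).det := by
    intro l
    have h1 := RingHom.map_det (Polynomial.evalRingHom l) R
    rw [Polynomial.coe_evalRingHom] at h1
    rw [h1]
    congr 1
    ext i j
    simp [R, Matrix.add_apply, Matrix.smul_apply, Matrix.map_apply]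
    exact mul_comm _ _
  have hR0 : R.det = 0 := by
    apply Polynomial.eq_zero_of_infinite_isRoot
    have hinf : (algebraMap C F '' {l : C | l ≠ 0}).Infinite := by
      apply Set.Infinite.image (Set.injOn_of_injective (algebraMap C F).injective)
      exact (Set.finite_singleton (0 : C)).infinite_compl
    refine hinf.mono ?_
    rintro _ ⟨l, hl, rfl⟩
    change (R.det).eval _ = 0
    rw [hR]
    exact hval l hl
  have hB : B.det = 0 := by
    have h1 := hR 0
    rw [hR0, Polynomial.eval_zero, zero_smul, add_zero] at h1
    exact h1.symm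
  apply (algebraMap C F).injective
  rw [map_zero, RingHom.map_det, ← hB]
  rfl

end Pool.Agent.W254.LF
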