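import Mathlib
import Pool.Agent.W289.SL.Defs

/-!
# Leopoldt's conjecture in families: statements of the parts
-/

set_option autoImplicit false

namespace Pool.Agent.W254.LF

open Polynomial NumberField Filter Topology Pool.Agent.W289.SL

/-- Leopoldt's conjecture for the number field `K` and the prime `p`, in relation form: units
congruent to `1` modulo all primes above `p` which are independent over `ℤ` are independent over
`ℤ_p`. -/
def LeopoldtAt (K : Type) [Field K] [NumberField K] (p : ℕ) [Fact p.Prime] : Prop :=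
  ∀ (n : ℕ) (ε : Fin n → (𝓞 K)ˣ),
    (∀ i, ((ε i : 𝓞 K) - 1) ∈ (Ideal.span {((p : ℕ) : 𝓞 K)}).radical) →
    (∀ c : Fin n → ℤ, ∏ i, ε i ^ c i = 1 → c = 0) →
    ∀ (a : Fin n → PadicInt p) (m : ℕ → Fin n → ℤ),
      (∀ i, Tendsto (fun k => ((m k i : ℤ) : PadicInt p)) atTop (𝓝 (a i))) →
      (∀ N : ℕ, ∀ᶠ k in atTop,
        ((p : ℕ) : 𝓞 K) ^ N ∣ (((∏ i, ε i ^ m k i : (𝓞 K)ˣ) : 𝓞 K) - 1)) →
      a = 0

/-- Ostrowski's theorem (independence of primitives). -/
def S_OST : Prop :=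
  ∀ (C F E : Type) [Field C] [Field F] [Field E] [CharZero E] [Algebra C F] [Algebra F E]
    [Algebra C E] [IsScalarTower C F E] (DF : Derivation C F F) (DE : Derivation C E E),
    (∀ f : F, DE (algebraMap F E f) = algebraMap F E (DF f)) →
    (∀ x : E, DE x = 0 → ∃ c : C, algebraMap C E c = x) →
    ∀ (ι : Type) [Fintype ι] (y : ι → E) (w : ι → F), (∀ i, DE (y i) = algebraMap F E (w i)) →
    (∀ (c : ι → C) (f : F), ∑ i, algebraMap C E (c i) * y i = algebraMap F E f → c = 0) →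
    AlgebraicIndependent F y

/-- A vanishing determinant of primitives has a vanishing determinant of residues. -/
def S_DET : Prop :=
  ∀ (C F E : Type) [Field C] [Field F] [Field E] [CharZero E] [Algebra C F] [Algebra F E]
    [Algebra C E] [IsScalarTower C F E] (DF : Derivation C F F) (DE : Derivation C E E),
    (∀ f : F, DE (algebraMap F E f) = algebraMap F E (DF f)) →
    (∀ x : E, DE x = 0 → ∃ c : C, algebraMap C E c = x) →
    ∀ (r : F →ₗ[C] C), (∀ f, r (DF f) = 0) →
    ∀ (m : ℕ) (Y : Matrix (Fin m) (Fin m) E) (W : Matrix (Fin m) (Fin m) F),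
      (∀ i j, DE (Y i j) = algebraMap F E (W i j)) → Y.det = 0 → (W.map r).det = 0

/-- The place at infinity. -/
def S_LAU : Prop :=
  ∀ (C : Type) [Field C] [CharZero C] (m : ℕ) (α : Fin m → C), Function.Injective α →
    ∃ (L : Type) (_ : Field L) (_ : Algebra C L) (DL : Derivation C L L) (tL : L)
      (res : L →ₗ[C] C) (X : Fin (m + 1) → L), DL tL = 1 ∧ (∀ f, res (DL f) = 0) ∧
      Function.Injective X ∧
      (∀ j, (X j - tL) * ∏ i, (X j - algebraMap C L (α i)) = 1) ∧
      ∀ i j : Fin m, res (DL (X j.castSucc) / (X j.castSucc - algebraMap C L (α i))) =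
        if i = j then -1 else 0

/-- The embedding of the splitting field of the family into a place. -/
def S_PLC : Prop :=
  ∀ (C E L : Type) [Field C] [CharZero C] [Field E] [Algebra C E] [Field L] [Algebra C L]
    (DE : Derivation C E E) (DL : Derivation C L L) (tE : E) (tL : L), DE tE = 1 → DL tL = 1 →
    ∀ (m : ℕ) (α : Fin m → C) (x : Fin (m + 1) → E) (X : Fin (m + 1) → L),
      Function.Injective x → Function.Injective X →
      (∀ j, (x j - tE) * ∏ i, (x j - algebraMap C E (α i)) = 1) →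
      (∀ j, (X j - tL) * ∏ i, (X j - algebraMap C L (α i)) = 1) →
      ∃ (F : IntermediateField C E) (DF : Derivation C F F) (ψ : F →ₐ[C] L)
        (xF : Fin (m + 1) → F) (σ : Equiv.Perm (Fin (m + 1))),
        (∀ f : F, DE (f : E) = ((DF f : F) : E)) ∧ (∀ j, (xF j : E) = x j) ∧
        (∀ f : F, ψ (DF f) = DL (ψ f)) ∧ (∀ j, ψ (xF j) = X (σ j))

/-- Germs of analytic functions of one variable form a differential domain with the right
constants. -/
def S_GERM : Prop :=
  ∀ (K : Type) [NontriviallyNormedField K] [CompleteSpace K] [CharZero K],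
    ∃ (E : Type) (_ : Field E) (_ : Algebra K E) (D : Derivation K E E) (T : (K → K) → E),
      (∀ x : E, D x = 0 → ∃ c : K, algebraMap K E c = x) ∧
      (∀ c : K, T (fun _ => c) = algebraMap K E c) ∧
      (∀ f g : K → K, AnalyticAt K f 0 → AnalyticAt K g 0 →
        T (fun s => f s + g s) = T f + T g) ∧
      (∀ f g : K → K, AnalyticAt K f 0 → AnalyticAt K g 0 →
        T (fun s => f s * g s) = T f * T g) ∧
      (∀ f : K → K, AnalyticAt K f 0 → T (deriv f) = D (T f)) ∧
      (∀ f : K → K, AnalyticAt K f 0 → T f = 0 → ∀ᶠ s in 𝓝 (0 : K), f s = 0) ∧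
      (∀ f g : K → K, (∀ᶠ s in 𝓝 (0 : K), f s = g s) → T f = T g)

/-- Analytic parametrisation of the roots near every value of the parameter (Puiseux). -/
def S_RAM : Prop :=
  ∀ (K : Type) [NontriviallyNormedField K] [CompleteSpace K] [CharZero K] [IsAlgClosed K]
    (m : ℕ) (α : Fin m → K) (t₀ : K),
    ∃ (M : ℕ) (x : Fin (m + 1) → K → K), 0 < M ∧ (∀ j, AnalyticAt K (x j) 0) ∧
      (∀ j, ∀ᶠ s in 𝓝 (0 : K), (x j s - (t₀ + s ^ M)) * ∏ i, (x j s - α i) = 1) ∧
      (∀ i j, i ≠ j → ¬ (∀ᶠ s in 𝓝 (0 : K), x i s = x j s))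

/-- The Iwasawa logarithm is analytic with derivative `1 / x`. -/
def S_LOG : Prop :=
  ∀ (p : ℕ) [Fact p.Prime] (L : ℂ_[p] → ℂ_[p]), IsIwasawaLog p L → ∀ x : ℂ_[p], x ≠ 0 →
    AnalyticAt ℂ_[p] L x ∧ HasDerivAt L x⁻¹ x

/-- Criterion for Leopoldt's conjecture: enough units with independent logarithms. -/
def S_CRIT : Prop :=
  ∀ (K : Type) [Field K] [NumberField K] (p : ℕ) [Fact p.Prime] (L : ℂ_[p] → ℂ_[p]),
    IsIwasawaLog p L → ∀ (r : ℕ) (u : Fin r → (𝓞 K)ˣ), Units.rank K ≤ r →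
    (∀ c : Fin r → ℂ_[p],
      (∀ σ : K →+* ℂ_[p], ∑ i, c i * L (σ ((u i : 𝓞 K) : K)) = 0) → c = 0) →
    LeopoldtAt K p

/-- Irreducibility from the nonvanishing of the determinant. -/
def S_IRR : Prop :=
  ∀ (p : ℕ) [Fact p.Prime] (k : Type) [Field k] [NumberField k], Units.rank k = 0 →
    ∀ (τ : k →+* ℂ_[p]) (L : ℂ_[p] → ℂ_[p]), IsIwasawaLog p L →
    ∀ (m : ℕ) (a : Fin m → 𝓞 k) (t : 𝓞 k) (x : Fin m → ℂ_[p]), Function.Injective x →
      (∀ j, (x j - τ t) * ∏ i, (x j - τ (a i)) = 1) →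
      (Matrix.of fun i j : Fin m => L (x j - τ (a i))).det ≠ 0 →
      Irreducible (((X - C t) * ∏ i, (X - C (a i)) - 1 : (𝓞 k)[X]).map (algebraMap (𝓞 k) k))

/-- Infinite sets of integers have `p`-adic accumulation points. -/
def S_CPT : Prop :=
  ∀ (p : ℕ) [Fact p.Prime] (k : Type) [Field k] [NumberField k] (τ : k →+* ℂ_[p])
    (T : Set (𝓞 k)), T.Infinite →
    ∃ t₀ : ℂ_[p], ∃ᶠ t in 𝓝[≠] t₀, t ∈ (fun x : 𝓞 k => τ x) '' T

/-- The unit rank of an extension of a field with finitely many units. -/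
def S_RANK : Prop :=
  ∀ (k K : Type) [Field k] [NumberField k] [Field K] [NumberField K] [Algebra k K],
    Units.rank k = 0 → Units.rank K + 1 ≤ Module.finrank k K

end Pool.Agent.W254.LF
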