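import Pool.Agent.W254.LF.Glob2
import Pool.Agent.W254.LF.Det
import Pool.Agent.W289.SL.LogEx
import Pool.Agent.W253.LF.Ost
import Pool.Agent.W253.LF.Crit
import Pool.Agent.W239.LF.Lau
import Pool.Agent.W605.LF.PLC
import Pool.Agent.W924.LF.Germ
import Pool.Agent.W542.LF.Ram
import Pool.Agent.W398.LF.Log
import Pool.Agent.W540.LF.Cpt

/-!
# Leopoldt's conjecture in families: assembly

Parts by helper253 (Ostrowski's theorem, criterion), helper239 (place at infinity), helper605
(embedding), helper924 (germs), helper542 (analytic roots), helper398 (logarithm), helper540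
(accumulation points); existence of the logarithm by helper289.
-/

set_option autoImplicit false

namespace Pool.Agent.W254.LF

open Polynomial NumberField IntermediateField

theorem loc : S_LOC :=
  local_of (det_of Pool.Agent.W253.LF.t_OST) Pool.Agent.W239.LF.t_LAU Pool.Agent.W605.LF.t_PLC
    Pool.Agent.W924.LF.t_GERM Pool.Agent.W542.LF.t_RAM Pool.Agent.W398.LF.t_LOG

theorem final1 (p : ℕ) [Fact p.Prime] (k : Type) [Field k] [NumberField k] (r : ℕ)
    (P : Fin r → (𝓞 k)[X]) (hmon : ∀ i, (P i).Monic) (hpos : ∀ i, 0 < (P i).natDegree)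
    (hsep : ((∏ i, P i).map (algebraMap (𝓞 k) k)).Separable) :
    {t : 𝓞 k | ¬ ∀ (K : Type) [Field K] [NumberField K] [Algebra k K] (θ : K),
      aeval θ ((famP P t).map (algebraMap (𝓞 k) k)) = 0 → k⟮θ⟯ = ⊤ →
      Module.finrank k K = ∑ i, (P i).natDegree + 1 → Units.rank K ≤ r →
      LeopoldtAt K p}.Finite := by
  obtain ⟨L, hL⟩ := Pool.Agent.W289.SL.exists_iwasawaLog p
  exact main1 loc Pool.Agent.W540.LF.t_CPT Pool.Agent.W253.LF.t_CRIT p L hL k r P hmon hpos hsep

theorem final2 (p : ℕ) [Fact p.Prime] (k : Type) [Field k] [NumberField k]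
    (hk : Units.rank k = 0) (m : ℕ) (a : Fin m → 𝓞 k) (ha : Function.Injective a) :
    {t : 𝓞 k | ¬ (Irreducible ((fam a t).map (algebraMap (𝓞 k) k)) ∧
      ∀ (K : Type) [Field K] [NumberField K] [Algebra k K] (θ : K),
        aeval θ ((fam a t).map (algebraMap (𝓞 k) k)) = 0 → k⟮θ⟯ = ⊤ →
        LeopoldtAt K p)}.Finite := by
  obtain ⟨L, hL⟩ := Pool.Agent.W289.SL.exists_iwasawaLog p
  exact main2 loc Pool.Agent.W540.LF.t_CPT Pool.Agent.W253.LF.t_CRIT p L hL k hk m a ha

end Pool.Agent.W254.LF
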