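import Pool.Agent.W254.LF.Unif2

/-!
# Leopoldt's conjecture in families: the theorem for all primes up to a bound
-/

set_option autoImplicit false

namespace Pool.Agent.W254.LF

open Polynomial NumberField IntermediateField Filter Topology Pool.Agent.W289.SL

/-- The exceptional sets. -/
theorem exceptional (hPUI : S_PUI) (hPLOG : S_PLOG) (hCCAU : S_CCAU) (hSEL : S_SEL)
    (hDATA : S_DATA) (r : ℕ) (hr : 0 < r) (P : Fin r → ℤ[X]) (hmon : ∀ i, (P i).Monic)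
    (hinj : Function.Injective P)
    (hdeg : ∀ i, (P i).natDegree = 1 ∨
      ((P i).natDegree = 2 ∧ ∀ x : ℝ, ((P i).map (Int.castRingHom ℝ)).eval x ≠ 0)) :
    ∃ (E₀ : Finset ℤ) (P₁ : ℕ) (Ep : ℕ → Finset ℤ),
      (∀ t ∉ E₀, Irreducible (((X - C t) * ∏ i, P i - 1 : ℤ[X]).map (Int.castRingHom ℚ))) ∧
      (∀ t ∉ E₀, ∀ (K : Type) [Field K] [NumberField K] (θ : K),
        aeval θ ((X - C t) * ∏ i, P i - 1 : ℤ[X]) = 0 → ℚ⟮θ⟯ = ⊤ →
        InfinitePlace.nrRealPlaces K = 1 + (Finset.univ.filter fun i => (P i).natDegree = 1).card ∧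
        InfinitePlace.nrComplexPlaces K =
          (Finset.univ.filter fun i => (P i).natDegree = 2).card) ∧
      (∀ p : ℕ, P₁ < p → (Ep p).card ≤ (∑ i, (P i).natDegree) * p) ∧
      (∀ (p : ℕ) [Fact p.Prime], ∀ t ∉ E₀, t ∉ Ep p →
        ∀ (K : Type) [Field K] [NumberField K] (θ : K),
        aeval θ ((X - C t) * ∏ i, P i - 1 : ℤ[X]) = 0 → ℚ⟮θ⟯ = ⊤ → LeopoldtAt K p) := by
  classical
  obtain ⟨E₀, hE₀⟩ := good_leopoldt r P hmon hinj hdeg
  set m : ℕ := ∑ i, (P i).natDegree with hm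
  have hm1 : 1 ≤ m := by
    have h1 : (P ⟨0, hr⟩).natDegree ≤ m :=
      Finset.single_le_sum (f := fun i => (P i).natDegree) (fun _ _ => Nat.zero_le _)
        (Finset.mem_univ _)
    rcases hdeg ⟨0, hr⟩ with h | ⟨h, -⟩ <;> omega
  have hsep := zed_sep P hmon hinj hdeg
  obtain ⟨P₀, hP₀⟩ := hDATA m (∏ i, P i) (monic_prod_of_monic _ _ fun i _ => hmon i)
    (by rw [Polynomial.map_prod]; exact hsep)
    (by rw [natDegree_prod_of_monic _ _ fun i _ => hmon i]) hm1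
  have hEp : ∀ p : ℕ, ∃ E : Finset ℤ, (max P₀ (2 * (m + 1)) < p → E.card ≤ m * p) ∧
      ∀ [Fact p.Prime], ∀ t ∉ E₀, t ∉ E → ∀ (K : Type) [Field K] [NumberField K] (θ : K),
        aeval θ ((X - C t) * ∏ i, P i - 1 : ℤ[X]) = 0 → ℚ⟮θ⟯ = ⊤ → LeopoldtAt K p := by
    intro p
    by_cases hp : p.Prime
    · have : Fact p.Prime := ⟨hp⟩
      by_cases hpl : max P₀ (2 * (m + 1)) < p
      · obtain ⟨L, hL⟩ := Pool.Agent.W289.SL.exists_iwasawaLog p
        obtain ⟨α, hαP, hα, hαα, hdata⟩ := hP₀ p (lt_of_le_of_lt (le_max_left _ _) hpl) L hL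
        obtain ⟨E, hE, hEg⟩ := prime_bound_all hPUI hPLOG hCCAU hSEL p L hL m
          (lt_of_le_of_lt (le_max_right _ _) hpl) α hα hαα hdata
        refine ⟨E, fun _ => hE, ?_⟩
        intro _ t ht0 ht K _ _ θ hθ hadj
        have hg := goodC_good L r P hmon hsep m hm α hαP t (hEg t ht)
        exact ((hE₀ t ht0).2 K θ hθ hadj).2.2 p L hL hg
      · have hfin := finalZ p r P hmon hinj hdeg
        refine ⟨hfin.toFinset, fun h => absurd h hpl, ?_⟩
        intro _ t _ ht K _ _ θ hθ hadj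
        rw [Set.Finite.mem_toFinset, Set.mem_ofPred_eq, not_not] at ht
        exact (ht.2 K θ hθ hadj).2.2
    · refine ⟨∅, fun _ => by simp, ?_⟩
      intro hf
      exact absurd hf.out hp
  choose Ep hEp1 hEp2 using hEp
  refine ⟨E₀, max P₀ (2 * (m + 1)), Ep, fun t ht => (hE₀ t ht).1, ?_, hEp1, ?_⟩
  · intro t ht K _ _ θ hθ hadj
    obtain ⟨h1, h2, -⟩ := (hE₀ t ht).2 K θ hθ hadj
    exact ⟨h1, h2⟩
  · intro p hf t ht0 ht K _ _ θ hθ hadj
    exact hEp2 p t ht0 ht K θ hθ hadj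

theorem finalA (hPUI : S_PUI) (hPLOG : S_PLOG) (hCCAU : S_CCAU) (hSEL : S_SEL)
    (hDATA : S_DATA) (r : ℕ) (hr : 0 < r) (P : Fin r → ℤ[X]) (hmon : ∀ i, (P i).Monic)
    (hinj : Function.Injective P)
    (hdeg : ∀ i, (P i).natDegree = 1 ∨
      ((P i).natDegree = 2 ∧ ∀ x : ℝ, ((P i).map (Int.castRingHom ℝ)).eval x ≠ 0)) :
    ∃ C₀ : ℕ, ∀ A : Finset ℕ, (∀ p ∈ A, p.Prime) →
      ∃ E : Finset ℤ, E.card ≤ (∑ i, (P i).natDegree) * (∑ p ∈ A, p) + C₀ ∧ ∀ t ∉ E,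
        Irreducible (((X - C t) * ∏ i, P i - 1 : ℤ[X]).map (Int.castRingHom ℚ)) ∧
        ∀ (K : Type) [Field K] [NumberField K] (θ : K),
          aeval θ ((X - C t) * ∏ i, P i - 1 : ℤ[X]) = 0 → ℚ⟮θ⟯ = ⊤ →
          InfinitePlace.nrRealPlaces K =
            1 + (Finset.univ.filter fun i => (P i).natDegree = 1).card ∧
          InfinitePlace.nrComplexPlaces K =
            (Finset.univ.filter fun i => (P i).natDegree = 2).card ∧
          ∀ (p : ℕ) [Fact p.Prime], p ∈ A → LeopoldtAt K p := by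
  classical
  obtain ⟨E₀, P₁, Ep, h1, h2, h3, h4⟩ :=
    exceptional hPUI hPLOG hCCAU hSEL hDATA r hr P hmon hinj hdeg
  set m : ℕ := ∑ i, (P i).natDegree with hm
  refine ⟨E₀.card + ∑ p ∈ Finset.range (P₁ + 1), (Ep p).card, fun A _ =>
    ⟨E₀ ∪ A.biUnion Ep, ?_, ?_⟩⟩
  · have h5 : ∀ p, (Ep p).card ≤ m * p + (if p ∈ Finset.range (P₁ + 1) then (Ep p).card else 0) := by
      intro p
      by_cases hp : P₁ < p
      · exact (h3 p hp).trans (Nat.le_add_right _ _)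
      · rw [if_pos (Finset.mem_range.2 (by omega))]
        exact Nat.le_add_left _ _
    calc (E₀ ∪ A.biUnion Ep).card ≤ E₀.card + (A.biUnion Ep).card := Finset.card_union_le _ _
      _ ≤ E₀.card + ∑ p ∈ A, (Ep p).card := Nat.add_le_add_left Finset.card_biUnion_le _
      _ ≤ E₀.card + ∑ p ∈ A, (m * p + (if p ∈ Finset.range (P₁ + 1) then (Ep p).card else 0)) :=
          Nat.add_le_add_left (Finset.sum_le_sum fun p _ => h5 p) _
      _ = E₀.card + (m * ∑ p ∈ A, p +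
            ∑ p ∈ A, (if p ∈ Finset.range (P₁ + 1) then (Ep p).card else 0)) := by
          rw [Finset.sum_add_distrib, Finset.mul_sum]
      _ ≤ E₀.card + (m * ∑ p ∈ A, p + ∑ p ∈ Finset.range (P₁ + 1), (Ep p).card) := by
          apply Nat.add_le_add_left
          apply Nat.add_le_add_left
          rw [← Finset.sum_filter]
          apply Finset.sum_le_sum_of_subset
          intro p hp
          exact (Finset.mem_filter.1 hp).2
      _ = _ := by ring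
  · intro t ht
    rw [Finset.mem_union, not_or, Finset.mem_biUnion] at ht
    obtain ⟨ht0, ht1⟩ := ht
    refine ⟨h1 t ht0, ?_⟩
    intro K _ _ θ hθ hadj
    obtain ⟨h5, h6⟩ := h2 t ht0 K θ hθ hadj
    refine ⟨h5, h6, ?_⟩
    intro p _ hpA
    exact h4 p t ht0 (fun h => ht1 ⟨p, hpA, h⟩) K θ hθ hadj

end Pool.Agent.W254.LF
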