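import Pool.Agent.W254.LF.Stm
import Pool.Agent.W289.SL.PLog

/-!
# Irreducibility from the nonvanishing of the determinant; the unit rank
-/

set_option autoImplicit false

namespace Pool.Agent.W254.LF

open Polynomial NumberField Pool.Agent.W289.SL

/-- the polynomial `(X - t) ∏ (X - a_i) - 1` -/
noncomputable def fam {R : Type} [CommRing R] {m : ℕ} (a : Fin m → R) (t : R) : R[X] :=
  (X - C t) * ∏ i, (X - C (a i)) - 1

lemma fam_monic {R : Type} [CommRing R] [Nontrivial R] {m : ℕ} (a : Fin m → R) (t : R) :
    (fam a t).Monic ∧ (fam a t).natDegree = m + 1 := by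
  have h1 : ((X - C t) * ∏ i, (X - C (a i)) : R[X]).Monic :=
    (monic_X_sub_C t).mul (monic_prod_of_monic _ _ fun i _ => monic_X_sub_C (a i))
  have h2 : ((X - C t) * ∏ i, (X - C (a i)) : R[X]).natDegree = m + 1 := by
    rw [(monic_X_sub_C t).natDegree_mul (monic_prod_of_monic _ _ fun i _ => monic_X_sub_C (a i)),
      natDegree_X_sub_C, natDegree_prod_of_monic _ _ fun i _ => monic_X_sub_C (a i)]
    simp only [natDegree_X_sub_C, Finset.sum_const, Finset.card_univ, Fintype.card_fin, smul_eq_mul,
      mul_one]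
    omega
  have h3 : ((1 : R[X])).degree < ((X - C t) * ∏ i, (X - C (a i)) : R[X]).degree := by
    rw [degree_one, degree_eq_natDegree h1.ne_zero, h2]
    exact_mod_cast Nat.succ_pos m
  refine ⟨h1.sub_of_left h3, ?_⟩
  rw [fam, natDegree_sub_eq_left_of_natDegree_lt]
  · exact h2
  · rw [natDegree_one, h2]
    exact Nat.succ_pos m

lemma fam_map {R S : Type} [CommRing R] [CommRing S] (f : R →+* S) {m : ℕ} (a : Fin m → R) (t : R) :
    (fam a t).map f = fam (fun i => f (a i)) (f t) := by
  simp [fam, Polynomial.map_sub, Polynomial.map_mul, Polynomial.map_prod]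

lemma fam_eval {R : Type} [CommRing R] {m : ℕ} (a : Fin m → R) (t x : R) :
    (fam a t).eval x = (x - t) * ∏ i, (x - a i) - 1 := by
  simp [fam, eval_prod]

/-- a unit of a number field of unit rank zero has logarithm zero -/
lemma log_unit_zero {p : ℕ} [Fact p.Prime] {k : Type} [Field k] [NumberField k]
    (hk : Units.rank k = 0) (τ : k →+* ℂ_[p]) {L : ℂ_[p] → ℂ_[p]} (hL : IsIwasawaLog p L)
    (u : 𝓞 k) (hu : IsUnit u) : L (τ u) = 0 := by
  obtain ⟨v, rfl⟩ := hu
  obtain ⟨⟨ζ, e⟩, h, -⟩ := Units.exist_unique_eq_mul_prod k v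
  have hemp : IsEmpty (Fin (Units.rank k)) := by
    rw [hk]
    infer_instance
  have h1 : v = (ζ : (𝓞 k)ˣ) := by
    rw [h]
    simp
  have h2 : (ζ : (𝓞 k)ˣ) ∈ Units.torsion k := ζ.2
  rw [← h1] at h2
  have h3 : IsOfFinOrder v := (CommGroup.mem_torsion _).1 h2
  obtain ⟨n, hn, hvn⟩ := isOfFinOrder_iff_pow_eq_one.1 h3
  have h4 : (τ ((v : 𝓞 k) : k)) ^ n = 1 := by
    rw [← map_pow]
    have h5 : ((v : 𝓞 k) : k) ^ n = 1 := by
      have := congrArg (fun w : (𝓞 k)ˣ => ((w : 𝓞 k) : k)) hvn
      simpa using this
    rw [h5, map_one]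
  have h6 : τ ((v : 𝓞 k) : k) ≠ 0 := by
    intro h0
    rw [h0, zero_pow hn.ne'] at h4
    exact zero_ne_one h4
  have h7 := hL.pow h6 n
  rw [h4, hL.one] at h7
  rcases mul_eq_zero.1 h7.symm with h | h
  · exact absurd h (by exact_mod_cast hn.ne')
  · exact h

theorem t_IRR : S_IRR := by
  classical
  intro p hp k _ _ hk τ L hL m a t x hx heq hdet
  change Irreducible ((fam a t).map (algebraMap (𝓞 k) k))
  obtain ⟨hmon, hdeg⟩ := fam_monic a t
  rw [← hmon.irreducible_iff_irreducible_map_fraction_map, hmon.irreducible_iff_natDegree]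
  set φ : 𝓞 k →+* ℂ_[p] := τ.comp (algebraMap (𝓞 k) k) with hφ
  have hφa : ∀ z : 𝓞 k, φ z = τ z := fun z => rfl
  set S0 : Multiset ℂ_[p] := (Finset.univ.val.map x) with hS0
  have hS0n : S0.Nodup := (Finset.univ.nodup.map hx)
  have hcard0 : S0.card = m := by simp [hS0]
  have hFne : (fam a t).map φ ≠ 0 := (hmon.map φ).ne_zero
  have hS0le : S0 ≤ ((fam a t).map φ).roots := by
    rw [Multiset.le_iff_subset hS0n]
    intro z hz
    obtain ⟨j, -, rfl⟩ := Multiset.mem_map.1 hz
    rw [mem_roots hFne, IsRoot.def, fam_map, fam_eval]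
    have := heq j
    simp only [hφa]
    rw [this, sub_self]
  have hcardF : ((fam a t).map φ).roots.card = m + 1 := by
    rw [← (IsAlgClosed.splits ((fam a t).map φ)).natDegree_eq_card_roots,
      hmon.natDegree_map, hdeg]
  obtain ⟨c, hc⟩ : ∃ c, ((fam a t).map φ).roots = S0 + {c} := by
    obtain ⟨u, hu⟩ := Multiset.le_iff_exists_add.1 hS0le
    have h1 : u.card = 1 := by
      have := congrArg Multiset.card hu
      rw [Multiset.card_add, hcardF, hcard0] at this
      omega
    obtain ⟨c, rfl⟩ := Multiset.card_eq_one.1 h1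
    exact ⟨c, hu⟩
  -- the key point
  have key : ∀ h h' : (𝓞 k)[X], h.Monic → h * h' = fam a t → (h.map φ).roots ≤ S0 →
      h.natDegree = 0 := by
    intro h h' hh hhh hle
    have hunit : ∀ i, IsUnit (h.eval (a i)) := by
      intro i
      have h1 : h.eval (a i) * h'.eval (a i) = -1 := by
        rw [← eval_mul, hhh, fam_eval, Finset.prod_eq_zero (Finset.mem_univ i) (sub_self _)]
        ring
      exact IsUnit.of_mul_eq_one (-h'.eval (a i)) (by rw [mul_neg, h1, neg_neg])
    set J : Finset (Fin m) := Finset.univ.filter fun j => x j ∈ (h.map φ).roots with hJ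
    have hroots : (h.map φ).roots = J.val.map x := by
      have hnd : (h.map φ).roots.Nodup := Multiset.nodup_of_le hle hS0n
      rw [(Multiset.Nodup.ext hnd (J.nodup.map hx))]
      intro z
      constructor
      · intro hz
        obtain ⟨j, -, rfl⟩ := Multiset.mem_map.1 (Multiset.subset_of_le hle hz)
        exact Multiset.mem_map.2 ⟨j, by simpa [hJ] using hz, rfl⟩
      · intro hz
        obtain ⟨j, hj, rfl⟩ := Multiset.mem_map.1 hz
        have : j ∈ J := hj
        rw [hJ, Finset.mem_filter] at this
        exact this.2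
    have hxa : ∀ i j, x j - τ (a i) ≠ 0 := by
      intro i j h0
      have h1 := heq j
      rw [Finset.prod_eq_zero (Finset.mem_univ i) h0, mul_zero] at h1
      exact zero_ne_one h1
    have hlog : ∀ (i : Fin m) (J' : Finset (Fin m)),
        L (∏ j ∈ J', (τ (a i) - x j)) = ∑ j ∈ J', L (x j - τ (a i)) := by
      intro i J'
      induction J' using Finset.induction_on with
      | empty => simp [hL.one]
      | insert j J' hj ih =>
        rw [Finset.prod_insert hj, Finset.sum_insert hj, hL.mul, ih]
        · congr 1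
          rw [← neg_sub, hL.neg (hxa i j)]
        · rw [← neg_sub]
          exact neg_ne_zero.2 (hxa i j)
        · rw [Finset.prod_ne_zero_iff]
          intro j' _
          rw [← neg_sub]
          exact neg_ne_zero.2 (hxa i j')
    have hsum : ∀ i, ∑ j ∈ J, L (x j - τ (a i)) = 0 := by
      intro i
      rw [← hlog i J]
      have h1 : ∏ j ∈ J, (τ (a i) - x j) = φ (h.eval (a i)) := by
        have h2 := (IsAlgClosed.splits (h.map φ)).eval_eq_prod_roots_of_monic (hh.map φ) (φ (a i))
        rw [eval_map, eval₂_at_apply, hroots, Multiset.map_map] at h2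
        rw [h2]
        rfl
      rw [h1]
      exact log_unit_zero hk τ hL _ (hunit i)
    have hvec : (Matrix.of fun i j : Fin m => L (x j - τ (a i))).mulVec
        (fun j => if j ∈ J then 1 else 0) = 0 := by
      funext i
      rw [Matrix.mulVec, dotProduct]
      simp only [Matrix.of_apply, mul_ite, mul_one, mul_zero, Pi.zero_apply]
      rw [← Finset.sum_filter]
      have : Finset.univ.filter (fun j => j ∈ J) = J := by ext j; simp
      rw [this]
      exact hsum i
    have hzero := Matrix.eq_zero_of_mulVec_eq_zero hdet hvec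
    have hJe : J = ∅ := by
      rw [Finset.eq_empty_iff_forall_notMem]
      intro j hj
      have := congrFun hzero j
      simp [hj] at this
    rw [hJe] at hroots
    have h3 := (IsAlgClosed.splits (h.map φ)).natDegree_eq_card_roots
    rw [hroots, hh.natDegree_map] at h3
    simpa using h3
  constructor
  · intro h1
    rw [h1, natDegree_one] at hdeg
    omega
  · intro f g hf hg hfg
    have hrt : (f.map φ).roots + (g.map φ).roots = S0 + {c} := by
      rw [← hc, ← hfg, Polynomial.map_mul, roots_mul]
      rw [← Polynomial.map_mul, hfg]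
      exact hFne
    have hcmem : c ∈ (f.map φ).roots + (g.map φ).roots := by
      rw [hrt]
      simp
    rcases Multiset.mem_add.1 hcmem with h | h
    · right
      apply key g f hg (by rw [mul_comm]; exact hfg)
      obtain ⟨R', hR'⟩ := Multiset.exists_cons_of_mem h
      rw [hR'] at hrt
      have h2 : c ::ₘ (R' + (g.map φ).roots) = c ::ₘ S0 := by
        rw [← Multiset.cons_add, hrt, add_comm, Multiset.singleton_add]
      have h3 := (Multiset.cons_inj_right c).1 h2
      rw [← h3]
      exact Multiset.le_add_left _ _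
    · left
      apply key f g hf hfg
      obtain ⟨R', hR'⟩ := Multiset.exists_cons_of_mem h
      rw [hR'] at hrt
      have h2 : c ::ₘ ((f.map φ).roots + R') = c ::ₘ S0 := by
        rw [← Multiset.add_cons, hrt, add_comm, Multiset.singleton_add]
      have h3 := (Multiset.cons_inj_right c).1 h2
      rw [← h3]
      exact Multiset.le_add_right _ _

end Pool.Agent.W254.LF
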