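import Pool.Agent.W254.LF.Stm

/-!
# The unit rank of an extension of a field of unit rank zero
-/

set_option autoImplicit false

namespace Pool.Agent.W254.LF

open NumberField

/-- The unit rank of an extension of a field with finitely many units. -/
theorem t_RANK : S_RANK := by
  classical
  intro k K _ _ _ _ _ hk
  have hcard : Fintype.card (InfinitePlace k) = 1 := by
    have h1 : 0 < Fintype.card (InfinitePlace k) := Fintype.card_pos
    have h2 : Fintype.card (InfinitePlace k) - 1 = 0 := hk
    omega
  have hsub : ∀ v w : InfinitePlace k, v = w := fun v w =>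
    (Fintype.card_le_one_iff.1 hcard.le) v w
  obtain ⟨φ0⟩ : Nonempty (k →+* ℂ) := inferInstance
  letI : Algebra k ℂ := φ0.toAlgebra
  have hfd : FiniteDimensional k K := Module.Finite.of_restrictScalars_finite ℚ k K
  have hmap : ∀ ψ : K →+* ℂ, ψ.comp (algebraMap k K) = φ0 →
      ∃ χ : K →ₐ[k] ℂ, (χ : K →+* ℂ) = ψ := by
    intro ψ h
    refine ⟨{ ψ with commutes' := ?_ }, ?_⟩
    · intro x
      exact congrArg (fun f : k →+* ℂ => f x) h
    · ext x
      rfl
  have hsurj : Function.Surjective (fun χ : K →ₐ[k] ℂ => InfinitePlace.mk (χ : K →+* ℂ)) := by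
    intro w
    have h1 : InfinitePlace.mk (w.embedding.comp (algebraMap k K)) = InfinitePlace.mk φ0 :=
      hsub _ _
    rcases InfinitePlace.mk_eq_iff.1 h1 with h | h
    · obtain ⟨χ, hχ⟩ := hmap _ h
      refine ⟨χ, ?_⟩
      simp only
      rw [hχ, InfinitePlace.mk_embedding]
    · have h2 : (ComplexEmbedding.conjugate w.embedding).comp (algebraMap k K) = φ0 := by
        rw [← h]
        rfl
      obtain ⟨χ, hχ⟩ := hmap _ h2
      refine ⟨χ, ?_⟩
      simp only
      rw [hχ, InfinitePlace.mk_conjugate_eq, InfinitePlace.mk_embedding]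
  have hle : Fintype.card (InfinitePlace K) ≤ Module.finrank k K := by
    rw [← AlgHom.card k K ℂ]
    exact Fintype.card_le_of_surjective _ hsurj
  have hpos : 0 < Fintype.card (InfinitePlace K) := Fintype.card_pos
  have h3 : Units.rank K = Fintype.card (InfinitePlace K) - 1 := rfl
  omega

end Pool.Agent.W254.LF
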