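import Pool.Agent.W254.LF.Loc
import Pool.Agent.W254.LF.Irr
import Pool.Agent.W254.LF.Rank

/-!
# Leopoldt's conjecture in families: the global theorems
-/

set_option autoImplicit false

namespace Pool.Agent.W254.LF

open Polynomial NumberField Filter Topology Pool.Agent.W289.SL IntermediateField

/-- The polynomial `(X - t) P_1 ⋯ P_r - 1`. -/
noncomputable def famP {R : Type} [CommRing R] {r : ℕ} (P : Fin r → R[X]) (t : R) : R[X] :=
  (X - C t) * ∏ i, P i - 1

/-- embeddings -/
lemma exists_emb {p : ℕ} [Fact p.Prime] {k K : Type} [Field k] [NumberField k] [Field K]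
    [NumberField K] [Algebra k K] (τ : k →+* ℂ_[p]) (θ : K) (f : k[X]) (hf : f.Monic)
    (hθ : aeval θ f = 0) (hadj : k⟮θ⟯ = ⊤) (hdeg : Module.finrank k K = f.natDegree)
    (x : ℂ_[p]) (hx : (f.map τ).eval x = 0) :
    ∃ σ : K →+* ℂ_[p], σ.comp (algebraMap k K) = τ ∧ σ θ = x := by
  letI : Algebra k ℂ_[p] := τ.toAlgebra
  have hint : ∀ z : K, IsIntegral k z := fun z => by
    have : FiniteDimensional k K := Module.Finite.of_restrictScalars_finite ℚ k K
    exact Algebra.IsIntegral.isIntegral z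
  have hmp : minpoly k θ = f := by
    have h1 : minpoly k θ ∣ f := minpoly.dvd k θ hθ
    have h2 : (minpoly k θ).natDegree = f.natDegree := by
      rw [← IntermediateField.adjoin.finrank (hint θ), hadj, IntermediateField.finrank_top', hdeg]
    have hd := Polynomial.eq_of_monic_of_dvd_of_natDegree_le (minpoly.monic (hint θ)) hf h1 h2.ge
    exact hd.symm
  obtain ⟨φ, hφ⟩ := IntermediateField.exists_algHom_of_splits_of_aeval (F := k) (E := K)
    (K := ℂ_[p]) (x := θ) (y := x)
    (fun z => ⟨hint z, IsAlgClosed.splits _⟩) (by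
      rw [hmp, aeval_def]
      rw [eval_map] at hx
      exact hx)
  refine ⟨(φ : K →+* ℂ_[p]), ?_, hφ⟩
  ext z
  exact φ.commutes z

theorem main1 (hLOC : S_LOC) (hCPT : S_CPT) (hCRIT : S_CRIT)
    (p : ℕ) [Fact p.Prime] (L : ℂ_[p] → ℂ_[p]) (hL : IsIwasawaLog p L)
    (k : Type) [Field k] [NumberField k] (r : ℕ) (P : Fin r → (𝓞 k)[X])
    (hmon : ∀ i, (P i).Monic) (hpos : ∀ i, 0 < (P i).natDegree)
    (hsep : ((∏ i, P i).map (algebraMap (𝓞 k) k)).Separable) :
    {t : 𝓞 k | ¬ ∀ (K : Type) [Field K] [NumberField K] [Algebra k K] (θ : K),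
      aeval θ ((famP P t).map (algebraMap (𝓞 k) k)) = 0 → k⟮θ⟯ = ⊤ →
      Module.finrank k K = ∑ i, (P i).natDegree + 1 → Units.rank K ≤ r →
      LeopoldtAt K p}.Finite := by
  classical
  obtain ⟨τ⟩ : Nonempty (k →+* ℂ_[p]) :=
    ⟨((IsAlgClosed.lift : k →ₐ[ℚ] ℂ_[p]) : k →+* ℂ_[p])⟩
  set φ : 𝓞 k →+* ℂ_[p] := τ.comp (algebraMap (𝓞 k) k) with hφ
  by_contra hinf
  obtain ⟨t₀, ht₀⟩ := hCPT p k τ _ hinf
  -- the roots
  set S : Fin r → Finset ℂ_[p] := fun i => ((P i).map φ).roots.toFinset with hS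
  have hPm : (∏ i, P i).Monic := monic_prod_of_monic _ _ fun i _ => hmon i
  have hsepφ : ((∏ i, P i).map φ).Separable := by
    have h1 : ((∏ i, P i).map φ) = ((∏ i, P i).map (algebraMap (𝓞 k) k)).map τ := by
      rw [Polynomial.map_map]
    rw [h1]
    exact hsep.map
  have hrootsn : ∀ i, ((P i).map φ).roots.Nodup := by
    intro i
    apply nodup_roots
    rw [Polynomial.map_prod] at hsepφ
    exact Separable.of_dvd hsepφ (Finset.dvd_prod_of_mem _ (Finset.mem_univ i))
  have hcardS : ∀ i, (S i).card = (P i).natDegree := by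
    intro i
    rw [hS]
    simp only
    rw [Multiset.toFinset_card_of_nodup (hrootsn i),
      ← (IsAlgClosed.splits ((P i).map φ)).natDegree_eq_card_roots, (hmon i).natDegree_map]
  have hdisj : ∀ i j, i ≠ j → ∀ z, z ∈ S i → z ∉ S j := by
    intro i j hij z hz hz'
    have h1 : ((∏ i, P i).map φ).roots.Nodup := nodup_roots hsepφ
    have h2 : (P i * P j) ∣ ∏ i, P i := by
      have h3 := Finset.prod_dvd_prod_of_subset {i, j} Finset.univ P (Finset.subset_univ _)
      rwa [Finset.prod_pair hij] at h3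
    have h4 : (X - C z) * (X - C z) ∣ (∏ i, P i).map φ := by
      refine dvd_trans ?_ (Polynomial.map_dvd φ h2)
      rw [Polynomial.map_mul]
      apply mul_dvd_mul
      · rw [dvd_iff_isRoot]
        rw [hS, Multiset.mem_toFinset] at hz
        exact (mem_roots'.1 hz).2
      · rw [dvd_iff_isRoot]
        rw [hS, Multiset.mem_toFinset] at hz'
        exact (mem_roots'.1 hz').2
    have h5 := hsepφ.squarefree _ h4
    exact (not_isUnit_X_sub_C z) h5
  set ι : Type := Σ i : Fin r, {z // z ∈ S i} with hι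
  have hcard : Fintype.card ι = ∑ i, (P i).natDegree := by
    change Fintype.card (Σ i : Fin r, {z // z ∈ S i}) = _
    rw [Fintype.card_sigma]
    refine Finset.sum_congr rfl fun i _ => ?_
    rw [Fintype.card_coe, hcardS]
  set m : ℕ := ∑ i, (P i).natDegree with hm
  obtain e : Fin m ≃ ι := (Fintype.equivFinOfCardEq hcard).symm
  set α : Fin m → ℂ_[p] := fun l => (e l).2.1 with hα
  have hαinj : Function.Injective α := by
    intro l l' h
    apply e.injective
    have h1 : (e l).1 = (e l').1 := by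
      by_contra hne
      have h2 := hdisj _ _ hne _ (e l).2.2
      apply h2
      have h3 : (e l).2.1 = (e l').2.1 := h
      rw [h3]
      exact (e l').2.2
    have h3 : (e l).2.1 = (e l').2.1 := h
    rcases hl : e l with ⟨i, z, hz⟩
    rcases hl' : e l' with ⟨i', z', hz'⟩
    rw [hl, hl'] at h1 h3
    simp only at h1 h3
    subst h1
    subst h3
    rfl
  have hPe : ∀ i (y : ℂ_[p]), ((P i).map φ).eval y = ∏ z ∈ S i, (y - z) := by
    intro i y
    rw [(IsAlgClosed.splits ((P i).map φ)).eval_eq_prod_roots_of_monic ((hmon i).map φ)]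
    rw [hS]
    simp only
    rw [Finset.prod_multiset_map_count]
    refine Finset.prod_congr rfl fun z hz => ?_
    rw [Multiset.count_eq_one_of_mem (hrootsn i) (Multiset.mem_toFinset.1 hz), pow_one]
  have hsum : ∀ (g : Fin r → ℂ_[p] → ℂ_[p]),
      ∑ l, g (e l).1 (α l) = ∑ i, ∑ z ∈ S i, g i z := by
    intro g
    have h1 : ∑ l, g (e l).1 (α l) = ∑ w : ι, g w.1 w.2.1 :=
      Equiv.sum_comp e (fun w : ι => g w.1 w.2.1)
    rw [h1, Fintype.sum_sigma]
    refine Finset.sum_congr rfl fun i _ => ?_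
    exact Finset.sum_coe_sort (S i) (fun z => g i z)
  have hprod : ∀ y : ℂ_[p], ∏ l, (y - α l) = ∏ i, ((P i).map φ).eval y := by
    intro y
    have h1 : ∏ l, (y - α l) = ∏ w : ι, (y - w.2.1) :=
      Equiv.prod_comp e (fun w : ι => (y - w.2.1))
    rw [h1, Fintype.prod_sigma]
    refine Finset.prod_congr rfl fun i _ => ?_
    rw [hPe]
    exact Finset.prod_coe_sort (S i) (fun z => y - z)
  -- the local theorem
  obtain ⟨t', ⟨t, htbad, rfl⟩, x, hxinj, hxeq, hdet⟩ :=
    (ht₀.and_eventually (hLOC p L hL m α hαinj t₀)).exists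
  apply htbad
  intro K _ _ _ θ hθ hadj hdeg hrank
  have hFmon : (famP P t).Monic ∧ (famP P t).natDegree = m + 1 := by
    have h1 : ((X - C t) * ∏ i, P i).Monic := (monic_X_sub_C t).mul hPm
    have h2 : ((X - C t) * ∏ i, P i).natDegree = m + 1 := by
      rw [(monic_X_sub_C t).natDegree_mul hPm, natDegree_X_sub_C,
        natDegree_prod_of_monic _ _ fun i _ => hmon i]
      omega
    have h3 : ((1 : (𝓞 k)[X])).degree < ((X - C t) * ∏ i, P i).degree := by
      rw [degree_one, degree_eq_natDegree h1.ne_zero, h2]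
      exact_mod_cast Nat.succ_pos m
    refine ⟨h1.sub_of_left h3, ?_⟩
    rw [famP, natDegree_sub_eq_left_of_natDegree_lt]
    · exact h2
    · rw [natDegree_one, h2]
      exact Nat.succ_pos m
  have hxP : ∀ j, (x j - φ t) * ∏ i, ((P i).map φ).eval (x j) = 1 := by
    intro j
    rw [← hprod]
    exact hxeq j
  have hxroot : ∀ j, (((famP P t).map (algebraMap (𝓞 k) k)).map τ).eval (x j) = 0 := by
    intro j
    rw [Polynomial.map_map]
    change ((famP P t).map φ).eval (x j) = 0
    rw [famP, Polynomial.map_sub, Polynomial.map_mul, Polynomial.map_sub, map_X, map_C,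
      Polynomial.map_prod, Polynomial.map_one, eval_sub, eval_mul, eval_sub, eval_X, eval_C,
      eval_prod, eval_one, hxP, sub_self]
  have hemb : ∀ j, ∃ σ : K →+* ℂ_[p], σ.comp (algebraMap k K) = τ ∧ σ θ = x j := fun j =>
    exists_emb τ θ _ (hFmon.1.map _) hθ hadj
      (by rw [hFmon.1.natDegree_map, hFmon.2, hdeg]) (x j) (hxroot j)
  choose σ hστ hσθ using hemb
  -- the units
  have hθint : IsIntegral ℤ θ := by
    have h1 : IsIntegral (𝓞 k) θ := by
      refine ⟨famP P t, hFmon.1, ?_⟩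
      rw [aeval_def, eval₂_map] at hθ
      rw [IsScalarTower.algebraMap_eq (𝓞 k) k K]
      exact hθ
    exact isIntegral_trans θ h1
  set θ' : 𝓞 K := ⟨θ, hθint⟩ with hθ'
  have hθ'c : algebraMap (𝓞 K) K θ' = θ := rfl
  set ψ : 𝓞 k →+* 𝓞 K := algebraMap (𝓞 k) (𝓞 K) with hψ
  have hψc : (algebraMap (𝓞 K) K).comp ψ = (algebraMap k K).comp (algebraMap (𝓞 k) k) := rfl
  have hval : ∀ Q : (𝓞 k)[X], algebraMap (𝓞 K) K ((Q.map ψ).eval θ') =
      ((Q.map (algebraMap (𝓞 k) k)).map (algebraMap k K)).eval θ := by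
    intro Q
    rw [Polynomial.map_map, ← hψc, eval_map, eval_map, hom_eval₂, hθ'c]
  have hunitprod : (θ' - ψ t) * ∏ i, ((P i).map ψ).eval θ' = 1 := by
    have h1 : ((famP P t).map ψ).eval θ' = 0 := by
      apply FaithfulSMul.algebraMap_injective (𝓞 K) K
      rw [hval, map_zero, eval_map]
      exact hθ
    rw [famP, Polynomial.map_sub, Polynomial.map_mul, Polynomial.map_sub, map_X, map_C,
      Polynomial.map_prod, Polynomial.map_one, eval_sub, eval_mul, eval_sub, eval_X, eval_C,
      eval_prod, eval_one, sub_eq_zero] at h1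
    exact h1
  have hu : ∀ i, IsUnit (((P i).map ψ).eval θ') := by
    intro i
    have h1 : IsUnit ((θ' - ψ t) * ∏ i, ((P i).map ψ).eval θ') := by
      rw [hunitprod]
      exact isUnit_one
    have h2 := isUnit_of_mul_isUnit_right h1
    exact isUnit_of_dvd_unit (Finset.dvd_prod_of_mem (fun i => ((P i).map ψ).eval θ')
      (Finset.mem_univ i)) h2
  choose u hu' using hu
  refine hCRIT K p L hL r u hrank ?_
  intro c hc
  have hxne : ∀ j i, ∀ z ∈ S i, x j - z ≠ 0 := by
    intro j i z hz h0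
    have h1 := hxP j
    have h2 : ((P i).map φ).eval (x j) = 0 := by
      rw [hPe, Finset.prod_eq_zero hz h0]
    rw [Finset.prod_eq_zero (Finset.mem_univ i) h2, mul_zero] at h1
    exact zero_ne_one h1
  have hlogprod : ∀ j i (A : Finset ℂ_[p]), A ⊆ S i →
      L (∏ z ∈ A, (x j - z)) = ∑ z ∈ A, L (x j - z) := by
    intro j i A
    induction A using Finset.induction_on with
    | empty => intro _; simp [hL.one]
    | insert z A hz ih =>
      intro hA
      rw [Finset.prod_insert hz, Finset.sum_insert hz, hL.mul, ih]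
      · exact fun w hw => hA (Finset.mem_insert_of_mem hw)
      · exact hxne j i z (hA (Finset.mem_insert_self _ _))
      · rw [Finset.prod_ne_zero_iff]
        intro w hw
        exact hxne j i w (hA (Finset.mem_insert_of_mem hw))
  have hlogu : ∀ j i, L (σ j (((u i : (𝓞 K)ˣ) : 𝓞 K) : K)) = ∑ z ∈ S i, L (x j - z) := by
    intro j i
    rw [← hlogprod j i (S i) subset_rfl, ← hPe, hu']
    congr 1
    have h1 := congrArg (σ j) (hval (P i))
    have h2 : σ j (((P i).map ((algebraMap k K).comp (algebraMap (𝓞 k) k))).eval θ) =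
        ((P i).map φ).eval (x j) := by
      rw [eval_map, hom_eval₂, hσθ, eval_map, ← RingHom.comp_assoc, hστ]
    rw [Polynomial.map_map, h2] at h1
    exact h1
  have hvec : Matrix.vecMul (fun l => c (e l).1)
      (Matrix.of fun i j : Fin m => L (x j - α i)) = 0 := by
    funext j
    rw [Matrix.vecMul, dotProduct]
    simp only [Matrix.of_apply, Pi.zero_apply]
    have h1 := hsum (fun i z => c i * L (x j - z))
    rw [h1]
    have h2 := hc (σ j)
    rw [← h2]
    refine Finset.sum_congr rfl fun i _ => ?_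
    rw [hlogu, Finset.mul_sum]
  have hzero := Matrix.eq_zero_of_vecMul_eq_zero hdet hvec
  funext i
  have h1 : (S i).Nonempty := by
    rw [← Finset.card_pos, hcardS]
    exact hpos i
  obtain ⟨z, hz⟩ := h1
  have h2 := congrFun hzero (e.symm ⟨i, ⟨z, hz⟩⟩)
  simpa using h2

end Pool.Agent.W254.LF
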