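import Pool.Agent.W254.LF.Glob

/-!
# Leopoldt's conjecture in families: linear factors
-/

set_option autoImplicit false

namespace Pool.Agent.W254.LF

open Polynomial NumberField Filter Topology Pool.Agent.W289.SL IntermediateField

theorem irr_finite (hLOC : S_LOC) (hCPT : S_CPT)
    (p : ℕ) [Fact p.Prime] (L : ℂ_[p] → ℂ_[p]) (hL : IsIwasawaLog p L)
    (k : Type) [Field k] [NumberField k] (hk : Units.rank k = 0) (m : ℕ) (a : Fin m → 𝓞 k)
    (ha : Function.Injective a) :
    {t : 𝓞 k | ¬ Irreducible ((fam a t).map (algebraMap (𝓞 k) k))}.Finite := by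
  obtain ⟨τ⟩ : Nonempty (k →+* ℂ_[p]) :=
    ⟨((IsAlgClosed.lift : k →ₐ[ℚ] ℂ_[p]) : k →+* ℂ_[p])⟩
  by_contra hinf
  obtain ⟨t₀, ht₀⟩ := hCPT p k τ _ hinf
  have hα : Function.Injective (fun i => τ (a i)) := by
    intro i j h
    apply ha
    apply FaithfulSMul.algebraMap_injective (𝓞 k) k
    exact τ.injective h
  obtain ⟨t', ⟨t, htbad, rfl⟩, x, hxinj, hxeq, hdet⟩ :=
    (ht₀.and_eventually (hLOC p L hL m _ hα t₀)).exists
  exact htbad (t_IRR p k hk τ L hL m a t x hxinj hxeq hdet)

theorem main2 (hLOC : S_LOC) (hCPT : S_CPT) (hCRIT : S_CRIT)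
    (p : ℕ) [Fact p.Prime] (L : ℂ_[p] → ℂ_[p]) (hL : IsIwasawaLog p L)
    (k : Type) [Field k] [NumberField k] (hk : Units.rank k = 0) (m : ℕ) (a : Fin m → 𝓞 k)
    (ha : Function.Injective a) :
    {t : 𝓞 k | ¬ (Irreducible ((fam a t).map (algebraMap (𝓞 k) k)) ∧
      ∀ (K : Type) [Field K] [NumberField K] [Algebra k K] (θ : K),
        aeval θ ((fam a t).map (algebraMap (𝓞 k) k)) = 0 → k⟮θ⟯ = ⊤ →
        LeopoldtAt K p)}.Finite := by
  have h1 := irr_finite hLOC hCPT p L hL k hk m a ha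
  have hsep : ((∏ i, (X - C (a i))).map (algebraMap (𝓞 k) k)).Separable := by
    rw [Polynomial.map_prod]
    simp only [Polynomial.map_sub, map_X, map_C]
    rw [separable_prod_X_sub_C_iff]
    intro i j h
    exact ha (FaithfulSMul.algebraMap_injective (𝓞 k) k h)
  have h2 := main1 hLOC hCPT hCRIT p L hL k m (fun i => X - C (a i))
    (fun i => monic_X_sub_C (a i)) (fun i => by rw [natDegree_X_sub_C]; exact one_pos) hsep
  refine (h1.union h2).subset ?_
  intro t ht
  by_contra hcon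
  rw [Set.mem_union, not_or] at hcon
  simp only [Set.mem_setOf_eq, not_not] at hcon ht
  obtain ⟨hirr, hleo⟩ := hcon
  apply ht
  refine ⟨hirr, ?_⟩
  intro K _ _ _ θ hθ hadj
  have hfd : FiniteDimensional k K := Module.Finite.of_restrictScalars_finite ℚ k K
  have hint : IsIntegral k θ := Algebra.IsIntegral.isIntegral θ
  obtain ⟨hmon, hdeg⟩ := fam_monic a t
  have hmp : (fam a t).map (algebraMap (𝓞 k) k) = minpoly k θ :=
    minpoly.eq_of_irreducible_of_monic hirr hθ (hmon.map _)
  have hfin : Module.finrank k K = m + 1 := by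
    rw [← IntermediateField.finrank_top' (F := k) (E := K), ← hadj,
      IntermediateField.adjoin.finrank hint, ← hmp, hmon.natDegree_map, hdeg]
  have hrk := t_RANK k K hk
  apply hleo K θ hθ hadj
  · simp only [natDegree_X_sub_C, Finset.sum_const, Finset.card_univ, Fintype.card_fin,
      smul_eq_mul, mul_one]
    exact hfin
  · omega

end Pool.Agent.W254.LF
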