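import Pool.Agent.W254.LF.Stm

/-!
# Leopoldt's conjecture in families: the local theorem
-/

set_option autoImplicit false

namespace Pool.Agent.W254.LF

open Polynomial NumberField Filter Topology Pool.Agent.W289.SL

/-- The local theorem: near every value of the parameter the exceptional values are isolated. -/
def S_LOC : Prop :=
  ∀ (p : ℕ) [Fact p.Prime] (L : ℂ_[p] → ℂ_[p]), IsIwasawaLog p L →
    ∀ (m : ℕ) (α : Fin m → ℂ_[p]) (_ : Function.Injective α) (t₀ : ℂ_[p]),
    ∀ᶠ t in 𝓝[≠] t₀, ∃ x : Fin m → ℂ_[p], Function.Injective x ∧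
      (∀ j, (x j - t) * ∏ i, (x j - α i) = 1) ∧
      (Matrix.of fun i j : Fin m => L (x j - α i)).det ≠ 0

section

variable {K : Type} [NontriviallyNormedField K]

/-- functions analytic at `0` -/
def anal (K : Type) [NontriviallyNormedField K] : Subring (K → K) where
  carrier := {f | AnalyticAt K f 0}
  mul_mem' {f g} hf hg := AnalyticAt.mul (f := f) (g := g) hf hg
  one_mem' := analyticAt_const
  add_mem' {f g} hf hg := AnalyticAt.add (f := f) (g := g) hf hg
  zero_mem' := analyticAt_const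
  neg_mem' {f} hf := AnalyticAt.neg (f := f) hf

variable {E : Type} [Field E] [Algebra K E] (T : (K → K) → E)
  (hTc : ∀ c : K, T (fun _ => c) = algebraMap K E c)
  (hTadd : ∀ f g : K → K, AnalyticAt K f 0 → AnalyticAt K g 0 →
        T (fun s => f s + g s) = T f + T g)
  (hTmul : ∀ f g : K → K, AnalyticAt K f 0 → AnalyticAt K g 0 →
        T (fun s => f s * g s) = T f * T g)

/-- `T` as a ring homomorphism -/
def Thom : anal K →+* E where
  toFun f := T f.1
  map_one' := by
    have := hTc 1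
    rw [map_one] at this
    exact this
  map_zero' := by
    have := hTc 0
    rw [map_zero] at this
    exact this
  map_add' f g := hTadd f.1 g.1 f.2 g.2
  map_mul' f g := hTmul f.1 g.1 f.2 g.2

@[simp] lemma Thom_apply (f : anal K) : Thom T hTc hTadd hTmul f = T f.1 := rfl

end

theorem local_of (hDET : S_DET) (hLAU : S_LAU) (hPLC : S_PLC) (hGERM : S_GERM) (hRAM : S_RAM)
    (hLOG : S_LOG) : S_LOC := by
  intro p hp Lg hLg m α hα t₀
  obtain ⟨M, x, hM, hxan, hxeq, hxne⟩ := hRAM ℂ_[p] m α t₀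
  obtain ⟨E, _, _, D0, T, hconst, hTc, hTadd, hTmul, hTderiv, hTzero, hTcongr⟩ := hGERM ℂ_[p]
  set Th := Thom T hTc hTadd hTmul with hTh
  have hcz : CharZero E := charZero_of_injective_algebraMap (algebraMap ℂ_[p] E).injective
  -- basic elements
  let sA : anal ℂ_[p] := ⟨fun s => s, analyticAt_id⟩
  let cA : ℂ_[p] → anal ℂ_[p] := fun c => ⟨fun _ => c, analyticAt_const⟩
  let xA : Fin (m + 1) → anal ℂ_[p] := fun j => ⟨x j, hxan j⟩
  let tA : anal ℂ_[p] := cA t₀ + sA ^ M
  have hTcA : ∀ c, Th (cA c) = algebraMap ℂ_[p] E c := fun c => hTc c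
  have hTinj : ∀ f g : anal ℂ_[p], Th f = Th g → ∀ᶠ s in 𝓝 (0 : ℂ_[p]), f.1 s = g.1 s := by
    intro f g h
    have h1 : Th (f - g) = 0 := by rw [map_sub, h, sub_self]
    have h2 := hTzero (f - g).1 (f - g).2 h1
    filter_upwards [h2] with s hs
    have : (f - g).1 s = f.1 s - g.1 s := rfl
    rw [this] at hs
    exact sub_eq_zero.1 hs
  have hTcon : ∀ f g : anal ℂ_[p], (∀ᶠ s in 𝓝 (0 : ℂ_[p]), f.1 s = g.1 s) → Th f = Th g :=
    fun f g h => hTcongr f.1 g.1 h
  have hD0s : D0 (Th sA) = 1 := by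
    have h1 : D0 (T (fun s => s)) = T (deriv fun s => s) := (hTderiv _ analyticAt_id).symm
    have h2 : (deriv fun s : ℂ_[p] => s) = fun _ => 1 := by
      funext s
      exact deriv_id s
    change D0 (T fun s => s) = 1
    rw [h1, h2, hTc, map_one]
  have hs0 : Th sA ≠ 0 := by
    intro h
    rw [h, map_zero] at hD0s
    exact zero_ne_one hD0s
  set c : E := ((M : E) * (Th sA) ^ (M - 1))⁻¹ with hc
  have hc0 : (M : E) * (Th sA) ^ (M - 1) ≠ 0 :=
    mul_ne_zero (by exact_mod_cast hM.ne') (pow_ne_zero _ hs0)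
  set DE : Derivation ℂ_[p] E E := c • D0 with hDE
  have hDEapp : ∀ z, DE z = c * D0 z := fun z => rfl
  set tE : E := Th tA with htE
  have hDEt : DE tE = 1 := by
    have h1 : tE = algebraMap ℂ_[p] E t₀ + (Th sA) ^ M := by
      rw [htE, map_add, map_pow, hTcA]
    rw [hDEapp, h1, map_add, Derivation.map_algebraMap, zero_add, Derivation.leibniz_pow, hD0s,
      smul_eq_mul, mul_one, nsmul_eq_mul, hc, inv_mul_cancel₀ hc0]
  have hDEconst : ∀ z : E, DE z = 0 → ∃ c : ℂ_[p], algebraMap ℂ_[p] E c = z := by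
    intro z hz
    apply hconst
    rw [hDEapp] at hz
    rcases mul_eq_zero.1 hz with h | h
    · exact absurd h (inv_ne_zero hc0)
    · exact h
  set xE : Fin (m + 1) → E := fun j => Th (xA j) with hxE
  have hxEinj : Function.Injective xE := by
    intro i j hij
    by_contra hne
    exact hxne i j hne (hTinj _ _ hij)
  have hxEeq : ∀ j, (xE j - tE) * ∏ i, (xE j - algebraMap ℂ_[p] E (α i)) = 1 := by
    intro j
    have h1 : Th ((xA j - tA) * ∏ i, (xA j - cA (α i))) = 1 := by
      rw [← map_one Th]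
      apply hTcon
      filter_upwards [hxeq j] with s hs
      have h2 : ((xA j - tA) * ∏ i, (xA j - cA (α i))).1 s =
          (x j s - (t₀ + s ^ M)) * ∏ i, (x j s - α i) := by
        have h3 := map_prod ((Pi.evalRingHom (fun _ : ℂ_[p] => ℂ_[p]) s).comp (anal ℂ_[p]).subtype)
          (fun i => xA j - cA (α i)) Finset.univ
        have h4 : ((∏ i, (xA j - cA (α i)) : anal ℂ_[p])).1 s = ∏ i, (x j s - α i) := h3
        have h5 : ((xA j - tA) * ∏ i, (xA j - cA (α i))).1 s =
          (x j s - (t₀ + s ^ M)) * ((∏ i, (xA j - cA (α i)) : anal ℂ_[p])).1 s := rfl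
        rw [h5, h4]
      rw [h2, hs]
      rfl
    rw [map_mul, map_sub, map_prod] at h1
    simp only [map_sub, hTcA] at h1
    exact h1
  have hne0 : ∀ j i, x j 0 - α i ≠ 0 := by
    intro j i h0
    have h1 := (hxeq j).self_of_nhds
    rw [Finset.prod_eq_zero (Finset.mem_univ i) h0, mul_zero] at h1
    exact zero_ne_one h1
  -- the logarithms
  have hyan : ∀ i j, AnalyticAt ℂ_[p] (fun s => Lg (x j s - α i)) 0 := by
    intro i j
    have h1 : AnalyticAt ℂ_[p] (fun s => x j s - α i) 0 := (hxan j).sub analyticAt_const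
    exact AnalyticAt.fun_comp (f := fun s => x j s - α i) (g := Lg)
      ((hLOG p Lg hLg _ (hne0 j i)).1) h1
  let yA : Fin m → Fin (m + 1) → anal ℂ_[p] := fun i j => ⟨fun s => Lg (x j s - α i), hyan i j⟩
  have hne1 : ∀ i j, ∀ᶠ s in 𝓝 (0 : ℂ_[p]), x j s - α i ≠ 0 := by
    intro i j
    have h1 : ContinuousAt (fun s => x j s - α i) 0 :=
      ((hxan j).continuousAt).sub continuousAt_const
    exact h1.eventually_ne (hne0 j i)
  have hxEne : ∀ i j, xE j - algebraMap ℂ_[p] E (α i) ≠ 0 := by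
    intro i j h0
    have h1 := hxEeq j
    rw [Finset.prod_eq_zero (Finset.mem_univ i) h0, mul_zero] at h1
    exact zero_ne_one h1
  have hDy : ∀ i j, DE (Th (yA i j)) = DE (xE j) / (xE j - algebraMap ℂ_[p] E (α i)) := by
    intro i j
    have h1 : ∀ᶠ s in 𝓝 (0 : ℂ_[p]),
        deriv (fun s => Lg (x j s - α i)) s * (x j s - α i) = deriv (x j) s := by
      filter_upwards [hne1 i j, (hxan j).eventually_analyticAt] with s hs1 hs2
      have h2 : HasDerivAt (fun s => x j s - α i) (deriv (x j) s) s :=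
        (hs2.differentiableAt.hasDerivAt).sub_const (α i)
      have h3 : HasDerivAt (fun s => Lg (x j s - α i)) ((x j s - α i)⁻¹ * deriv (x j) s) s :=
        HasDerivAt.comp s (h₂ := Lg) ((hLOG p Lg hLg _ hs1).2) h2
      rw [h3.deriv]
      field_simp
    have han1 : AnalyticAt ℂ_[p] (deriv (fun s => Lg (x j s - α i))) 0 := (hyan i j).deriv
    have han2 : AnalyticAt ℂ_[p] (deriv (x j)) 0 := (hxan j).deriv
    let dyA : anal ℂ_[p] := ⟨_, han1⟩
    let dxA : anal ℂ_[p] := ⟨_, han2⟩
    have h4 : Th (dyA * (xA j - cA (α i))) = Th dxA := hTcon _ _ h1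
    rw [map_mul, map_sub, hTcA] at h4
    have h5 : Th dyA = D0 (Th (yA i j)) := hTderiv _ (hyan i j)
    have h6 : Th dxA = D0 (Th (xA j)) := hTderiv _ (hxan j)
    rw [h5, h6] at h4
    rw [hDEapp, hDEapp, eq_div_iff (hxEne i j), mul_assoc]
    rw [← h4]
  -- the place at infinity
  obtain ⟨L, _, _, DL, tL, res, X, hDLt, hres, hXinj, hXeq, hXres⟩ := hLAU ℂ_[p] m α hα
  obtain ⟨F, DF, ψ, xF, σ, hDF, hxF, hψD, hψx⟩ := hPLC ℂ_[p] E L DE DL tE tL hDEt hDLt m α xE X
    hxEinj hXinj hxEeq hXeq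
  let e : Fin m → Fin (m + 1) := fun j => σ.symm j.castSucc
  have he : ∀ j, ψ (xF (e j)) = X j.castSucc := by
    intro j
    rw [hψx]
    simp [e]
  let r : F →ₗ[ℂ_[p]] ℂ_[p] := res ∘ₗ ψ.toLinearMap
  have hr : ∀ f, r (DF f) = 0 := by
    intro f
    change res (ψ (DF f)) = 0
    rw [hψD, hres]
  let W : Matrix (Fin m) (Fin m) F := Matrix.of fun i j =>
    DF (xF (e j)) / (xF (e j) - algebraMap ℂ_[p] F (α i))
  let Y : Matrix (Fin m) (Fin m) E := Matrix.of fun i j => Th (yA i (e j))
  have hYW : ∀ i j, DE (Y i j) = algebraMap F E (W i j) := by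
    intro i j
    change DE (Th (yA i (e j))) = ((DF (xF (e j)) / (xF (e j) - algebraMap ℂ_[p] F (α i)) : F) : E)
    rw [hDy]
    have h1 : DE (xE (e j)) = ((DF (xF (e j)) : F) : E) := by
      rw [← hDF, hxF]
    rw [h1]
    push_cast
    rw [hxF]
  have hYdet : Y.det ≠ 0 := by
    intro h0
    have h1 := hDET ℂ_[p] F E DF DE (fun f => hDF f) hDEconst r hr m Y W hYW h0
    have h2 : W.map r = -(1 : Matrix (Fin m) (Fin m) ℂ_[p]) := by
      ext i j
      rw [Matrix.map_apply, Matrix.neg_apply, Matrix.one_apply]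
      change res (ψ (DF (xF (e j)) / (xF (e j) - algebraMap ℂ_[p] F (α i)))) = _
      rw [map_div₀, hψD, map_sub, he, AlgHom.commutes, hXres]
      split_ifs with h
      · rfl
      · rw [neg_zero]
    rw [h2, Matrix.det_neg, Matrix.det_one, mul_one] at h1
    exact pow_ne_zero _ (neg_ne_zero.2 one_ne_zero) h1
  -- the determinant as a function
  let YA : Matrix (Fin m) (Fin m) (anal ℂ_[p]) := Matrix.of fun i j => yA i (e j)
  have hYA : Th YA.det = Y.det := by
    rw [RingHom.map_det]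
    rfl
  have hdval : ∀ s, (YA.det).1 s = (Matrix.of fun i j : Fin m => Lg (x (e j) s - α i)).det := by
    intro s
    have h3 := RingHom.map_det
      ((Pi.evalRingHom (fun _ : ℂ_[p] => ℂ_[p]) s).comp (anal ℂ_[p]).subtype) YA
    exact h3
  have hdne : ∀ᶠ s in 𝓝[≠] (0 : ℂ_[p]), (YA.det).1 s ≠ 0 := by
    rcases (YA.det).2.eventually_eq_zero_or_eventually_ne_zero with h | h
    · exfalso
      apply hYdet
      rw [← hYA]
      have : Th YA.det = Th 0 := hTcon _ _ h
      rw [this, map_zero]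
    · exact h
  have hxdist : ∀ i j, i ≠ j → ∀ᶠ s in 𝓝[≠] (0 : ℂ_[p]), x i s ≠ x j s := by
    intro i j hij
    have h1 : AnalyticAt ℂ_[p] (fun s => x i s - x j s) 0 := (hxan i).sub (hxan j)
    rcases h1.eventually_eq_zero_or_eventually_ne_zero with h | h
    · exfalso
      apply hxne i j hij
      filter_upwards [h] with s hs
      exact sub_eq_zero.1 hs
    · filter_upwards [h] with s hs
      exact sub_ne_zero.1 hs
  have hgood : ∀ᶠ s in 𝓝[≠] (0 : ℂ_[p]), Function.Injective (fun j : Fin m => x (e j) s) ∧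
      (∀ j : Fin m, (x (e j) s - (t₀ + s ^ M)) * ∏ i, (x (e j) s - α i) = 1) ∧
      (Matrix.of fun i j : Fin m => Lg (x (e j) s - α i)).det ≠ 0 := by
    have h1 : ∀ᶠ s in 𝓝[≠] (0 : ℂ_[p]), ∀ i j : Fin (m + 1), i ≠ j → x i s ≠ x j s := by
      rw [eventually_all]
      intro i
      rw [eventually_all]
      intro j
      by_cases hij : i = j
      · exact Eventually.of_forall fun s h => absurd hij h
      · filter_upwards [hxdist i j hij] with s hs _
        exact hs
    have h2 : ∀ᶠ s in 𝓝[≠] (0 : ℂ_[p]), ∀ j : Fin (m + 1),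
        (x j s - (t₀ + s ^ M)) * ∏ i, (x j s - α i) = 1 := by
      rw [eventually_all]
      intro j
      exact (hxeq j).filter_mono nhdsWithin_le_nhds
    filter_upwards [h1, h2, hdne] with s hs1 hs2 hs3
    refine ⟨?_, fun j => hs2 _, ?_⟩
    · intro j j' hjj
      by_contra hne
      have h3 : e j ≠ e j' := by
        intro h
        apply hne
        have := σ.symm.injective h
        exact Fin.castSucc_injective m this
      exact hs1 _ _ h3 hjj
    · rw [← hdval]
      exact hs3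
  -- back to the parameter t
  rw [eventually_nhdsWithin_iff, Metric.eventually_nhds_iff] at hgood ⊢
  obtain ⟨ε, hε, hg⟩ := hgood
  refine ⟨ε ^ M, pow_pos hε M, ?_⟩
  intro t ht htne
  obtain ⟨s, hs⟩ := IsAlgClosed.exists_pow_nat_eq (t - t₀) hM
  have hts : t₀ + s ^ M = t := by rw [hs]; ring
  have hsne : s ≠ 0 := by
    rintro rfl
    apply htne
    rw [zero_pow hM.ne'] at hs
    exact (sub_eq_zero.1 hs.symm)
  have hsd : dist s 0 < ε := by
    rw [dist_zero_right]
    by_contra hcon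
    push Not at hcon
    rw [dist_eq_norm, ← hs, norm_pow] at ht
    exact absurd ht (not_lt.2 (pow_le_pow_left₀ hε.le hcon M))
  obtain ⟨h1, h2, h3⟩ := hg hsd hsne
  refine ⟨fun j => x (e j) s, h1, ?_, h3⟩
  intro j
  have := h2 j
  rw [hts] at this
  exact this

end Pool.Agent.W254.LF
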