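import Pool.Agent.W254.LF.Glob2

/-!
# Leopoldt's conjecture in families: pointwise form
-/

set_option autoImplicit false

namespace Pool.Agent.W254.LF

open Polynomial NumberField Filter Topology Pool.Agent.W289.SL IntermediateField

/-- The parameter `t` is good: some `m` roots of `(X - t) P_1 ⋯ P_r - 1` in `ℂ_p` have a
nonvanishing determinant of logarithms. -/
def Good {p : ℕ} [Fact p.Prime] (L : ℂ_[p] → ℂ_[p]) {k : Type} [Field k] (τ : k →+* ℂ_[p])
    {r : ℕ} (P : Fin r → (𝓞 k)[X]) (t : 𝓞 k) : Prop :=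
  ∃ (m : ℕ) (α : Fin m → ℂ_[p]) (b : Fin m → Fin r) (x : Fin m → ℂ_[p]),
    m = ∑ i, (P i).natDegree ∧ Function.Injective α ∧ Function.Injective x ∧
    (∀ i (y : ℂ_[p]), ((P i).map (τ.comp (algebraMap (𝓞 k) k))).eval y =
      ∏ l ∈ Finset.univ.filter (fun l => b l = i), (y - α l)) ∧
    (∀ j, (x j - τ t) * ∏ l, (x j - α l) = 1) ∧
    (Matrix.of fun i j : Fin m => L (x j - α i)).det ≠ 0

theorem good_finite (hLOC : S_LOC) (hCPT : S_CPT)
    (p : ℕ) [Fact p.Prime] (L : ℂ_[p] → ℂ_[p]) (hL : IsIwasawaLog p L)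
    (k : Type) [Field k] [NumberField k] (τ : k →+* ℂ_[p]) (r : ℕ) (P : Fin r → (𝓞 k)[X])
    (hmon : ∀ i, (P i).Monic)
    (hsep : ((∏ i, P i).map (algebraMap (𝓞 k) k)).Separable) :
    {t : 𝓞 k | ¬ Good L τ P t}.Finite := by
  classical
  set φ : 𝓞 k →+* ℂ_[p] := τ.comp (algebraMap (𝓞 k) k) with hφ
  by_contra hinf
  obtain ⟨t₀, ht₀⟩ := hCPT p k τ _ hinf
  -- the roots
  set S : Fin r → Finset ℂ_[p] := fun i => ((P i).map φ).roots.toFinset with hS
  have hPm : (∏ i, P i).Monic := monic_prod_of_monic _ _ fun i _ => hmon i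
  have hsepφ : ((∏ i, P i).map φ).Separable := by
    have h1 : ((∏ i, P i).map φ) = ((∏ i, P i).map (algebraMap (𝓞 k) k)).map τ := by
      rw [Polynomial.map_map]
    rw [h1]
    exact hsep.map
  have hrootsn : ∀ i, ((P i).map φ).roots.Nodup := by
    intro i
    apply nodup_roots
    rw [Polynomial.map_prod] at hsepφ
    exact Separable.of_dvd hsepφ (Finset.dvd_prod_of_mem _ (Finset.mem_univ i))
  have hcardS : ∀ i, (S i).card = (P i).natDegree := by
    intro i
    rw [hS]
    simp only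
    rw [Multiset.toFinset_card_of_nodup (hrootsn i),
      ← (IsAlgClosed.splits ((P i).map φ)).natDegree_eq_card_roots, (hmon i).natDegree_map]
  have hdisj : ∀ i j, i ≠ j → ∀ z, z ∈ S i → z ∉ S j := by
    intro i j hij z hz hz'
    have h2 : (P i * P j) ∣ ∏ i, P i := by
      have h3 := Finset.prod_dvd_prod_of_subset {i, j} Finset.univ P (Finset.subset_univ _)
      rwa [Finset.prod_pair hij] at h3
    have h4 : (X - C z) * (X - C z) ∣ (∏ i, P i).map φ := by
      refine dvd_trans ?_ (Polynomial.map_dvd φ h2)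
      rw [Polynomial.map_mul]
      apply mul_dvd_mul
      · rw [dvd_iff_isRoot]
        rw [hS, Multiset.mem_toFinset] at hz
        exact (mem_roots'.1 hz).2
      · rw [dvd_iff_isRoot]
        rw [hS, Multiset.mem_toFinset] at hz'
        exact (mem_roots'.1 hz').2
    have h5 := hsepφ.squarefree _ h4
    exact (not_isUnit_X_sub_C z) h5
  set ι : Type := Σ i : Fin r, {z // z ∈ S i} with hι
  have hcard : Fintype.card ι = ∑ i, (P i).natDegree := by
    change Fintype.card (Σ i : Fin r, {z // z ∈ S i}) = _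
    rw [Fintype.card_sigma]
    refine Finset.sum_congr rfl fun i _ => ?_
    rw [Fintype.card_coe, hcardS]
  set m : ℕ := ∑ i, (P i).natDegree with hm
  obtain e : Fin m ≃ ι := (Fintype.equivFinOfCardEq hcard).symm
  set α : Fin m → ℂ_[p] := fun l => (e l).2.1 with hα
  have hαinj : Function.Injective α := by
    intro l l' h
    apply e.injective
    have h1 : (e l).1 = (e l').1 := by
      by_contra hne
      have h2 := hdisj _ _ hne _ (e l).2.2
      apply h2
      have h3 : (e l).2.1 = (e l').2.1 := h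
      rw [h3]
      exact (e l').2.2
    have h3 : (e l).2.1 = (e l').2.1 := h
    rcases hl : e l with ⟨i, z, hz⟩
    rcases hl' : e l' with ⟨i', z', hz'⟩
    rw [hl, hl'] at h1 h3
    simp only at h1 h3
    subst h1
    subst h3
    rfl
  have hPe : ∀ i (y : ℂ_[p]), ((P i).map φ).eval y = ∏ z ∈ S i, (y - z) := by
    intro i y
    rw [(IsAlgClosed.splits ((P i).map φ)).eval_eq_prod_roots_of_monic ((hmon i).map φ)]
    rw [hS]
    simp only
    rw [Finset.prod_multiset_map_count]
    refine Finset.prod_congr rfl fun z hz => ?_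
    rw [Multiset.count_eq_one_of_mem (hrootsn i) (Multiset.mem_toFinset.1 hz), pow_one]
  have hblock : ∀ i (y : ℂ_[p]), ((P i).map φ).eval y =
      ∏ l ∈ Finset.univ.filter (fun l => (e l).1 = i), (y - α l) := by
    intro i y
    have himg : (Finset.univ.filter (fun l => (e l).1 = i)).image α = S i := by
      ext z
      rw [Finset.mem_image]
      constructor
      · rintro ⟨l, hl, rfl⟩
        have h1 : (e l).1 = i := (Finset.mem_filter.1 hl).2
        rw [← h1]
        exact (e l).2.2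
      · intro hz
        have h1 : e (e.symm ⟨i, ⟨z, hz⟩⟩) = ⟨i, ⟨z, hz⟩⟩ := e.apply_symm_apply _
        refine ⟨e.symm ⟨i, ⟨z, hz⟩⟩, ?_, ?_⟩
        · rw [Finset.mem_filter]
          refine ⟨Finset.mem_univ _, ?_⟩
          rw [h1]
        · rw [hα]
          simp only
          rw [h1]
    rw [hPe, ← himg, Finset.prod_image (fun l _ l' _ h => hαinj h)]
  -- the local theorem
  obtain ⟨t', ⟨t, htbad, rfl⟩, x, hxinj, hxeq, hdet⟩ :=
    (ht₀.and_eventually (hLOC p L hL m α hαinj t₀)).exists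
  exact htbad ⟨m, α, fun l => (e l).1, x, rfl, hαinj, hxinj, hblock, hxeq, hdet⟩

theorem good_point {p : ℕ} [Fact p.Prime] {L : ℂ_[p] → ℂ_[p]} (hL : IsIwasawaLog p L)
    {k : Type} [Field k] [NumberField k] (τ : k →+* ℂ_[p]) {r : ℕ} (P : Fin r → (𝓞 k)[X])
    (hmon : ∀ i, (P i).Monic) (hpos : ∀ i, 0 < (P i).natDegree) (t : 𝓞 k) (hg : Good L τ P t)
    (K : Type) [Field K] [NumberField K] [Algebra k K] (θ : K)
    (hθ : aeval θ ((famP P t).map (algebraMap (𝓞 k) k)) = 0) (hadj : k⟮θ⟯ = ⊤)
    (hdeg : Module.finrank k K = ∑ i, (P i).natDegree + 1) :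
    ∃ u : Fin r → (𝓞 K)ˣ, ∀ c : Fin r → ℂ_[p],
      (∀ σ : K →+* ℂ_[p], ∑ i, c i * L (σ ((u i : 𝓞 K) : K)) = 0) → c = 0 := by
  classical
  obtain ⟨m, α, b, x, hm, hαinj, hxinj, hblock, hxeq, hdet⟩ := hg
  set φ : 𝓞 k →+* ℂ_[p] := τ.comp (algebraMap (𝓞 k) k) with hφ
  have hPm : (∏ i, P i).Monic := monic_prod_of_monic _ _ fun i _ => hmon i
  have hFmon : (famP P t).Monic ∧ (famP P t).natDegree = m + 1 := by
    have h1 : ((X - C t) * ∏ i, P i).Monic := (monic_X_sub_C t).mul hPm
    have h2 : ((X - C t) * ∏ i, P i).natDegree = m + 1 := by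
      rw [(monic_X_sub_C t).natDegree_mul hPm, natDegree_X_sub_C,
        natDegree_prod_of_monic _ _ fun i _ => hmon i]
      omega
    have h3 : ((1 : (𝓞 k)[X])).degree < ((X - C t) * ∏ i, P i).degree := by
      rw [degree_one, degree_eq_natDegree h1.ne_zero, h2]
      exact_mod_cast Nat.succ_pos m
    refine ⟨h1.sub_of_left h3, ?_⟩
    rw [famP, natDegree_sub_eq_left_of_natDegree_lt]
    · exact h2
    · rw [natDegree_one, h2]
      exact Nat.succ_pos m
  have hprod : ∀ y : ℂ_[p], ∏ l, (y - α l) = ∏ i, ((P i).map φ).eval y := by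
    intro y
    rw [← Finset.prod_fiberwise (s := Finset.univ) (g := b)]
    refine Finset.prod_congr rfl fun i _ => ?_
    rw [hblock]
  have hxP : ∀ j, (x j - φ t) * ∏ i, ((P i).map φ).eval (x j) = 1 := by
    intro j
    rw [← hprod]
    exact hxeq j
  have hxroot : ∀ j, (((famP P t).map (algebraMap (𝓞 k) k)).map τ).eval (x j) = 0 := by
    intro j
    rw [Polynomial.map_map]
    change ((famP P t).map φ).eval (x j) = 0
    rw [famP, Polynomial.map_sub, Polynomial.map_mul, Polynomial.map_sub, map_X, map_C,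
      Polynomial.map_prod, Polynomial.map_one, eval_sub, eval_mul, eval_sub, eval_X, eval_C,
      eval_prod, eval_one, hxP, sub_self]
  have hemb : ∀ j, ∃ σ : K →+* ℂ_[p], σ.comp (algebraMap k K) = τ ∧ σ θ = x j := fun j =>
    exists_emb τ θ _ (hFmon.1.map _) hθ hadj
      (by rw [hFmon.1.natDegree_map, hFmon.2, hdeg, hm]) (x j) (hxroot j)
  choose σ hστ hσθ using hemb
  -- the units
  have hθint : IsIntegral ℤ θ := by
    have h1 : IsIntegral (𝓞 k) θ := by
      refine ⟨famP P t, hFmon.1, ?_⟩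
      rw [aeval_def, eval₂_map] at hθ
      rw [IsScalarTower.algebraMap_eq (𝓞 k) k K]
      exact hθ
    exact isIntegral_trans θ h1
  set θ' : 𝓞 K := ⟨θ, hθint⟩ with hθ'
  have hθ'c : algebraMap (𝓞 K) K θ' = θ := rfl
  set ψ : 𝓞 k →+* 𝓞 K := algebraMap (𝓞 k) (𝓞 K) with hψ
  have hψc : (algebraMap (𝓞 K) K).comp ψ = (algebraMap k K).comp (algebraMap (𝓞 k) k) := rfl
  have hval : ∀ Q : (𝓞 k)[X], algebraMap (𝓞 K) K ((Q.map ψ).eval θ') =
      ((Q.map (algebraMap (𝓞 k) k)).map (algebraMap k K)).eval θ := by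
    intro Q
    rw [Polynomial.map_map, ← hψc, eval_map, eval_map, hom_eval₂, hθ'c]
  have hunitprod : (θ' - ψ t) * ∏ i, ((P i).map ψ).eval θ' = 1 := by
    have h1 : ((famP P t).map ψ).eval θ' = 0 := by
      apply FaithfulSMul.algebraMap_injective (𝓞 K) K
      rw [hval, map_zero, eval_map]
      exact hθ
    rw [famP, Polynomial.map_sub, Polynomial.map_mul, Polynomial.map_sub, map_X, map_C,
      Polynomial.map_prod, Polynomial.map_one, eval_sub, eval_mul, eval_sub, eval_X, eval_C,
      eval_prod, eval_one, sub_eq_zero] at h1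
    exact h1
  have hu : ∀ i, IsUnit (((P i).map ψ).eval θ') := by
    intro i
    have h1 : IsUnit ((θ' - ψ t) * ∏ i, ((P i).map ψ).eval θ') := by
      rw [hunitprod]
      exact isUnit_one
    have h2 := isUnit_of_mul_isUnit_right h1
    exact isUnit_of_dvd_unit (Finset.dvd_prod_of_mem (fun i => ((P i).map ψ).eval θ')
      (Finset.mem_univ i)) h2
  choose u hu' using hu
  refine ⟨u, ?_⟩
  intro c hc
  have hxne : ∀ j l, x j - α l ≠ 0 := by
    intro j l h0
    have h1 := hxeq j
    rw [Finset.prod_eq_zero (Finset.mem_univ l) h0, mul_zero] at h1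
    exact zero_ne_one h1
  have hlogprod : ∀ j (A : Finset (Fin m)),
      L (∏ l ∈ A, (x j - α l)) = ∑ l ∈ A, L (x j - α l) := by
    intro j A
    induction A using Finset.induction_on with
    | empty => simp [hL.one]
    | insert z A hz ih =>
      rw [Finset.prod_insert hz, Finset.sum_insert hz, hL.mul, ih]
      · exact hxne j z
      · rw [Finset.prod_ne_zero_iff]
        intro w _
        exact hxne j w
  have hlogu : ∀ j i, L (σ j (((u i : (𝓞 K)ˣ) : 𝓞 K) : K)) =
      ∑ l ∈ Finset.univ.filter (fun l => b l = i), L (x j - α l) := by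
    intro j i
    rw [← hlogprod, ← hblock, hu']
    congr 1
    have h1 := congrArg (σ j) (hval (P i))
    have h2 : σ j (((P i).map ((algebraMap k K).comp (algebraMap (𝓞 k) k))).eval θ) =
        ((P i).map φ).eval (x j) := by
      rw [eval_map, hom_eval₂, hσθ, eval_map, ← RingHom.comp_assoc, hστ]
    rw [Polynomial.map_map, h2] at h1
    exact h1
  have hvec : Matrix.vecMul (fun l => c (b l))
      (Matrix.of fun i j : Fin m => L (x j - α i)) = 0 := by
    funext j
    rw [Matrix.vecMul, dotProduct]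
    simp only [Matrix.of_apply, Pi.zero_apply]
    have h2 := hc (σ j)
    rw [← h2, ← Finset.sum_fiberwise (s := Finset.univ) (g := b)]
    refine Finset.sum_congr rfl fun i _ => ?_
    rw [hlogu, Finset.mul_sum]
    refine Finset.sum_congr rfl fun l hl => ?_
    rw [(Finset.mem_filter.1 hl).2]
  have hzero := Matrix.eq_zero_of_vecMul_eq_zero hdet hvec
  funext i
  have h1 : ∃ l, b l = i := by
    by_contra hcon
    push Not at hcon
    have h2 : ∀ y : ℂ_[p], ((P i).map φ).eval y = 1 := by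
      intro y
      rw [hblock, Finset.filter_eq_empty_iff.2 (fun l _ => hcon l), Finset.prod_empty]
    obtain ⟨y, hy⟩ := IsAlgClosed.exists_root ((P i).map φ) (by
      rw [degree_eq_natDegree ((hmon i).map φ).ne_zero, (hmon i).natDegree_map]
      exact_mod_cast (hpos i).ne')
    rw [IsRoot.def, h2 y] at hy
    exact one_ne_zero hy
  obtain ⟨l, hl⟩ := h1
  have h2 := congrFun hzero l
  rw [hl] at h2
  exact h2

end Pool.Agent.W254.LF
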