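import Pool.Agent.W254.LF.Stm3
import Pool.Agent.W254.LF.Stm4
import Pool.Agent.W289.SL.PLog
import Pool.Agent.W515.LF.Edet

/-!
# Leopoldt's conjecture in families: ramified residue classes, preparations
-/

set_option autoImplicit false

namespace Pool.Agent.W254.LF

open Polynomial Filter Topology Pool.Agent.W289.SL

lemma norm_p_lt_one' (p : ℕ) [hp : Fact p.Prime] : ‖(p : ℂ_[p])‖ < 1 := by
  rw [norm_p]
  exact inv_lt_one_of_one_lt₀ (by exact_mod_cast hp.out.one_lt)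

lemma norm_nat_eq_one {p : ℕ} [hp : Fact p.Prime] (n : ℕ) (h1 : 1 ≤ n) (h2 : n < p) :
    ‖(n : ℂ_[p])‖ = 1 := by
  have h := norm_algebraMap' ℂ_[p] ((n : ℕ) : ℚ_[p])
  rw [map_natCast] at h
  rw [h]
  have h3 := Padic.norm_int_le_one (p := p) (n : ℤ)
  rw [Int.cast_natCast] at h3
  rcases h3.lt_or_eq with h4 | h4
  · have h5 := Padic.norm_natCast_lt_one_iff.1 h4
    exact absurd (Nat.le_of_dvd h1 h5) (not_le.2 h2)
  · exact h4

/-- The Fourier transform of a power series at the roots of unity. -/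
lemma fourier {p : ℕ} [Fact p.Prime] (e : ℕ) (he : 1 ≤ e) (ζ : ℂ_[p]) (hζ : IsPrimitiveRoot ζ e)
    (k : ℕ) (hk1 : 1 ≤ k) (a : ℕ → ℂ_[p]) (ha : Summable fun n => ‖a n‖) :
    ∑ l : Fin e, (ζ⁻¹) ^ ((l : ℕ) * k) * ∑' n, a n * (ζ ^ (l : ℕ)) ^ (n + 1) =
      ((e : ℂ_[p]) * ∑' n : ℕ, if (e : ℤ) ∣ ((n : ℤ) + 1 - k) then a n else 0) := by
  have hζ0 : ζ ≠ 0 := hζ.ne_zero (by omega)
  have hζn : ‖ζ‖ = 1 := by
    have h1 : ‖ζ‖ ^ e = 1 := by rw [← norm_pow, hζ.pow_eq_one, norm_one]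
    exact (pow_eq_one_iff_of_nonneg (norm_nonneg _) (by omega)).1 h1
  have hsum : ∀ l : Fin e, Summable fun n => (ζ⁻¹) ^ ((l : ℕ) * k) * (a n * (ζ ^ (l : ℕ)) ^ (n + 1)) := by
    intro l
    apply Summable.of_norm
    refine ha.congr fun n => ?_
    rw [norm_mul, norm_mul, norm_pow, norm_pow, norm_pow, norm_inv, hζn]
    simp
  have h1 : ∀ l : Fin e, (ζ⁻¹) ^ ((l : ℕ) * k) * ∑' n, a n * (ζ ^ (l : ℕ)) ^ (n + 1) =
      ∑' n, (ζ⁻¹) ^ ((l : ℕ) * k) * (a n * (ζ ^ (l : ℕ)) ^ (n + 1)) := by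
    intro l
    rw [tsum_mul_left]
  simp only [h1]
  rw [← Summable.tsum_finsetSum (fun l _ => hsum l), ← tsum_mul_left]
  congr 1
  funext n
  have h2 : ∀ l : Fin e, (ζ⁻¹) ^ ((l : ℕ) * k) * (a n * (ζ ^ (l : ℕ)) ^ (n + 1)) =
      a n * (ζ ^ ((n : ℤ) + 1 - k)) ^ (l : ℕ) := by
    intro l
    have h3 : (ζ ^ ((n : ℤ) + 1 - k)) ^ (l : ℕ) = (ζ ^ (l : ℕ)) ^ (n + 1) * (ζ⁻¹) ^ ((l : ℕ) * k) := by
      rw [← zpow_natCast, ← zpow_mul, ← zpow_natCast ζ⁻¹, inv_zpow', ← pow_mul,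
        ← zpow_natCast ζ, ← zpow_add₀ hζ0]
      congr 1
      push_cast
      ring
    rw [h3]
    ring
  simp only [h2]
  rw [← Finset.mul_sum]
  split_ifs with hd
  · have h4 : ζ ^ ((n : ℤ) + 1 - k) = 1 := (hζ.zpow_eq_one_iff_dvd _).2 hd
    rw [h4]
    simp [mul_comm]
  · have h4 : ζ ^ ((n : ℤ) + 1 - k) ≠ 1 := fun h => hd ((hζ.zpow_eq_one_iff_dvd _).1 h)
    have h5 : ∑ l : Fin e, (ζ ^ ((n : ℤ) + 1 - k)) ^ (l : ℕ) = 0 := by
      rw [Fin.sum_univ_eq_sum_range (fun l => (ζ ^ ((n : ℤ) + 1 - k)) ^ l) e]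
      rw [geom_sum_eq h4]
      have : (ζ ^ ((n : ℤ) + 1 - k)) ^ e = 1 := by
        rw [← zpow_natCast, ← zpow_mul, mul_comm, zpow_mul, zpow_natCast, hζ.pow_eq_one, one_zpow]
      rw [this, sub_self, zero_div]
    rw [h5]
    ring

/-- Reindexing of the Fourier sum. -/
lemma fourier_tsum {p : ℕ} [Fact p.Prime] (e : ℕ) (he : 1 ≤ e) (k : ℕ) (hk1 : 1 ≤ k)
    (hke : k ≤ e) (a : ℕ → ℂ_[p]) :
    (∑' n : ℕ, if (e : ℤ) ∣ ((n : ℤ) + 1 - k) then a n else 0) = ∑' j : ℕ, a (k - 1 + e * j) := by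
  have hinj : Function.Injective fun j : ℕ => k - 1 + e * j := by
    intro i j h
    have h1 : k - 1 + e * i = k - 1 + e * j := h
    have h2 : e * i = e * j := by omega
    exact Nat.eq_of_mul_eq_mul_left (by omega) h2
  rw [← hinj.tsum_eq]
  · congr 1
    funext j
    rw [if_pos]
    refine ⟨j, ?_⟩
    push_cast [Nat.cast_sub hk1]
    ring
  · intro n hn
    rw [Function.mem_support] at hn
    have hd : (e : ℤ) ∣ ((n : ℤ) + 1 - k) := by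
      by_contra h
      exact hn (if_neg h)
    obtain ⟨j, hj⟩ := hd
    have hj0 : 0 ≤ j := by
      by_contra hneg
      push Not at hneg
      have h1 : (e : ℤ) * j ≤ (e : ℤ) * (-1) := by
        apply mul_le_mul_of_nonneg_left (by omega) (by positivity)
      have h2 : (k : ℤ) ≤ e := by exact_mod_cast hke
      omega
    obtain ⟨i, rfl⟩ := Int.eq_ofNat_of_zero_le hj0
    refine ⟨i, ?_⟩
    have h3 : ((k - 1 + e * i : ℕ) : ℤ) = (n : ℤ) := by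
      push_cast [Nat.cast_sub hk1]
      linarith
    exact_mod_cast h3

/-- The coefficients of the logarithm. -/
noncomputable def lam {p : ℕ} [Fact p.Prime] (T : ℕ → ℕ → ℂ_[p]) (u : ℂ_[p]) (k : ℕ) : ℂ_[p] :=
  ∑ n ∈ Finset.Icc 1 k, T k n * u⁻¹ ^ n

lemma lam_norm_le {p : ℕ} [Fact p.Prime] (T : ℕ → ℕ → ℂ_[p])
    (hT : ∀ k n, 1 ≤ n → ‖T k n‖ ≤ ‖(n : ℂ_[p])‖⁻¹) (u : ℂ_[p]) (hu : ‖u‖ = 1) (k : ℕ) :
    ‖lam T u k‖ ≤ k := by
  refine IsUltrametricDist.norm_sum_le_of_forall_le_of_nonneg (by positivity) fun n hn => ?_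
  obtain ⟨h1, h2⟩ := Finset.mem_Icc.1 hn
  rw [norm_mul, norm_pow, norm_inv, hu, inv_one, one_pow, mul_one]
  have h3 := one_le_norm_natCast (p := p) n (by omega)
  have h4 : 0 < ‖(n : ℂ_[p])‖ := by
    rw [norm_pos_iff]
    exact_mod_cast (by omega : n ≠ 0)
  calc ‖T k n‖ ≤ ‖(n : ℂ_[p])‖⁻¹ := hT k n h1
    _ ≤ n := by
        rw [inv_le_iff_one_le_mul₀ h4]
        linarith
    _ ≤ k := by exact_mod_cast h2

lemma lam_norm_le_one {p : ℕ} [Fact p.Prime] (T : ℕ → ℕ → ℂ_[p])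
    (hT : ∀ k n, 1 ≤ n → ‖T k n‖ ≤ ‖(n : ℂ_[p])‖⁻¹) (u : ℂ_[p]) (hu : ‖u‖ = 1) (k : ℕ)
    (hk : k < p) : ‖lam T u k‖ ≤ 1 := by
  refine IsUltrametricDist.norm_sum_le_of_forall_le_of_nonneg zero_le_one fun n hn => ?_
  obtain ⟨h1, h2⟩ := Finset.mem_Icc.1 hn
  rw [norm_mul, norm_pow, norm_inv, hu, inv_one, one_pow, mul_one]
  have h3 := hT k n h1
  rwa [norm_nat_eq_one n h1 (by omega), inv_one] at h3

lemma lam_mul_lt {p : ℕ} [hp : Fact p.Prime] (T : ℕ → ℕ → ℂ_[p])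
    (hT : ∀ k n, 1 ≤ n → ‖T k n‖ ≤ ‖(n : ℂ_[p])‖⁻¹) (u : ℂ_[p]) (hu : ‖u‖ = 1) (k j : ℕ)
    (hk : k < p ^ j) : ‖lam T u k * (p : ℂ_[p]) ^ j‖ < 1 := by
  rw [lam, Finset.sum_mul]
  apply Pool.Agent.W515.LF.norm_sum_lt
  intro n hn
  obtain ⟨h1, h2⟩ := Finset.mem_Icc.1 hn
  rw [norm_mul, norm_mul, norm_pow, norm_inv, hu, inv_one, one_pow, mul_one, norm_pow, norm_p]
  have h3 := one_le_norm_natCast (p := p) n (by omega)
  have h4 : 0 < ‖(n : ℂ_[p])‖ := by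
    rw [norm_pos_iff]
    exact_mod_cast (by omega : n ≠ 0)
  have hp0 : (0 : ℝ) < p := by exact_mod_cast hp.out.pos
  have h5 : (n : ℝ) < (p : ℝ) ^ j := by exact_mod_cast (lt_of_le_of_lt h2 hk)
  calc ‖T k n‖ * ((p : ℝ)⁻¹) ^ j ≤ (n : ℝ) * ((p : ℝ)⁻¹) ^ j := by
        apply mul_le_mul_of_nonneg_right _ (by positivity)
        refine (hT k n h1).trans ?_
        rw [inv_le_iff_one_le_mul₀ h4]
        linarith
    _ < (p : ℝ) ^ j * ((p : ℝ)⁻¹) ^ j := by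
        apply mul_lt_mul_of_pos_right h5 (by positivity)
    _ = 1 := by
        rw [← mul_pow, mul_inv_cancel₀ hp0.ne', one_pow]

lemma exp_bound (p e k j m : ℕ) (hj : 1 ≤ j) (hk : k ≤ e) (he : e ≤ m + 1)
    (hp : 2 * (m + 1) < p) : k + e * j < p ^ j := by
  have h1 : k + e * j ≤ (m + 1) * (j + 1) := by nlinarith
  have h2 : ∀ j : ℕ, 1 ≤ j → p * (j + 1) ≤ 2 * p ^ j := by
    intro j hj
    induction j, hj using Nat.le_induction with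
    | base => simp; linarith
    | succ j hj ih =>
      have h3 : p * (j + 1 + 1) ≤ 2 * (p * (j + 1)) := by nlinarith
      have h4 : 2 ≤ p := by omega
      calc p * (j + 1 + 1) ≤ 2 * (p * (j + 1)) := h3
        _ ≤ p * (2 * p ^ j) := Nat.mul_le_mul h4 ih
        _ = 2 * p ^ (j + 1) := by ring
  have h5 := h2 j hj
  have h6 : 2 * ((m + 1) * (j + 1)) < p * (j + 1) := by nlinarith
  omega

end Pool.Agent.W254.LF
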