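import Pool.Agent.W254.LF.Ram1

/-!
# Leopoldt's conjecture in families: the leading matrix
-/

set_option autoImplicit false

namespace Pool.Agent.W254.LF

open Polynomial Filter Topology Pool.Agent.W289.SL

theorem leading_det (hCCAU : S_CCAU) {p : ℕ} [hp : Fact p.Prime] (m q : ℕ) (x : Fin q → ℂ_[p])
    (α : Fin m → ℂ_[p]) (e : Fin q → ℕ) (φ : Fin m ≃o Σₗ c : Fin q, Fin (e c))
    (hα : ∀ i, ‖α i‖ ≤ 1) (hxa : ∀ c i, ‖x c - α i‖ = 1) (hxx : ∀ c c', c ≠ c' → ‖x c - x c'‖ = 1)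
    (hαα : ∀ i j, i ≠ j → ‖α i - α j‖ = 1) (he : ∀ c, e c < p)
    (T : Fin q → ℕ → ℕ → ℂ_[p])
    (hTd : ∀ c k, 1 ≤ k → k < p → ‖T c k k‖ = 1) :
    ‖(Matrix.of fun i j : Fin m => lam (T (ofLex (φ j)).1) (x (ofLex (φ j)).1 - α i)
      (((ofLex (φ j)).2 : ℕ) + 1)).det‖ = 1 := by
  classical
  set ψ : Fin m ≃ Σ c : Fin q, Fin (e c) := φ.toEquiv.trans ofLex with hψ
  change ‖(Matrix.of fun i j : Fin m => lam (T (ψ j).1) (x (ψ j).1 - α i)
      (((ψ j).2 : ℕ) + 1)).det‖ = 1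
  set V : Matrix (Fin m) (Fin m) ℂ_[p] :=
    Matrix.of fun i j : Fin m => ((x (ψ j).1 - α i)⁻¹) ^ (((ψ j).2 : ℕ) + 1) with hV
  set U : Matrix (Fin m) (Fin m) ℂ_[p] :=
    Matrix.of fun a b : Fin m => if (ψ a).1 = (ψ b).1 ∧ ((ψ a).2 : ℕ) ≤ ((ψ b).2 : ℕ) then
      T (ψ b).1 (((ψ b).2 : ℕ) + 1) (((ψ a).2 : ℕ) + 1) else 0 with hU
  have hVU : (Matrix.of fun i j : Fin m => lam (T (ψ j).1) (x (ψ j).1 - α i)
      (((ψ j).2 : ℕ) + 1)) = V * U := by
    ext i b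
    rw [Matrix.mul_apply, Matrix.of_apply, lam]
    have h1 : ∀ a, V i a * U a b = (fun s : Σ c : Fin q, Fin (e c) =>
        ((x s.1 - α i)⁻¹) ^ ((s.2 : ℕ) + 1) * (if s.1 = (ψ b).1 ∧ (s.2 : ℕ) ≤ ((ψ b).2 : ℕ) then
          T (ψ b).1 (((ψ b).2 : ℕ) + 1) ((s.2 : ℕ) + 1) else 0)) (ψ a) := fun a => rfl
    simp only [h1]
    rw [Equiv.sum_comp ψ (fun s : Σ c : Fin q, Fin (e c) =>
        ((x s.1 - α i)⁻¹) ^ ((s.2 : ℕ) + 1) * (if s.1 = (ψ b).1 ∧ (s.2 : ℕ) ≤ ((ψ b).2 : ℕ) then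
          T (ψ b).1 (((ψ b).2 : ℕ) + 1) ((s.2 : ℕ) + 1) else 0))]
    rw [Fintype.sum_sigma, Finset.sum_eq_single (ψ b).1]
    · simp only [true_and]
      rw [Fin.sum_univ_eq_sum_range (fun l => ((x (ψ b).1 - α i)⁻¹) ^ (l + 1) *
        (if l ≤ ((ψ b).2 : ℕ) then T (ψ b).1 (((ψ b).2 : ℕ) + 1) (l + 1) else 0)) (e (ψ b).1)]
      have hlt : ((ψ b).2 : ℕ) < e (ψ b).1 := (ψ b).2.2
      symm
      have h2 : Finset.Icc 1 (((ψ b).2 : ℕ) + 1) =
          (Finset.range (((ψ b).2 : ℕ) + 1)).image (fun l => l + 1) := by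
        ext n
        simp only [Finset.mem_Icc, Finset.mem_image, Finset.mem_range]
        constructor
        · rintro ⟨h3, h4⟩
          exact ⟨n - 1, by omega, by omega⟩
        · rintro ⟨l, h3, rfl⟩
          omega
      rw [h2, Finset.sum_image (fun _ _ _ _ h => by simpa using h)]
      rw [← Finset.sum_subset (Finset.range_subset_range.2 (by omega :
        ((ψ b).2 : ℕ) + 1 ≤ e (ψ b).1))]
      · apply Finset.sum_congr rfl
        intro l hl
        rw [Finset.mem_range] at hl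
        rw [if_pos (by omega), mul_comm]
      · intro l _ hl
        rw [Finset.mem_range, not_lt] at hl
        rw [if_neg (by omega), mul_zero]
    · intro c _ hc
      apply Finset.sum_eq_zero
      intro l _
      rw [if_neg (fun h => hc h.1), mul_zero]
    · intro h
      exact absurd (Finset.mem_univ _) h
  have hUdet : ‖U.det‖ = 1 := by
    rw [Matrix.det_of_isUpperTriangular (M := U)]
    · rw [norm_prod]
      apply Finset.prod_eq_one
      intro j _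
      rw [hU, Matrix.of_apply, if_pos ⟨rfl, le_refl _⟩]
      exact hTd _ _ (by omega) (lt_of_le_of_lt (Nat.succ_le_of_lt (ψ j).2.2) (he _))
    · intro a b hab
      rw [hU, Matrix.of_apply, if_neg]
      rintro ⟨h1, h2⟩
      have h3 : φ b < φ a := φ.lt_iff_lt.2 hab
      have h4 : φ a ≤ φ b := by
        rw [Sigma.Lex.le_def]
        right
        refine ⟨h1, ?_⟩
        have h5 : ∀ (c c' : Fin q) (h : c = c') (l : Fin (e c)) (l' : Fin (e c')),
            (l : ℕ) ≤ (l' : ℕ) → (h ▸ l : Fin (e c')) ≤ l' := by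
          intro c c' h l l' hl
          subst h
          exact hl
        exact h5 _ _ h1 _ _ h2
      exact absurd h3 (not_lt.2 h4)
  rw [hVU, Matrix.det_mul, norm_mul, hUdet, mul_one]
  exact hCCAU p m q x α e ψ hα hxa hxx hαα

end Pool.Agent.W254.LF
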