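import Pool.Agent.W254.LF.Ram2
import Pool.Agent.W254.LF.Irr
import Pool.Agent.W335.LF.STR

/-!
# Leopoldt's conjecture in families: the bound in a residue class, ramified or not
-/

set_option autoImplicit false

namespace Pool.Agent.W254.LF

open Polynomial Filter Topology Pool.Agent.W289.SL

/-- The number `t` is good. -/
def GoodC {p : ℕ} [Fact p.Prime] (L : ℂ_[p] → ℂ_[p]) {m : ℕ} (α : Fin m → ℂ_[p])
    (t : ℂ_[p]) : Prop :=
  ∃ x : Fin m → ℂ_[p], Function.Injective x ∧ (∀ j, (x j - t) * ∏ i, (x j - α i) = 1) ∧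
    (Matrix.of fun i j : Fin m => L (x j - α i)).det ≠ 0

/-- Polynomials with coefficients in the unit ball. -/
def IntP {p : ℕ} [Fact p.Prime] (f : ℂ_[p][X]) : Prop := ∀ k, ‖f.coeff k‖ ≤ 1

lemma IntP.mul {p : ℕ} [Fact p.Prime] {f g : ℂ_[p][X]} (hf : IntP f) (hg : IntP g) :
    IntP (f * g) := by
  intro k
  rw [coeff_mul]
  refine IsUltrametricDist.norm_sum_le_of_forall_le_of_nonneg zero_le_one fun x _ => ?_
  rw [norm_mul]
  exact mul_le_one₀ (hf _) (norm_nonneg _) (hg _)

lemma IntP.one {p : ℕ} [Fact p.Prime] : IntP (1 : ℂ_[p][X]) := by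
  intro k
  rw [coeff_one]
  split_ifs <;> simp

lemma IntP.pow {p : ℕ} [Fact p.Prime] {f : ℂ_[p][X]} (hf : IntP f) (n : ℕ) :
    IntP (f ^ n) := by
  induction n with
  | zero => rw [pow_zero]; exact IntP.one
  | succ n ih => rw [pow_succ]; exact ih.mul hf

lemma IntP.prod {p : ℕ} [Fact p.Prime] {ι : Type} (s : Finset ι) (f : ι → ℂ_[p][X])
    (hf : ∀ i ∈ s, IntP (f i)) : IntP (∏ i ∈ s, f i) := by
  classical
  induction s using Finset.induction_on with
  | empty => rw [Finset.prod_empty]; exact IntP.one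
  | insert a s ha ih =>
    rw [Finset.prod_insert ha]
    exact (hf a (Finset.mem_insert_self _ _)).mul
      (ih fun i hi => hf i (Finset.mem_insert_of_mem hi))

lemma IntP.X_add_C {p : ℕ} [Fact p.Prime] {c : ℂ_[p]} (hc : ‖c‖ ≤ 1) :
    IntP (X + C c : ℂ_[p][X]) := by
  intro k
  rw [coeff_add, coeff_X, coeff_C]
  refine (IsUltrametricDist.norm_add_le_max _ _).trans (max_le ?_ ?_)
  · split_ifs <;> simp
  · split_ifs
    · exact hc
    · simp

lemma exists_primitive {p : ℕ} [Fact p.Prime] (n : ℕ) (hn : 1 ≤ n) :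
    ∃ ζ : ℂ_[p], IsPrimitiveRoot ζ n := by
  have : NeZero (n : ℂ_[p]) := ⟨by exact_mod_cast (by omega : n ≠ 0)⟩
  have : NeZero n := ⟨by omega⟩
  obtain ⟨ζ, hζ⟩ := IsAlgClosed.exists_root (cyclotomic n ℂ_[p])
    (by
      rw [degree_cyclotomic]
      exact_mod_cast (Nat.totient_pos.2 (by omega)).ne')
  exact ⟨ζ, isRoot_cyclotomic_iff.1 hζ⟩

theorem clus_bound (hPUI : S_PUI) (hPLOG : S_PLOG) (hCCAU : S_CCAU) (hSEL : S_SEL)
    (p : ℕ) [hp : Fact p.Prime] (L : ℂ_[p] → ℂ_[p]) (hL : IsIwasawaLog p L) (m : ℕ)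
    (hpm : 2 * (m + 1) < p) (α : Fin m → ℂ_[p]) (hα : ∀ i, ‖α i‖ ≤ 1)
    (hαα : ∀ i j, i ≠ j → ‖α i - α j‖ = 1) (t₁ : ℂ_[p]) (hc : Clus p L m α t₁)
    (S : Finset ℂ_[p]) (hS : ∀ t ∈ S, ‖t - t₁‖ ≤ ‖(p : ℂ_[p])‖ ∧ ¬ GoodC L α t) :
    S.card ≤ m := by
  classical
  obtain ⟨q, x, e, he1, hpoly, hxx, hxa, hLc⟩ := hc
  have hp0 : (p : ℂ_[p]) ≠ 0 := by exact_mod_cast hp.out.ne_zero
  have hpn := norm_p_lt_one' p
  -- degrees
  have hesum : ∑ c, e c = m + 1 := by
    have h1 := congrArg natDegree hpoly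
    have h2 : ((X - C t₁) * ∏ i, (X - C (α i)) - 1 : ℂ_[p][X]).natDegree = m + 1 :=
      (fam_monic α t₁).2
    rw [h2, natDegree_prod_of_monic _ _ fun c _ => (monic_X_sub_C (x c)).pow _] at h1
    simp only [natDegree_pow, natDegree_X_sub_C, mul_one] at h1
    exact h1.symm
  have hele : ∀ c, e c ≤ m + 1 := fun c => by
    rw [← hesum]
    exact Finset.single_le_sum (f := e) (fun _ _ => Nat.zero_le _) (Finset.mem_univ c)
  have hxle : ∀ c i, ‖x c - α i‖ ≤ 1 := fun c i => (hxa c i).le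
  -- the local polynomials
  set M : Fin q → ℂ_[p][X] := fun c => ∏ c' ∈ Finset.univ.erase c, (X + C (x c - x c')) ^ (e c')
    with hM
  set P : Fin q → ℂ_[p][X] := fun c => ∏ i, (X + C (x c - α i)) with hP
  have hMint : ∀ c, IntP (M c) := fun c => IntP.prod _ _ fun c' hc' =>
    (IntP.X_add_C (hxx c c' (Finset.ne_of_mem_erase hc').symm).le).pow _
  have hPint : ∀ c, IntP (P c) := fun c => IntP.prod _ _ fun i _ => IntP.X_add_C (hxle c i)
  have hM0 : ∀ c, ‖(M c).coeff 0‖ = 1 := by
    intro c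
    rw [coeff_zero_eq_eval_zero, hM]
    simp only [eval_prod, eval_pow, eval_add, eval_X, eval_C, zero_add]
    rw [norm_prod]
    apply Finset.prod_eq_one
    intro c' hc'
    rw [norm_pow, hxx c c' (Finset.ne_of_mem_erase hc').symm, one_pow]
  have hP0 : ∀ c, ‖(P c).coeff 0‖ = 1 := by
    intro c
    rw [coeff_zero_eq_eval_zero, hP]
    simp only [eval_prod, eval_add, eval_X, eval_C, zero_add]
    rw [norm_prod]
    apply Finset.prod_eq_one
    intro i _
    exact hxa c i
  have hfac : ∀ c z, (x c + z - t₁) * ∏ i, (x c + z - α i) - 1 = z ^ (e c) * (M c).eval z := by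
    intro c z
    have h1 := congrArg (fun f => f.eval (x c + z)) hpoly
    simp only [eval_sub, eval_mul, eval_X, eval_C, eval_prod, eval_one, eval_pow] at h1
    rw [h1, hM]
    simp only [eval_prod, eval_pow, eval_add, eval_X, eval_C]
    rw [← Finset.mul_prod_erase Finset.univ _ (Finset.mem_univ c)]
    congr 1
    · rw [add_sub_cancel_left]
    · apply Finset.prod_congr rfl
      intro c' _
      congr 1
      ring
  have hPev : ∀ c z, (P c).eval z = ∏ i, (x c + z - α i) := by
    intro c z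
    rw [hP]
    simp only [eval_prod, eval_add, eval_X, eval_C]
    apply Finset.prod_congr rfl
    intro i _
    ring
  have hpui := fun c => hPUI p (e c) (he1 c) (by have := hele c; omega) (M c) (P c)
    (hMint c) (hPint c) (hM0 c) (hP0 c)
  choose η hη hη0 hηeq using hpui
  have hplog := fun c => hPLOG p L hL (η c) (hη c)
  choose T hT hTd hTlog using hplog
  have hTn : ∀ c k, 1 ≤ k → k < p → ‖T c k k‖ = 1 := by
    intro c k h1 h2
    rw [hTd c k h1, norm_mul, norm_div, norm_pow, norm_pow, norm_neg, norm_one, one_pow,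
      norm_nat_eq_one k h1 h2, hη0, one_pow, div_one, one_mul]
  -- the index set
  have hq : Nonempty (Fin q) := by
    by_contra h
    rw [not_nonempty_iff] at h
    rw [Finset.univ_eq_empty, Finset.sum_empty] at hesum
    omega
  obtain ⟨c₀⟩ := hq
  set e' : Fin q → ℕ := fun c => if c = c₀ then e c - 1 else e c with he'
  have he'le : ∀ c, e' c ≤ e c := by
    intro c
    simp only [he']
    split_ifs <;> omega
  have he'sum : ∑ c, e' c = m := by
    rw [← Finset.add_sum_erase _ _ (Finset.mem_univ c₀)] at hesum ⊢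
    have h1 : ∑ c ∈ Finset.univ.erase c₀, e' c = ∑ c ∈ Finset.univ.erase c₀, e c := by
      apply Finset.sum_congr rfl
      intro c hc
      simp only [he']
      rw [if_neg (Finset.ne_of_mem_erase hc)]
    have h2 : e' c₀ = e c₀ - 1 := by simp [he']
    have h3 := he1 c₀
    rw [h1, h2]
    omega
  have hcard : Fintype.card (Σₗ c : Fin q, Fin (e' c)) = m := by
    rw [Fintype.card_lex, Fintype.card_sigma]
    simp only [Fintype.card_fin]
    exact he'sum
  set φ : Fin m ≃o Σₗ c : Fin q, Fin (e' c) := Fintype.orderIsoFinOfCardEq _ hcard with hφ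
  set cc : Fin m → Fin q := fun j => (ofLex (φ j)).1 with hcc
  set kk : Fin m → ℕ := fun j => ((ofLex (φ j)).2 : ℕ) + 1 with hkk
  have hkk1 : ∀ j, 1 ≤ kk j := fun j => Nat.succ_le_succ (Nat.zero_le _)
  have hkk2 : ∀ j, kk j ≤ e' (cc j) := fun j => (ofLex (φ j)).2.2
  have hkke : ∀ j, kk j ≤ e (cc j) := fun j => (hkk2 j).trans (he'le _)
  have hkkp : ∀ j, kk j < p := fun j => by
    have := hkke j
    have := hele (cc j)
    omega
  -- the matrix of power series
  set B : Fin m → Fin m → ℕ → ℂ_[p] := fun i j n =>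
    if n = 0 then (if kk j = e (cc j) then L (x (cc j) - α i) / p else 0)
    else lam (T (cc j)) (x (cc j) - α i) (kk j + e (cc j) * (n - 1)) * (p : ℂ_[p]) ^ (n - 1) with hB
  set N : Matrix (Fin m) (Fin m) ℂ_[p] :=
    Matrix.of fun i j => lam (T (cc j)) (x (cc j) - α i) (kk j) with hN
  have hBsucc : ∀ i j n, B i j (n + 1) =
      lam (T (cc j)) (x (cc j) - α i) (kk j + e (cc j) * n) * (p : ℂ_[p]) ^ n := by
    intro i j n
    simp only [hB]
    rw [if_neg (Nat.succ_ne_zero n), Nat.add_sub_cancel]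
  have hBzero : ∀ i j, B i j 0 = if kk j = e (cc j) then L (x (cc j) - α i) / p else 0 := by
    intro i j
    simp only [hB, if_true]
  have hBsum : ∀ i j, Summable fun n => ‖B i j n‖ := by
    intro i j
    rw [← summable_nat_add_iff 1]
    have h1 : Summable fun n : ℕ => ((kk j : ℝ)) * ‖(p : ℂ_[p])‖ ^ n +
        (e (cc j) : ℝ) * ((n : ℝ) ^ 1 * ‖(p : ℂ_[p])‖ ^ n) := by
      apply Summable.add
      · exact (summable_geometric_of_lt_one (norm_nonneg _) hpn).mul_left _
      · apply Summable.mul_left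
        exact summable_pow_mul_geometric_of_norm_lt_one 1 (by rwa [norm_norm])
    refine h1.of_nonneg_of_le (fun n => norm_nonneg _) fun n => ?_
    rw [hBsucc, norm_mul, norm_pow]
    have h2 := lam_norm_le (T (cc j)) (hT (cc j)) (x (cc j) - α i) (hxa _ _)
      (kk j + e (cc j) * n)
    push_cast at h2
    calc ‖lam (T (cc j)) (x (cc j) - α i) (kk j + e (cc j) * n)‖ * ‖(p : ℂ_[p])‖ ^ n ≤
          ((kk j : ℝ) + e (cc j) * n) * ‖(p : ℂ_[p])‖ ^ n :=
          mul_le_mul_of_nonneg_right h2 (by positivity)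
      _ = _ := by ring
  have hNle : ∀ i j, ‖N i j‖ ≤ 1 := by
    intro i j
    rw [hN, Matrix.of_apply]
    exact lam_norm_le_one _ (hT _) _ (hxa _ _) _ (hkkp j)
  have hB1 : ∀ i j, B i j 1 = N i j := by
    intro i j
    rw [hBsucc i j 0, hN, Matrix.of_apply, mul_zero, add_zero, pow_zero, mul_one]
  have hBlt : ∀ i j n, 2 ≤ n → ‖B i j n‖ < 1 := by
    intro i j n hn
    obtain ⟨n', rfl⟩ : ∃ n', n = n' + 1 := ⟨n - 1, by omega⟩
    rw [hBsucc]
    exact lam_mul_lt _ (hT _) _ (hxa _ _) _ _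
      (exp_bound p (e (cc j)) (kk j) n' m (by omega) (hkke j) (hele _) hpm)
  have hBle : ∀ i j n, ‖B i j n‖ ≤ 1 := by
    intro i j n
    rcases Nat.lt_or_ge n 2 with h | h
    · interval_cases n
      · rw [hBzero]
        split_ifs
        · rw [norm_div]
          exact div_le_one_of_le₀ (hLc _ _) (norm_nonneg _)
        · simp
      · rw [hB1]
        exact hNle i j
    · exact (hBlt i j n h).le
  obtain ⟨f, hfsum, hf1, hf2, hfm, hfdet⟩ := Pool.Agent.W515.LF.t_EDET p m B N hBsum hBle hBlt hNle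
    (fun i j => by rw [hB1, sub_self, norm_zero]; exact one_pos)
  have hNdet : ‖N.det‖ = 1 :=
    leading_det hCCAU m q x α e' φ hα hxa hxx hαα
      (fun c => by have := he'le c; have := hele c; omega) T hTn
  have hfm1 : ‖f m‖ = 1 := by
    have h1 : f m = (f m - N.det) + N.det := by ring
    rw [h1, IsUltrametricDist.norm_add_eq_max_of_norm_ne_norm]
    · rw [hNdet, max_eq_right hfm.le]
    · rw [hNdet]
      exact hfm.ne
  -- counting
  have hinj : Set.InjOn (fun t => (t - t₁) / (p : ℂ_[p])) S := by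
    intro t _ t' _ h
    have h1 : (t - t₁) / (p : ℂ_[p]) = (t' - t₁) / (p : ℂ_[p]) := h
    rw [div_left_inj' hp0] at h1
    exact sub_left_injective h1
  rw [← Finset.card_image_of_injOn hinj]
  apply Pool.Agent.W335.LF.t_STR p f m hfsum.of_norm.tendsto_atTop_zero hf1 hfm1 hf2
  intro s hs
  obtain ⟨t, ht, rfl⟩ := Finset.mem_image.1 hs
  have hsn : ‖(t - t₁) / (p : ℂ_[p])‖ ≤ 1 := by
    rw [norm_div]
    exact div_le_one_of_le₀ (hS t ht).1 (norm_nonneg _)
  refine ⟨hsn, ?_⟩
  rw [hfdet _ hsn]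
  by_contra hdet
  apply (hS t ht).2
  set s : ℂ_[p] := (t - t₁) / (p : ℂ_[p]) with hs
  have hts : t = t₁ + p * s := by
    rw [hs, mul_div_cancel₀ _ hp0]
    ring
  have hpsn : ‖(p : ℂ_[p]) * s‖ ≤ ‖(p : ℂ_[p])‖ := by
    rw [norm_mul]
    exact mul_le_of_le_one_right (norm_nonneg _) hsn
  -- roots
  have hw := fun c => IsAlgClosed.exists_pow_nat_eq ((p : ℂ_[p]) * s) (n := e c)
    (by have := he1 c; omega)
  choose w hw using hw
  have hwn : ∀ c, ‖w c‖ < 1 := by
    intro c
    have h1 : ‖w c‖ ^ (e c) < 1 := by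
      rw [← norm_pow, hw c]
      exact lt_of_le_of_lt hpsn hpn
    by_contra h2
    push Not at h2
    exact absurd h1 (not_lt.2 (one_le_pow₀ h2))
  have hζ := fun c => exists_primitive (p := p) (e c) (he1 c)
  choose ζ hζ using hζ
  have hζn : ∀ c, ‖ζ c‖ = 1 := by
    intro c
    have h1 : ‖ζ c‖ ^ (e c) = 1 := by rw [← norm_pow, (hζ c).pow_eq_one, norm_one]
    exact (pow_eq_one_iff_of_nonneg (norm_nonneg _) (by have := he1 c; omega)).1 h1
  set ww : (Σ c : Fin q, Fin (e c)) → ℂ_[p] := fun g => ζ g.1 ^ (g.2 : ℕ) * w g.1 with hww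
  have hwwn : ∀ g, ‖ww g‖ < 1 := by
    intro g
    rw [hww]
    simp only [norm_mul, norm_pow, hζn, one_pow, one_mul]
    exact hwn g.1
  have hwwe : ∀ g, ww g ^ (e g.1) = (p : ℂ_[p]) * s := by
    intro g
    rw [hww]
    simp only
    rw [mul_pow, hw, ← pow_mul, mul_comm (g.2 : ℕ), pow_mul, (hζ g.1).pow_eq_one, one_pow, one_mul]
  set yy : (Σ c : Fin q, Fin (e c)) → ℂ_[p] := fun g =>
    x g.1 + ww g * ∑' k, η g.1 k * ww g ^ k with hyy
  have hyroot : ∀ g, (yy g - t) * ∏ i, (yy g - α i) = 1 := by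
    intro g
    have h1 := hfac g.1 (ww g * ∑' k, η g.1 k * ww g ^ k)
    have h2 := hηeq g.1 (ww g) (hwwn g)
    rw [hPev] at h2
    rw [h2, hwwe g] at h1
    rw [hts]
    simp only [hyy]
    linear_combination h1
  set R : Matrix (Fin m) (Σ c : Fin q, Fin (e c)) ℂ_[p] := Matrix.of fun i g => L (yy g - α i)
    with hR
  have hRlog : ∀ i g, R i g = L (x g.1 - α i) +
      ∑' k : ℕ, lam (T g.1) (x g.1 - α i) (k + 1) * ww g ^ (k + 1) := by
    intro i g
    rw [hR, Matrix.of_apply]
    have h1 := (hTlog g.1 (x g.1 - α i) (ww g) (hxa _ _) (hwwn g)).2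
    simp only [hyy]
    rw [← add_sub_right_comm] at h1
    rw [h1]
    rfl
  set κ : Fin m → ℂ_[p] := fun j => if kk j = e (cc j) then ((e (cc j) : ℂ_[p]) * p)⁻¹ else
    s / (e (cc j) * w (cc j) ^ (kk j)) with hκ
  set Q : Matrix (Σ c : Fin q, Fin (e c)) (Fin m) ℂ_[p] := Matrix.of fun g j =>
    if g.1 = cc j then κ j * (ζ g.1)⁻¹ ^ ((g.2 : ℕ) * kk j) else 0 with hQ
  have hRQ : (Matrix.of fun i j : Fin m => ∑' k, B i j k * s ^ k) = R * Q := by
    ext i j
    rw [Matrix.mul_apply, Matrix.of_apply, Fintype.sum_sigma, Finset.sum_eq_single (cc j)]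
    · -- the cluster of the column
      set c := cc j with hcj
      have hec0 : (e c : ℂ_[p]) ≠ 0 := by
        have := he1 c
        exact_mod_cast (by omega : e c ≠ 0)
      have h1 : ∀ l : Fin (e c), R i ⟨c, l⟩ * Q ⟨c, l⟩ j =
          κ j * ((ζ c)⁻¹ ^ ((l : ℕ) * kk j) * L (x c - α i)) +
          κ j * ((ζ c)⁻¹ ^ ((l : ℕ) * kk j) *
            ∑' n : ℕ, (lam (T c) (x c - α i) (n + 1) * w c ^ (n + 1)) *
              (ζ c ^ (l : ℕ)) ^ (n + 1)) := by
        intro l
        rw [hRlog, hQ, Matrix.of_apply, if_pos rfl]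
        have h2 : (∑' k : ℕ, lam (T c) (x c - α i) (k + 1) * ww ⟨c, l⟩ ^ (k + 1)) =
            ∑' n : ℕ, (lam (T c) (x c - α i) (n + 1) * w c ^ (n + 1)) *
              (ζ c ^ (l : ℕ)) ^ (n + 1) := by
          congr 1
          funext n
          simp only [hww]
          rw [mul_pow]
          ring
        simp only at h2 ⊢
        rw [h2]
        ring
      simp only [h1]
      rw [Finset.sum_add_distrib, ← Finset.mul_sum, ← Finset.mul_sum, ← Finset.sum_mul]
      have hsm : Summable fun n : ℕ => ‖lam (T c) (x c - α i) (n + 1) * w c ^ (n + 1)‖ :=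
        (hTlog c (x c - α i) (w c) (hxa _ _) (hwn c)).1
      rw [fourier (e c) (he1 c) (ζ c) (hζ c) (kk j) (hkk1 j) _ hsm,
        fourier_tsum (e c) (he1 c) (kk j) (hkk1 j) (hkke j)]
      have h3 : (∑' n : ℕ, lam (T c) (x c - α i) (kk j - 1 + e c * n + 1) *
          w c ^ (kk j - 1 + e c * n + 1)) =
          w c ^ (kk j) * ∑' n : ℕ, lam (T c) (x c - α i) (kk j + e c * n) *
            ((p : ℂ_[p]) * s) ^ n := by
        rw [← tsum_mul_left]
        congr 1
        funext n
        have h4 : kk j - 1 + e c * n + 1 = kk j + e c * n := by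
          have := hkk1 j
          omega
        rw [h4, pow_add, pow_mul, hw c]
        ring
      rw [h3]
      have h5 : (∑' k, B i j k * s ^ k) = B i j 0 + s * ∑' n : ℕ,
          lam (T c) (x c - α i) (kk j + e c * n) * ((p : ℂ_[p]) * s) ^ n := by
        have hs1 : Summable fun k => B i j k * s ^ k := by
          apply Summable.of_norm
          refine (hBsum i j).of_nonneg_of_le (fun _ => norm_nonneg _) fun k => ?_
          rw [norm_mul, norm_pow]
          exact mul_le_of_le_one_right (norm_nonneg _) (pow_le_one₀ (norm_nonneg _) hsn)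
        rw [hs1.tsum_eq_zero_add, pow_zero, mul_one, ← tsum_mul_left]
        congr 2
        funext n
        rw [hBsucc, ← hcj]
        ring
      rw [h5, hBzero, ← hcj]
      have h6 : ∑ l : Fin (e c), (ζ c)⁻¹ ^ ((l : ℕ) * kk j) =
          if kk j = e c then (e c : ℂ_[p]) else 0 := by
        have hζi : IsPrimitiveRoot (ζ c)⁻¹ (e c) := (hζ c).inv
        split_ifs with h7
        · rw [h7]
          have : ∀ l : Fin (e c), (ζ c)⁻¹ ^ ((l : ℕ) * e c) = 1 := by
            intro l
            rw [mul_comm, pow_mul, hζi.pow_eq_one, one_pow]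
          simp [this]
        · have h8 : (ζ c)⁻¹ ^ (kk j) ≠ 1 := by
            intro h9
            have h10 := Nat.le_of_dvd (hkk1 j) ((hζi.pow_eq_one_iff_dvd _).1 h9)
            have h11 := hkke j
            rw [← hcj] at h11
            omega
          have h9 : ∀ l : Fin (e c), (ζ c)⁻¹ ^ ((l : ℕ) * kk j) = ((ζ c)⁻¹ ^ (kk j)) ^ (l : ℕ) := by
            intro l
            rw [← pow_mul, mul_comm]
          simp only [h9]
          rw [Fin.sum_univ_eq_sum_range (fun l => ((ζ c)⁻¹ ^ (kk j)) ^ l) (e c), geom_sum_eq h8,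
            ← pow_mul, mul_comm (kk j), pow_mul, hζi.pow_eq_one, one_pow, sub_self, zero_div]
      rw [h6]
      by_cases h7 : kk j = e c
      · rw [if_pos h7, if_pos h7]
        have h8 : κ j = ((e c : ℂ_[p]) * p)⁻¹ := by
          simp only [hκ]
          rw [if_pos h7]
        have h9 : w c ^ (kk j) = (p : ℂ_[p]) * s := by rw [h7, hw c]
        rw [h8, h9]
        field_simp
      · rw [if_neg h7, if_neg h7]
        have h8 : κ j = s / (e c * w c ^ (kk j)) := by
          simp only [hκ]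
          rw [if_neg h7]
        rw [h8]
        by_cases hs0 : s = 0
        · rw [hs0]
          ring
        · have hwc : w c ≠ 0 := by
            intro h9
            have h10 := hw c
            rw [h9, zero_pow (by have := he1 c; omega)] at h10
            exact mul_ne_zero hp0 hs0 h10.symm
          have hwk : w c ^ (kk j) ≠ 0 := pow_ne_zero _ hwc
          field_simp
          ring
    · intro c _ hc
      apply Finset.sum_eq_zero
      intro l _
      rw [hQ, Matrix.of_apply, if_neg hc, mul_zero]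
    · intro h
      exact absurd (Finset.mem_univ _) h
  rw [hRQ] at hdet
  obtain ⟨g, _, hgdet⟩ := hSEL ℂ_[p] m _ R Q hdet
  refine ⟨fun j => yy (g j), ?_, fun j => hyroot (g j), ?_⟩
  · intro j j' h
    by_contra hne
    apply hgdet
    apply Matrix.det_zero_of_column_eq hne
    intro i
    rw [Matrix.of_apply, Matrix.of_apply, hR, Matrix.of_apply, Matrix.of_apply]
    have h' : yy (g j) = yy (g j') := h
    rw [h']
  · exact hgdet

end Pool.Agent.W254.LF
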