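import Pool.Agent.W254.LF.Stm

/-!
# Leopoldt's conjecture in families: second round of statements (all signatures)
-/

set_option autoImplicit false

namespace Pool.Agent.W254.LF

open Polynomial NumberField

/-- For large `|t|` the polynomial `(X - t) P_1 ⋯ P_r - 1` has at most one real root more than there
are linear factors, if the other factors have no real roots. -/
def S_REAL : Prop :=
  ∀ (r : ℕ) (P : Fin r → ℤ[X]), (∀ i, (P i).Monic) → Function.Injective P →
    (∀ i, (P i).natDegree = 1 ∨ ∀ x : ℝ, ((P i).map (Int.castRingHom ℝ)).eval x ≠ 0) →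
    ∃ T₀ : ℤ, ∀ t : ℤ, T₀ ≤ |t| →
      (((X - C t) * ∏ i, P i - 1 : ℤ[X]).map (Int.castRingHom ℝ)).roots.toFinset.card ≤
        1 + (Finset.univ.filter fun i => (P i).natDegree = 1).card

/-- The number of real places is at most the number of real roots. -/
def S_RNK : Prop :=
  ∀ (K : Type) [Field K] [NumberField K] (θ : K) (f : ℤ[X]), f.Monic → aeval θ f = 0 →
    Module.finrank ℚ K = f.natDegree → IntermediateField.adjoin ℚ {θ} = ⊤ →
    InfinitePlace.nrRealPlaces K ≤ ((f.map (Int.castRingHom ℝ)).roots.toFinset.card)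

/-- `(X - t) Q - 1` is irreducible for all but finitely many `t`. -/
def S_IRZ : Prop :=
  ∀ Q : ℤ[X], Q.Monic →
    {t : ℤ | ¬ Irreducible (((X - C t) * Q - 1 : ℤ[X]).map (Int.castRingHom ℚ))}.Finite

/-- Units with independent logarithms bound the unit rank from below. -/
def S_LOW : Prop :=
  ∀ (K : Type) [Field K] [NumberField K] (p : ℕ) [Fact p.Prime] (L : ℂ_[p] → ℂ_[p]),
    Pool.Agent.W289.SL.IsIwasawaLog p L → ∀ (r : ℕ) (u : Fin r → (𝓞 K)ˣ),
    (∀ c : Fin r → ℂ_[p],
      (∀ σ : K →+* ℂ_[p], ∑ i, c i * L (σ ((u i : 𝓞 K) : K)) = 0) → c = 0) →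
    r ≤ Units.rank K

end Pool.Agent.W254.LF
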