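import Pool.Agent.W254.LF.Stm

/-!
# Leopoldt's conjecture in families: third round of statements (bounds uniform in the prime)
-/

set_option autoImplicit false

namespace Pool.Agent.W254.LF

open Polynomial NumberField Filter Topology Pool.Agent.W289.SL

/-- Strassmann's theorem. -/
def S_STR : Prop :=
  ∀ (p : ℕ) [Fact p.Prime] (f : ℕ → ℂ_[p]) (m : ℕ), Tendsto f atTop (𝓝 0) →
    (∀ k, ‖f k‖ ≤ 1) → ‖f m‖ = 1 → (∀ k, m < k → ‖f k‖ < 1) →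
    ∀ S : Finset ℂ_[p], (∀ s ∈ S, ‖s‖ ≤ 1 ∧ ∑' k, f k * s ^ k = 0) → S.card ≤ m

/-- The determinant of a matrix of power series which are linear modulo the maximal ideal. -/
def S_EDET : Prop :=
  ∀ (p : ℕ) [Fact p.Prime] (m : ℕ) (B : Fin m → Fin m → ℕ → ℂ_[p])
    (N : Matrix (Fin m) (Fin m) ℂ_[p]),
    (∀ i j, Summable fun k => ‖B i j k‖) → (∀ i j k, ‖B i j k‖ ≤ 1) →
    (∀ i j k, 2 ≤ k → ‖B i j k‖ < 1) → (∀ i j, ‖N i j‖ ≤ 1) → (∀ i j, ‖B i j 1 - N i j‖ < 1) →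
    ∃ f : ℕ → ℂ_[p], (Summable fun k => ‖f k‖) ∧ (∀ k, ‖f k‖ ≤ 1) ∧ (∀ k, m < k → ‖f k‖ < 1) ∧
      ‖f m - N.det‖ < 1 ∧
      ∀ s : ℂ_[p], ‖s‖ ≤ 1 →
        ∑' k, f k * s ^ k = (Matrix.of fun i j : Fin m => ∑' k, B i j k * s ^ k).det

/-- The roots of the family in an unramified residue class. -/
def S_ROOT : Prop :=
  ∀ (p : ℕ) [Fact p.Prime] (m : ℕ) (a : Fin m → ℤ) (t : ℤ),
    (((X - C t) * ∏ i, (X - C (a i)) - 1 : ℤ[X]).map (Int.castRingHom (ZMod p))).Separable →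
    ∃ (x : Fin (m + 1) → ℂ_[p]) (ξ : Fin (m + 1) → ℕ → ℂ_[p]),
      (∀ i j, i ≠ j → ‖x i - x j‖ = 1) ∧ (∀ j i, ‖x j - (a i : ℂ_[p])‖ = 1) ∧
      (∀ j k, ‖ξ j k‖ ≤ 1) ∧ (∀ j, ‖ξ j 0‖ = 1) ∧
      (∀ j, (x j - (t : ℂ_[p])) * ∏ i, (x j - (a i : ℂ_[p])) = 1) ∧
      ∀ j (s : ℂ_[p]), ‖s‖ ≤ 1 →
        (x j + ∑' k, ξ j k * ((p : ℂ_[p]) * s) ^ (k + 1) - ((t : ℂ_[p]) + p * s)) *
          ∏ i, (x j + ∑' k, ξ j k * ((p : ℂ_[p]) * s) ^ (k + 1) - (a i : ℂ_[p])) = 1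

/-- The logarithm of a power series. -/
def S_LOGB : Prop :=
  ∀ (p : ℕ) [Fact p.Prime], p ≠ 2 → ∀ (L : ℂ_[p] → ℂ_[p]), IsIwasawaLog p L →
    ∀ (u : ℂ_[p]) (ξ : ℕ → ℂ_[p]), ‖u‖ = 1 → ‖L u‖ ≤ ‖(p : ℂ_[p])‖ → (∀ k, ‖ξ k‖ ≤ 1) →
    ∃ B : ℕ → ℂ_[p], (Summable fun k => ‖B k‖) ∧ (∀ k, ‖B k‖ ≤ 1) ∧ (∀ k, 2 ≤ k → ‖B k‖ < 1) ∧
      ‖B 1 - ξ 0 / u‖ < 1 ∧
      ∀ s : ℂ_[p], ‖s‖ ≤ 1 →
        L (u + ∑' k, ξ k * ((p : ℂ_[p]) * s) ^ (k + 1)) = (p : ℂ_[p]) * ∑' k, B k * s ^ k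

/-- Logarithms of unramified units are divisible by `p`. -/
def S_CONST : Prop :=
  ∀ (p : ℕ) [Fact p.Prime], p ≠ 2 → ∀ (L : ℂ_[p] → ℂ_[p]), IsIwasawaLog p L →
    ∀ (f : ℤ[X]), f.Monic → (f.map (Int.castRingHom (ZMod p))).Separable →
    ∀ (x : ℂ_[p]) (a : ℤ), aeval x f = 0 → ‖x - (a : ℂ_[p])‖ = 1 →
      ‖L (x - (a : ℂ_[p]))‖ ≤ ‖(p : ℂ_[p])‖

/-- The Cauchy determinant. -/
def S_CAU : Prop :=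
  ∀ (p : ℕ) [Fact p.Prime] (m : ℕ) (x a : Fin m → ℂ_[p]), (∀ i j, ‖x j - a i‖ = 1) →
    (∀ i j, i ≠ j → ‖x i - x j‖ = 1) → (∀ i j, i ≠ j → ‖a i - a j‖ = 1) →
    ‖(Matrix.of fun i j : Fin m => (x j - a i)⁻¹).det‖ = 1

end Pool.Agent.W254.LF
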