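import Pool.Agent.W254.LF.Zed
import Pool.Agent.W254.LF.Stm3
import Pool.Agent.W515.LF.Edet
import Pool.Agent.W74.LF.LOGB
import Pool.Agent.W230.LF.Const
import Pool.Agent.W460.LF.Cau

/-!
# Leopoldt's conjecture in families: bounds uniform in the prime
-/

set_option autoImplicit false

namespace Pool.Agent.W254.LF

open Polynomial NumberField IntermediateField Filter Topology Pool.Agent.W289.SL

/-- The integer `t` is good for `p`. -/
def GoodZ {p : ℕ} [Fact p.Prime] (L : ℂ_[p] → ℂ_[p]) {m : ℕ} (a : Fin m → ℤ) (t : ℤ) : Prop :=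
  ∃ x : Fin m → ℂ_[p], Function.Injective x ∧
    (∀ j, (x j - (t : ℂ_[p])) * ∏ i, (x j - (a i : ℂ_[p])) = 1) ∧
    (Matrix.of fun i j : Fin m => L (x j - (a i : ℂ_[p]))).det ≠ 0

/-- `t` is unramified at `p` -/
def Unr (p : ℕ) {m : ℕ} (a : Fin m → ℤ) (t : ℤ) : Prop :=
  ((fam a t).map (Int.castRingHom (ZMod p))).Separable

lemma norm_int_eq_one {p : ℕ} [Fact p.Prime] (n : ℤ) (hn : ¬ (p : ℤ) ∣ n) :
    ‖(n : ℂ_[p])‖ = 1 := by
  have h := norm_algebraMap' ℂ_[p] ((n : ℤ) : ℚ_[p])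
  rw [map_intCast] at h
  rw [h]
  have h1 := Padic.norm_int_le_one (p := p) n
  rcases h1.lt_or_eq with h2 | h2
  · exact absurd ((Padic.norm_intCast_lt_one_iff (p := p) (k := n)).1 h2) hn
  · exact h2

lemma norm_p_lt_one (p : ℕ) [hp : Fact p.Prime] : ‖(p : ℂ_[p])‖ < 1 := by
  rw [norm_p]
  exact inv_lt_one_of_one_lt₀ (by exact_mod_cast hp.out.one_lt)

theorem class_bound (hSTR : S_STR) (hROOT : S_ROOT) (p : ℕ) [Fact p.Prime] (hp2 : p ≠ 2)
    (L : ℂ_[p] → ℂ_[p]) (hL : IsIwasawaLog p L) (m : ℕ) (a : Fin m → ℤ)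
    (hap : ∀ i j, i ≠ j → ¬ (p : ℤ) ∣ a i - a j) (t₀ : ℤ) (hsep : Unr p a t₀)
    (S : Finset ℤ) (hS : ∀ t ∈ S, (p : ℤ) ∣ t - t₀ ∧ ¬ GoodZ L a t) : S.card ≤ m := by
  classical
  obtain ⟨x, ξ, hxx, hxa, hξ, hξ0, hx0, hxs⟩ := hROOT p m a t₀ hsep
  have hp0 : (p : ℂ_[p]) ≠ 0 := by
    have : p ≠ 0 := (Fact.out : p.Prime).ne_zero
    exact_mod_cast this
  have hpn := norm_p_lt_one p
  -- the constants
  have hconst : ∀ i (j : Fin (m + 1)), ‖L (x j - (a i : ℂ_[p]))‖ ≤ ‖(p : ℂ_[p])‖ := by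
    intro i j
    refine Pool.Agent.W230.LF.t_CONST p hp2 L hL (fam a t₀) (fam_monic a t₀).1 hsep (x j) (a i) ?_
      (hxa j i)
    rw [aeval_def, ← eval_map, fam_map, fam_eval]
    have h := hx0 j
    simp only [eq_intCast]
    rw [h, sub_self]
  have hB := fun (i j : Fin m) => Pool.Agent.W74.LF.t_LOGB p hp2 L hL
    (x j.castSucc - (a i : ℂ_[p])) (ξ j.castSucc) (hxa _ _) (hconst _ _) (hξ _)
  choose B hBsum hB1 hB2 hBlin hBlog using hB
  set N : Matrix (Fin m) (Fin m) ℂ_[p] :=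
    Matrix.of fun i j => ξ j.castSucc 0 / (x j.castSucc - (a i : ℂ_[p])) with hN
  obtain ⟨f, hfsum, hf1, hf2, hfm, hfdet⟩ := Pool.Agent.W515.LF.t_EDET p m B N hBsum hB1 hB2
    (fun i j => by
      rw [hN, Matrix.of_apply, norm_div, hxa, hξ0, div_one])
    (fun i j => hBlin i j)
  have hNdet : ‖N.det‖ = 1 := by
    have h1 : N = Matrix.of fun i j => (x j.castSucc - (a i : ℂ_[p]))⁻¹ * ξ j.castSucc 0 := by
      ext i j
      rw [hN, Matrix.of_apply, Matrix.of_apply, div_eq_mul_inv, mul_comm]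
    have h2 : N = (Matrix.of fun i j : Fin m => (x j.castSucc - (a i : ℂ_[p]))⁻¹) *
        Matrix.diagonal (fun j : Fin m => ξ j.castSucc 0) := by
      rw [h1]
      ext i j
      rw [Matrix.mul_diagonal, Matrix.of_apply, Matrix.of_apply]
    rw [h2, Matrix.det_mul, Matrix.det_diagonal, norm_mul, norm_prod]
    rw [Pool.Agent.W460.LF.t_CAU p m (fun j => x j.castSucc) (fun i => (a i : ℂ_[p]))
      (fun i j => hxa _ _) (fun i j hij => hxx _ _ (fun h => hij (Fin.castSucc_injective m h)))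
      (fun i j hij => by
        rw [← Int.cast_sub]
        exact norm_int_eq_one _ (hap i j hij))]
    simp [hξ0]
  have hfm1 : ‖f m‖ = 1 := by
    have h1 : f m = (f m - N.det) + N.det := by ring
    rw [h1, IsUltrametricDist.norm_add_eq_max_of_norm_ne_norm]
    · rw [hNdet, max_eq_right hfm.le]
    · rw [hNdet]
      exact hfm.ne
  -- the points
  have hsnorm : ∀ n : ℤ, ‖(n : ℂ_[p])‖ ≤ 1 := fun n => norm_intCast_le n
  choose! s hs using fun t (ht : t ∈ S) => (hS t ht).1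
  have hinj : Set.InjOn (fun t => ((s t : ℤ) : ℂ_[p])) S := by
    intro t ht t' ht' h
    have h1 : s t = s t' := by
      have h2 : ((s t : ℤ) : ℂ_[p]) = ((s t' : ℤ) : ℂ_[p]) := h
      exact_mod_cast h2
    have h2 := hs t ht
    have h3 := hs t' ht'
    rw [h1] at h2
    linarith
  have hcard : (S.image (fun t => ((s t : ℤ) : ℂ_[p]))).card = S.card :=
    Finset.card_image_of_injOn hinj
  rw [← hcard]
  apply hSTR p f m hfsum.of_norm.tendsto_atTop_zero hf1 hfm1 hf2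
  intro z hz
  obtain ⟨t, ht, rfl⟩ := Finset.mem_image.1 hz
  refine ⟨hsnorm _, ?_⟩
  rw [hfdet _ (hsnorm _)]
  by_contra hdet
  apply (hS t ht).2
  have htt : (t : ℂ_[p]) = (t₀ : ℂ_[p]) + p * ((s t : ℤ) : ℂ_[p]) := by
    have h1 := hs t ht
    have h2 : t = t₀ + p * s t := by linarith
    conv_lhs => rw [h2]
    push_cast
    ring
  have htail : ∀ j : Fin (m + 1),
      ‖∑' k, ξ j k * ((p : ℂ_[p]) * ((s t : ℤ) : ℂ_[p])) ^ (k + 1)‖ ≤ ‖(p : ℂ_[p])‖ := by
    intro j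
    refine IsUltrametricDist.norm_tsum_le_of_forall_le_of_nonneg (norm_nonneg _) fun k => ?_
    rw [norm_mul, norm_pow, norm_mul]
    have h1 : ‖(p : ℂ_[p])‖ * ‖((s t : ℤ) : ℂ_[p])‖ ≤ ‖(p : ℂ_[p])‖ :=
      mul_le_of_le_one_right (norm_nonneg _) (hsnorm _)
    have h2 : (‖(p : ℂ_[p])‖ * ‖((s t : ℤ) : ℂ_[p])‖) ^ (k + 1) ≤ ‖(p : ℂ_[p])‖ := by
      calc (‖(p : ℂ_[p])‖ * ‖((s t : ℤ) : ℂ_[p])‖) ^ (k + 1) ≤ ‖(p : ℂ_[p])‖ ^ (k + 1) :=
            pow_le_pow_left₀ (by positivity) h1 _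
        _ ≤ ‖(p : ℂ_[p])‖ := by
            rw [pow_succ]
            exact mul_le_of_le_one_left (norm_nonneg _) (pow_le_one₀ (norm_nonneg _) hpn.le)
    calc ‖ξ j k‖ * (‖(p : ℂ_[p])‖ * ‖((s t : ℤ) : ℂ_[p])‖) ^ (k + 1) ≤
          1 * ‖(p : ℂ_[p])‖ := by
          apply mul_le_mul (hξ j k) h2 (by positivity) (by norm_num)
      _ = ‖(p : ℂ_[p])‖ := one_mul _
  refine ⟨fun j => x j.castSucc + ∑' k, ξ j.castSucc k *
    ((p : ℂ_[p]) * ((s t : ℤ) : ℂ_[p])) ^ (k + 1), ?_, ?_, ?_⟩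
  · intro i j hij
    by_contra hne
    have h1 : ‖x i.castSucc - x j.castSucc‖ = 1 :=
      hxx _ _ (fun h => hne (Fin.castSucc_injective m h))
    have h2 : x i.castSucc - x j.castSucc =
        (∑' k, ξ j.castSucc k * ((p : ℂ_[p]) * ((s t : ℤ) : ℂ_[p])) ^ (k + 1)) -
        (∑' k, ξ i.castSucc k * ((p : ℂ_[p]) * ((s t : ℤ) : ℂ_[p])) ^ (k + 1)) := by
      have h3 : x i.castSucc + (∑' k, ξ i.castSucc k *
          ((p : ℂ_[p]) * ((s t : ℤ) : ℂ_[p])) ^ (k + 1)) =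
        x j.castSucc + (∑' k, ξ j.castSucc k *
          ((p : ℂ_[p]) * ((s t : ℤ) : ℂ_[p])) ^ (k + 1)) := hij
      linear_combination h3
    rw [h2] at h1
    have h4 := IsUltrametricDist.norm_add_le_max
      (∑' k, ξ j.castSucc k * ((p : ℂ_[p]) * ((s t : ℤ) : ℂ_[p])) ^ (k + 1))
      (-(∑' k, ξ i.castSucc k * ((p : ℂ_[p]) * ((s t : ℤ) : ℂ_[p])) ^ (k + 1)))
    rw [norm_neg, ← sub_eq_add_neg] at h4
    have h5 := h4.trans (max_le (htail j.castSucc) (htail i.castSucc))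
    rw [h1] at h5
    exact absurd h5 (not_le.2 hpn)
  · intro j
    have h1 := hxs j.castSucc ((s t : ℤ) : ℂ_[p]) (hsnorm _)
    rw [htt]
    exact h1
  · have h1 : (Matrix.of fun i j : Fin m => L (x j.castSucc + ∑' k, ξ j.castSucc k *
        ((p : ℂ_[p]) * ((s t : ℤ) : ℂ_[p])) ^ (k + 1) - (a i : ℂ_[p]))) =
        (p : ℂ_[p]) • (Matrix.of fun i j : Fin m => ∑' k, B i j k * ((s t : ℤ) : ℂ_[p]) ^ k) := by
      ext i j
      rw [Matrix.smul_apply, Matrix.of_apply, Matrix.of_apply, smul_eq_mul,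
        ← hBlog i j _ (hsnorm _)]
      congr 1
      ring
    rw [h1, Matrix.det_smul]
    exact mul_ne_zero (pow_ne_zero _ hp0) hdet

theorem prime_bound (hSTR : S_STR) (hROOT : S_ROOT) (p : ℕ) [Fact p.Prime] (hp2 : p ≠ 2)
    (L : ℂ_[p] → ℂ_[p]) (hL : IsIwasawaLog p L) (m : ℕ) (a : Fin m → ℤ)
    (hap : ∀ i j, i ≠ j → ¬ (p : ℤ) ∣ a i - a j)
    (S : Finset ℤ) (hS : ∀ t ∈ S, Unr p a t ∧ ¬ GoodZ L a t) : S.card ≤ m * p := by
  classical
  have h1 := Finset.card_le_mul_card_image (f := fun t : ℤ => (t : ZMod p)) S m (by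
    intro c _
    rcases (S.filter fun t : ℤ => ((t : ZMod p)) = c).eq_empty_or_nonempty with h | ⟨t₀, ht₀⟩
    · rw [h]
      simp
    · have ht0 := Finset.mem_filter.1 ht₀
      apply class_bound hSTR hROOT p hp2 L hL m a hap t₀ (hS t₀ ht0.1).1
      intro t ht
      have ht' := Finset.mem_filter.1 ht
      refine ⟨?_, (hS t ht'.1).2⟩
      rw [← ZMod.intCast_zmod_eq_zero_iff_dvd, Int.cast_sub, ht'.2, ht0.2, sub_self])
  refine h1.trans ?_
  apply Nat.mul_le_mul_left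
  refine (Finset.card_le_univ _).trans ?_
  rw [ZMod.card]

/-- A good integer gives an irreducible polynomial and Leopoldt's conjecture. -/
theorem good_conclusion (p : ℕ) [Fact p.Prime]
    (L : ℂ_[p] → ℂ_[p]) (hL : IsIwasawaLog p L) (m : ℕ) (a : Fin m → ℤ)
    (t : ℤ) (hg : GoodZ L a t) :
    Irreducible ((fam a t).map (Int.castRingHom ℚ)) ∧
      ∀ (K : Type) [Field K] [NumberField K] (θ : K), aeval θ (fam a t) = 0 → ℚ⟮θ⟯ = ⊤ →
        LeopoldtAt K p := by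
  classical
  obtain ⟨x, hxinj, hxeq, hdet⟩ := hg
  have hk : Units.rank ℚ = 0 := by
    have : Fintype.card (InfinitePlace ℚ) = 1 := by
      rw [Fintype.card_eq_one_iff]
      exact ⟨Rat.infinitePlace, fun y => Subsingleton.elim _ _⟩
    rw [Units.rank, this]
  set τ : ℚ →+* ℂ_[p] := algebraMap ℚ ℂ_[p] with hτ
  set ι : ℤ →+* 𝓞 ℚ := algebraMap ℤ (𝓞 ℚ) with hι
  have hιc : (algebraMap (𝓞 ℚ) ℚ).comp ι = Int.castRingHom ℚ := RingHom.ext_int _ _
  have hτι : ∀ n : ℤ, τ ((ι n : 𝓞 ℚ) : ℚ) = (n : ℂ_[p]) := by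
    intro n
    have h1 : ((ι n : 𝓞 ℚ) : ℚ) = (n : ℚ) := by
      have := congrArg (fun f : ℤ →+* ℚ => f n) hιc
      exact this
    rw [h1]
    exact map_intCast τ n
  have hxeq' : ∀ j, (x j - τ (ι t : 𝓞 ℚ)) * ∏ i, (x j - τ ((ι (a i) : 𝓞 ℚ))) = 1 := by
    intro j
    simp only [hτι]
    exact hxeq j
  have hdet' : (Matrix.of fun i j : Fin m => L (x j - τ ((ι (a i) : 𝓞 ℚ)))).det ≠ 0 := by
    simp only [hτι]
    exact hdet
  have hirr0 := t_IRR p ℚ hk τ L hL m (fun i => ι (a i)) (ι t) x hxinj hxeq' hdet'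
  have hmapeq : ((fam (fun i => ι (a i)) (ι t)).map (algebraMap (𝓞 ℚ) ℚ)) =
      (fam a t).map (Int.castRingHom ℚ) := by
    rw [← fam_map ι, Polynomial.map_map, hιc]
  have hirr : Irreducible ((fam a t).map (Int.castRingHom ℚ)) := by
    rw [← hmapeq]
    exact hirr0
  refine ⟨hirr, ?_⟩
  intro K _ _ θ hθ hadj
  obtain ⟨hmon, hdeg⟩ := fam_monic a t
  have hθQ : aeval θ ((fam a t).map (Int.castRingHom ℚ)) = 0 := by
    rw [← algebraMap_int_eq, aeval_map_algebraMap]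
    exact hθ
  have hint : IsIntegral ℚ θ := Algebra.IsIntegral.isIntegral θ
  have hmp : (fam a t).map (Int.castRingHom ℚ) = minpoly ℚ θ :=
    minpoly.eq_of_irreducible_of_monic hirr hθQ (hmon.map _)
  have hfin : Module.finrank ℚ K = m + 1 := by
    rw [← IntermediateField.finrank_top' (F := ℚ) (E := K), ← hadj,
      IntermediateField.adjoin.finrank hint, ← hmp, hmon.natDegree_map, hdeg]
  have hαinj : Function.Injective (fun i => τ ((ι (a i) : 𝓞 ℚ))) := by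
    intro i j h
    by_contra hne
    apply hdet'
    exact Matrix.det_zero_of_row_eq hne (by
      funext l
      rw [Matrix.of_apply, Matrix.of_apply]
      have h' : τ ((ι (a i) : 𝓞 ℚ)) = τ ((ι (a j) : 𝓞 ℚ)) := h
      rw [h'])
  have hGood : Good L τ (fun i => X - C (ι (a i))) (ι t) := by
    refine ⟨m, fun i => τ ((ι (a i) : 𝓞 ℚ)), id, x, ?_, hαinj, hxinj, ?_, hxeq', hdet'⟩
    · simp only [natDegree_X_sub_C, Finset.sum_const, Finset.card_univ, Fintype.card_fin,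
        smul_eq_mul, mul_one]
    · intro i y
      rw [Polynomial.map_sub, map_X, map_C, eval_sub, eval_X, eval_C]
      have : Finset.univ.filter (fun l : Fin m => id l = i) = {i} := by
        ext l
        simp
      rw [this, Finset.prod_singleton]
      rfl
  obtain ⟨u, hu⟩ := good_point hL τ (fun i => X - C (ι (a i))) (fun i => monic_X_sub_C _)
    (fun i => by rw [natDegree_X_sub_C]; exact one_pos) (ι t) hGood K θ
    (by
      have h1 : famP (fun i => X - C (ι (a i))) (ι t) = fam (fun i => ι (a i)) (ι t) := rfl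
      rw [h1, hmapeq]
      exact hθQ) hadj (by
      simp only [natDegree_X_sub_C, Finset.sum_const, Finset.card_univ, Fintype.card_fin,
        smul_eq_mul, mul_one]
      exact hfin)
  have hrk := t_RANK ℚ K hk
  exact Pool.Agent.W253.LF.t_CRIT K p L hL m u (by omega) hu

end Pool.Agent.W254.LF
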