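import Pool.Agent.W254.LF.Point
import Pool.Agent.W254.LF.Final
import Pool.Agent.W254.LF.Stm2
import Pool.Agent.W101.LF.Real
import Pool.Agent.W930.LF.Rnk
import Pool.Agent.W327.LF.Irz
import Pool.Agent.W460.LF.Low

/-!
# Leopoldt's conjecture in families: integral families of every signature

Parts by helper101 (real roots), helper930 (real places), helper327 (irreducibility), helper460
(lower bound for the unit rank).
-/

set_option autoImplicit false

namespace Pool.Agent.W254.LF

open Polynomial NumberField IntermediateField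

lemma zed_sep {r : ℕ} (P : Fin r → ℤ[X]) (hmon : ∀ i, (P i).Monic) (hinj : Function.Injective P)
    (hdeg : ∀ i, (P i).natDegree = 1 ∨
      ((P i).natDegree = 2 ∧ ∀ x : ℝ, ((P i).map (Int.castRingHom ℝ)).eval x ≠ 0)) :
    (∏ i, (P i).map (Int.castRingHom ℚ)).Separable := by
  have hmapinj : Function.Injective (fun i => (P i).map (Int.castRingHom ℚ)) := by
    intro i j h
    exact hinj (Polynomial.map_injective _ Int.cast_injective h)
  have hirr : ∀ i, Irreducible ((P i).map (Int.castRingHom ℚ)) := by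
    intro i
    rcases hdeg i with h | ⟨h, hx⟩
    · apply Polynomial.irreducible_of_degree_eq_one
      rw [degree_eq_natDegree ((hmon i).map _).ne_zero, (hmon i).natDegree_map, h]
      rfl
    · rw [((hmon i).map _).irreducible_iff_roots_eq_zero_of_degree_le_three
        (by rw [(hmon i).natDegree_map, h]) (by rw [(hmon i).natDegree_map, h]; norm_num)]
      rw [Multiset.eq_zero_iff_forall_notMem]
      intro z hz
      have h1 := (mem_roots'.1 hz).2
      rw [IsRoot.def] at h1
      apply hx (z : ℝ)
      have h2 : ((P i).map (Int.castRingHom ℝ)) =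
          ((P i).map (Int.castRingHom ℚ)).map (algebraMap ℚ ℝ) := by
        rw [Polynomial.map_map]
        congr 1
      rw [h2]
      have h3 : (z : ℝ) = algebraMap ℚ ℝ z := rfl
      rw [h3, eval_map, eval₂_at_apply, h1, map_zero]
  apply separable_prod'
  · intro i _ j _ hij
    rcases (hirr i).isCoprime_or_dvd ((P j).map (Int.castRingHom ℚ)) with h | h
    · exact h
    · exfalso
      apply hij
      apply hmapinj
      exact eq_of_monic_of_associated ((hmon i).map _) ((hmon j).map _)
        ((hirr i).associated_of_dvd (hirr j) h)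
  · intro i _
    exact (hirr i).separable

/-- Integral families of every signature with a real place. -/
theorem finalZ (p : ℕ) [Fact p.Prime] (r : ℕ) (P : Fin r → ℤ[X]) (hmon : ∀ i, (P i).Monic)
    (hinj : Function.Injective P)
    (hdeg : ∀ i, (P i).natDegree = 1 ∨
      ((P i).natDegree = 2 ∧ ∀ x : ℝ, ((P i).map (Int.castRingHom ℝ)).eval x ≠ 0)) :
    {t : ℤ | ¬ (Irreducible (((X - C t) * ∏ i, P i - 1 : ℤ[X]).map (Int.castRingHom ℚ)) ∧
      ∀ (K : Type) [Field K] [NumberField K] (θ : K),
        aeval θ ((X - C t) * ∏ i, P i - 1 : ℤ[X]) = 0 → ℚ⟮θ⟯ = ⊤ →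
        InfinitePlace.nrRealPlaces K = 1 + (Finset.univ.filter fun i => (P i).natDegree = 1).card ∧
        InfinitePlace.nrComplexPlaces K =
          (Finset.univ.filter fun i => (P i).natDegree = 2).card ∧
        LeopoldtAt K p)}.Finite := by
  classical
  obtain ⟨L, hL⟩ := Pool.Agent.W289.SL.exists_iwasawaLog p
  obtain ⟨T₀, hT₀⟩ := Pool.Agent.W101.LF.t_REAL r P hmon hinj
    (fun i => (hdeg i).imp id (fun h => h.2))
  have hirrfin := Pool.Agent.W327.LF.t_IRZ (∏ i, P i) (monic_prod_of_monic _ _ fun i _ => hmon i)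
  obtain ⟨τ⟩ : Nonempty (ℚ →+* ℂ_[p]) := ⟨algebraMap ℚ ℂ_[p]⟩
  set ι : ℤ →+* 𝓞 ℚ := algebraMap ℤ (𝓞 ℚ) with hι
  have hιc : (algebraMap (𝓞 ℚ) ℚ).comp ι = Int.castRingHom ℚ := RingHom.ext_int _ _
  set P' : Fin r → (𝓞 ℚ)[X] := fun i => (P i).map ι with hP'
  have hmon' : ∀ i, (P' i).Monic := fun i => (hmon i).map _
  have hnd' : ∀ i, (P' i).natDegree = (P i).natDegree := fun i => (hmon i).natDegree_map _
  have hpos' : ∀ i, 0 < (P' i).natDegree := by
    intro i
    rw [hnd']
    rcases hdeg i with h | ⟨h, -⟩ <;> rw [h] <;> norm_num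
  have hsep' : ((∏ i, P' i).map (algebraMap (𝓞 ℚ) ℚ)).Separable := by
    rw [Polynomial.map_prod]
    have h1 : ∀ i, (P' i).map (algebraMap (𝓞 ℚ) ℚ) = (P i).map (Int.castRingHom ℚ) := by
      intro i
      rw [hP', Polynomial.map_map, hιc]
    simp only [h1]
    exact zed_sep P hmon hinj hdeg
  have hgood := good_finite loc Pool.Agent.W540.LF.t_CPT p L hL ℚ τ r P' hmon' hsep'
  have hιinj : Function.Injective ι := FaithfulSMul.algebraMap_injective ℤ (𝓞 ℚ)
  have hgoodZ : {t : ℤ | ¬ Good L τ P' (ι t)}.Finite := hgood.preimage hιinj.injOn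
  have hsmall : {t : ℤ | |t| < T₀}.Finite := by
    apply (Set.finite_Ioo (-T₀) T₀).subset
    intro t ht
    exact abs_lt.1 ht
  refine ((hirrfin.union hgoodZ).union hsmall).subset ?_
  intro t ht
  by_contra hcon
  rw [Set.mem_union, Set.mem_union, not_or, not_or] at hcon
  obtain ⟨⟨h1, h2⟩, h3⟩ := hcon
  have hirr : Irreducible (((X - C t) * ∏ i, P i - 1 : ℤ[X]).map (Int.castRingHom ℚ)) := by
    by_contra h
    exact h1 h
  have hg : Good L τ P' (ι t) := by
    by_contra h
    exact h2 h
  have hbig : T₀ ≤ |t| := by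
    by_contra h
    exact h3 (not_le.1 h)
  apply ht
  refine ⟨hirr, ?_⟩
  intro K _ _ θ hθ hadj
  set F : ℤ[X] := (X - C t) * ∏ i, P i - 1 with hF
  have hPm : (∏ i, P i).Monic := monic_prod_of_monic _ _ fun i _ => hmon i
  set m : ℕ := ∑ i, (P i).natDegree with hm
  have hFmon : F.Monic ∧ F.natDegree = m + 1 := by
    have h1 : ((X - C t) * ∏ i, P i).Monic := (monic_X_sub_C t).mul hPm
    have h2 : ((X - C t) * ∏ i, P i).natDegree = m + 1 := by
      rw [(monic_X_sub_C t).natDegree_mul hPm, natDegree_X_sub_C,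
        natDegree_prod_of_monic _ _ fun i _ => hmon i]
      omega
    have h3 : ((1 : ℤ[X])).degree < ((X - C t) * ∏ i, P i).degree := by
      rw [degree_one, degree_eq_natDegree h1.ne_zero, h2]
      exact_mod_cast Nat.succ_pos m
    refine ⟨h1.sub_of_left h3, ?_⟩
    rw [hF, natDegree_sub_eq_left_of_natDegree_lt]
    · exact h2
    · rw [natDegree_one, h2]
      exact Nat.succ_pos m
  have hθQ : aeval θ (F.map (Int.castRingHom ℚ)) = 0 := by
    rw [← algebraMap_int_eq, aeval_map_algebraMap]
    exact hθ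
  have hint : IsIntegral ℚ θ := Algebra.IsIntegral.isIntegral θ
  have hmp : F.map (Int.castRingHom ℚ) = minpoly ℚ θ :=
    minpoly.eq_of_irreducible_of_monic hirr hθQ (hFmon.1.map _)
  have hfin : Module.finrank ℚ K = m + 1 := by
    rw [← IntermediateField.finrank_top' (F := ℚ) (E := K), ← hadj,
      IntermediateField.adjoin.finrank hint, ← hmp, hFmon.1.natDegree_map, hFmon.2]
  have hF' : (famP P' (ι t)).map (algebraMap (𝓞 ℚ) ℚ) = F.map (Int.castRingHom ℚ) := by
    rw [← hιc, ← Polynomial.map_map]
    congr 1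
    rw [famP, hF]
    simp only [hP', Polynomial.map_sub, Polynomial.map_mul, map_X, map_C, Polynomial.map_prod,
      Polynomial.map_one]
  have hm' : ∑ i, (P' i).natDegree = m := by
    rw [hm]
    exact Finset.sum_congr rfl fun i _ => hnd' i
  obtain ⟨u, hu⟩ := good_point hL τ P' hmon' hpos' (ι t) hg K θ (by rw [hF']; exact hθQ) hadj
    (by rw [hm', hfin])
  have hlow := Pool.Agent.W460.LF.t_LOW K p L hL r u hu
  have hreal := Pool.Agent.W930.LF.t_RNK K θ F hFmon.1 hθ (by rw [hfin, hFmon.2]) hadj
  have hreal2 := hreal.trans (hT₀ t hbig)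
  have hcount := InfinitePlace.card_add_two_mul_card_eq_rank K
  have hcard := InfinitePlace.card_eq_nrRealPlaces_add_nrComplexPlaces K
  have hrk : Units.rank K = Fintype.card (InfinitePlace K) - 1 := rfl
  have hcpos : 0 < Fintype.card (InfinitePlace K) := Fintype.card_pos
  set A := (Finset.univ.filter fun i => (P i).natDegree = 1) with hA
  set B := (Finset.univ.filter fun i => (P i).natDegree = 2) with hB
  have hAB : A.card + B.card = r := by
    rw [← Finset.card_union_of_disjoint]
    · have : A ∪ B = Finset.univ := by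
        ext i
        simp only [hA, hB, Finset.mem_union, Finset.mem_filter, Finset.mem_univ, true_and, iff_true]
        exact (hdeg i).imp id (fun h => h.1)
      rw [this, Finset.card_univ, Fintype.card_fin]
    · rw [Finset.disjoint_left]
      intro i hi hi'
      have h1 := (Finset.mem_filter.1 hi).2
      have h2 := (Finset.mem_filter.1 hi').2
      omega
  have hmAB : m = A.card + 2 * B.card := by
    have h1 : ∀ i, (P i).natDegree =
        (if (P i).natDegree = 1 then 1 else 0) + 2 * (if (P i).natDegree = 2 then 1 else 0) := by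
      intro i
      rcases hdeg i with h | ⟨h, -⟩ <;> rw [h] <;> norm_num
    rw [hm, Finset.sum_congr rfl fun i _ => h1 i, Finset.sum_add_distrib, ← Finset.mul_sum,
      Finset.sum_boole, Finset.sum_boole]
    simp [hA, hB]
  have hr1 : InfinitePlace.nrRealPlaces K = 1 + A.card := by omega
  have hr2 : InfinitePlace.nrComplexPlaces K = B.card := by omega
  refine ⟨hr1, hr2, ?_⟩
  exact Pool.Agent.W253.LF.t_CRIT K p L hL r u (by omega) hu

end Pool.Agent.W254.LF
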