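import Pool.Agent.W254.LF.Ram3
import Pool.Agent.W254.LF.Zed

/-!
# Leopoldt's conjecture in families: all primes up to a bound
-/

set_option autoImplicit false

namespace Pool.Agent.W254.LF

open Polynomial NumberField IntermediateField Filter Topology Pool.Agent.W289.SL

/-- From the roots of the product to the block structure. -/
theorem goodC_good {p : ℕ} [Fact p.Prime] (L : ℂ_[p] → ℂ_[p]) (r : ℕ) (P : Fin r → ℤ[X])
    (hmon : ∀ i, (P i).Monic)
    (hsep : (∏ i, (P i).map (Int.castRingHom ℚ)).Separable)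
    (m : ℕ) (hm : m = ∑ i, (P i).natDegree) (α : Fin m → ℂ_[p])
    (hα : (∏ i, P i).map (Int.castRingHom ℂ_[p]) = ∏ l, (X - C (α l)))
    (t : ℤ) (hg : GoodC L α (t : ℂ_[p])) :
    Good L (algebraMap ℚ ℂ_[p]) (fun i => (P i).map (algebraMap ℤ (𝓞 ℚ)))
      (algebraMap ℤ (𝓞 ℚ) t) := by
  classical
  obtain ⟨x, hxinj, hxeq, hdet⟩ := hg
  set φ : ℤ →+* ℂ_[p] := Int.castRingHom ℂ_[p] with hφ
  have hsepφ : (∏ i, (P i).map φ).Separable := by
    have h1 : ∏ i, (P i).map φ = (∏ i, (P i).map (Int.castRingHom ℚ)).map (algebraMap ℚ ℂ_[p]) := by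
      rw [Polynomial.map_prod]
      apply Finset.prod_congr rfl
      intro i _
      rw [Polynomial.map_map]
      congr 1
      exact RingHom.ext_int _ _
    rw [h1]
    exact hsep.map
  have hα' : ∏ i, (P i).map φ = ∏ l, (X - C (α l)) := by
    rw [← hα, Polynomial.map_prod]
  have hαinj : Function.Injective α := by
    rw [hα'] at hsepφ
    exact (separable_prod_X_sub_C_iff.1 hsepφ)
  have hαroot : ∀ l, ∃ i, ((P i).map φ).eval (α l) = 0 := by
    intro l
    have h1 : (∏ i, (P i).map φ).eval (α l) = 0 := by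
      rw [hα', eval_prod]
      apply Finset.prod_eq_zero (Finset.mem_univ l)
      simp
    rw [eval_prod, Finset.prod_eq_zero_iff] at h1
    obtain ⟨i, -, h2⟩ := h1
    exact ⟨i, h2⟩
  choose b hb using hαroot
  have hPi0 : ∀ i, ((P i).map φ).Monic := fun i => (hmon i).map _
  have hnodup : ∀ i, ((P i).map φ).roots.Nodup := by
    intro i
    apply nodup_roots
    exact Separable.of_dvd hsepφ (Finset.dvd_prod_of_mem _ (Finset.mem_univ i))
  have huniq : ∀ i j z, ((P i).map φ).eval z = 0 → ((P j).map φ).eval z = 0 → i = j := by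
    intro i j z hi hj
    by_contra hij
    have h1 : ((P i).map φ) * ((P j).map φ) ∣ ∏ i, (P i).map φ := by
      have h3 := Finset.prod_dvd_prod_of_subset {i, j} Finset.univ (fun i => (P i).map φ)
        (Finset.subset_univ _)
      rwa [Finset.prod_pair hij] at h3
    have h2 : (X - C z) * (X - C z) ∣ ∏ i, (P i).map φ :=
      (mul_dvd_mul (dvd_iff_isRoot.2 hi) (dvd_iff_isRoot.2 hj)).trans h1
    have h3 := hsepφ.squarefree (X - C z) h2
    exact Polynomial.not_isUnit_X_sub_C z h3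
  have hblock : ∀ i, (P i).map φ =
      ∏ l ∈ Finset.univ.filter (fun l => b l = i), (X - C (α l)) := by
    intro i
    have h1 := (IsAlgClosed.splits ((P i).map φ)).eq_prod_roots_of_monic (hPi0 i)
    rw [h1]
    have h2 : ((P i).map φ).roots =
        ((Finset.univ.filter (fun l => b l = i)).val.map α) := by
      apply (Multiset.Nodup.ext (hnodup i)
        ((Multiset.nodup_map_iff_of_injective hαinj).2 (Finset.nodup _))).2
      intro z
      rw [mem_roots (hPi0 i).ne_zero, IsRoot.def, Multiset.mem_map]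
      constructor
      · intro hz
        have h3 : (∏ l, (X - C (α l))).eval z = 0 := by
          rw [← hα', eval_prod]
          exact Finset.prod_eq_zero (Finset.mem_univ i) hz
        rw [eval_prod, Finset.prod_eq_zero_iff] at h3
        obtain ⟨l, -, hl⟩ := h3
        rw [eval_sub, eval_X, eval_C, sub_eq_zero] at hl
        refine ⟨l, ?_, hl.symm⟩
        simp only [Finset.mem_val, Finset.mem_filter, Finset.mem_univ, true_and]
        exact huniq _ _ z (by rw [hl]; exact hb l) hz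
      · rintro ⟨l, hl, rfl⟩
        simp only [Finset.mem_val, Finset.mem_filter, Finset.mem_univ, true_and] at hl
        rw [← hl]
        exact hb l
    rw [h2, Multiset.map_map]
    rfl
  have hιc : (algebraMap (𝓞 ℚ) ℚ).comp (algebraMap ℤ (𝓞 ℚ)) = Int.castRingHom ℚ :=
    RingHom.ext_int _ _
  have hτι : ∀ n : ℤ, algebraMap ℚ ℂ_[p] ((algebraMap ℤ (𝓞 ℚ) n : 𝓞 ℚ) : ℚ) = (n : ℂ_[p]) := by
    intro n
    have h1 : ((algebraMap ℤ (𝓞 ℚ) n : 𝓞 ℚ) : ℚ) = (n : ℚ) := by
      have := congrArg (fun f : ℤ →+* ℚ => f n) hιc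
      exact this
    rw [h1]
    exact map_intCast _ n
  refine ⟨m, α, b, x, ?_, hαinj, hxinj, ?_, ?_, hdet⟩
  · rw [hm]
    exact Finset.sum_congr rfl fun i _ => ((hmon i).natDegree_map _).symm
  · intro i y
    have h1 : ((P i).map (algebraMap ℤ (𝓞 ℚ))).map
        ((algebraMap ℚ ℂ_[p]).comp (algebraMap (𝓞 ℚ) ℚ)) = (P i).map φ := by
      rw [Polynomial.map_map]
      congr 1
      exact RingHom.ext_int _ _
    rw [h1, hblock i, eval_prod]
    simp only [eval_sub, eval_X, eval_C]
  · intro j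
    rw [hτι]
    exact hxeq j

/-- Outside a finite set of `t`, which does not depend on `p`, good `t` satisfy the conclusion. -/
theorem good_leopoldt (r : ℕ) (P : Fin r → ℤ[X]) (hmon : ∀ i, (P i).Monic)
    (hinj : Function.Injective P)
    (hdeg : ∀ i, (P i).natDegree = 1 ∨
      ((P i).natDegree = 2 ∧ ∀ x : ℝ, ((P i).map (Int.castRingHom ℝ)).eval x ≠ 0)) :
    ∃ E₀ : Finset ℤ, ∀ t ∉ E₀,
      (Irreducible (((X - C t) * ∏ i, P i - 1 : ℤ[X]).map (Int.castRingHom ℚ)) ∧
      ∀ (K : Type) [Field K] [NumberField K] (θ : K),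
        aeval θ ((X - C t) * ∏ i, P i - 1 : ℤ[X]) = 0 → ℚ⟮θ⟯ = ⊤ →
        InfinitePlace.nrRealPlaces K = 1 + (Finset.univ.filter fun i => (P i).natDegree = 1).card ∧
        InfinitePlace.nrComplexPlaces K =
          (Finset.univ.filter fun i => (P i).natDegree = 2).card ∧
        ∀ (p : ℕ) [Fact p.Prime] (L : ℂ_[p] → ℂ_[p]), IsIwasawaLog p L →
          Good L (algebraMap ℚ ℂ_[p]) (fun i => (P i).map (algebraMap ℤ (𝓞 ℚ)))
            (algebraMap ℤ (𝓞 ℚ) t) → LeopoldtAt K p) := by
  classical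
  have : Fact (Nat.Prime 2) := ⟨Nat.prime_two⟩
  have h2 := finalZ 2 r P hmon hinj hdeg
  refine ⟨h2.toFinset, fun t ht => ?_⟩
  have ht' : ¬ t ∈ {t : ℤ | ¬ (Irreducible (((X - C t) * ∏ i, P i - 1 : ℤ[X]).map
      (Int.castRingHom ℚ)) ∧
      ∀ (K : Type) [Field K] [NumberField K] (θ : K),
        aeval θ ((X - C t) * ∏ i, P i - 1 : ℤ[X]) = 0 → ℚ⟮θ⟯ = ⊤ →
        InfinitePlace.nrRealPlaces K = 1 + (Finset.univ.filter fun i => (P i).natDegree = 1).card ∧
        InfinitePlace.nrComplexPlaces K =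
          (Finset.univ.filter fun i => (P i).natDegree = 2).card ∧
        LeopoldtAt K 2)} := by
    rwa [Set.Finite.mem_toFinset] at ht
  rw [Set.mem_ofPred_eq, not_not] at ht'
  obtain ⟨hirr, hK⟩ := ht'
  refine ⟨hirr, ?_⟩
  intro K _ _ θ hθ hadj
  obtain ⟨hr1, hr2, -⟩ := hK K θ hθ hadj
  refine ⟨hr1, hr2, ?_⟩
  intro p _ L hL hg
  set F : ℤ[X] := (X - C t) * ∏ i, P i - 1 with hF
  have hPm : (∏ i, P i).Monic := monic_prod_of_monic _ _ fun i _ => hmon i
  set m : ℕ := ∑ i, (P i).natDegree with hm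
  have hFmon : F.Monic ∧ F.natDegree = m + 1 := by
    have h1 : ((X - C t) * ∏ i, P i).Monic := (monic_X_sub_C t).mul hPm
    have h2 : ((X - C t) * ∏ i, P i).natDegree = m + 1 := by
      rw [(monic_X_sub_C t).natDegree_mul hPm, natDegree_X_sub_C,
        natDegree_prod_of_monic _ _ fun i _ => hmon i]
      omega
    have h3 : ((1 : ℤ[X])).degree < ((X - C t) * ∏ i, P i).degree := by
      rw [degree_one, degree_eq_natDegree h1.ne_zero, h2]
      exact_mod_cast Nat.succ_pos m
    refine ⟨h1.sub_of_left h3, ?_⟩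
    rw [hF, natDegree_sub_eq_left_of_natDegree_lt]
    · exact h2
    · rw [natDegree_one, h2]
      exact Nat.succ_pos m
  have hθQ : aeval θ (F.map (Int.castRingHom ℚ)) = 0 := by
    rw [← algebraMap_int_eq, aeval_map_algebraMap]
    exact hθ
  have hint : IsIntegral ℚ θ := Algebra.IsIntegral.isIntegral θ
  have hmp : F.map (Int.castRingHom ℚ) = minpoly ℚ θ :=
    minpoly.eq_of_irreducible_of_monic hirr hθQ (hFmon.1.map _)
  have hfin : Module.finrank ℚ K = m + 1 := by
    rw [← IntermediateField.finrank_top' (F := ℚ) (E := K), ← hadj,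
      IntermediateField.adjoin.finrank hint, ← hmp, hFmon.1.natDegree_map, hFmon.2]
  set ι : ℤ →+* 𝓞 ℚ := algebraMap ℤ (𝓞 ℚ) with hι
  have hιc : (algebraMap (𝓞 ℚ) ℚ).comp ι = Int.castRingHom ℚ := RingHom.ext_int _ _
  set P' : Fin r → (𝓞 ℚ)[X] := fun i => (P i).map ι with hP'
  have hmon' : ∀ i, (P' i).Monic := fun i => (hmon i).map _
  have hnd' : ∀ i, (P' i).natDegree = (P i).natDegree := fun i => (hmon i).natDegree_map _
  have hpos' : ∀ i, 0 < (P' i).natDegree := by
    intro i
    rw [hnd']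
    rcases hdeg i with h | ⟨h, -⟩ <;> rw [h] <;> norm_num
  have hF' : (famP P' (ι t)).map (algebraMap (𝓞 ℚ) ℚ) = F.map (Int.castRingHom ℚ) := by
    rw [← hιc, ← Polynomial.map_map]
    congr 1
    rw [famP, hF]
    simp only [hP', Polynomial.map_sub, Polynomial.map_mul, map_X, map_C, Polynomial.map_prod,
      Polynomial.map_one]
  have hm' : ∑ i, (P' i).natDegree = m := by
    rw [hm]
    exact Finset.sum_congr rfl fun i _ => hnd' i
  obtain ⟨u, hu⟩ := good_point hL (algebraMap ℚ ℂ_[p]) P' hmon' hpos' (ι t) hg K θ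
    (by rw [hF']; exact hθQ) hadj (by rw [hm', hfin])
  have hcard := InfinitePlace.card_eq_nrRealPlaces_add_nrComplexPlaces K
  have hrk : Units.rank K = Fintype.card (InfinitePlace K) - 1 := rfl
  set A := (Finset.univ.filter fun i => (P i).natDegree = 1) with hA
  set B := (Finset.univ.filter fun i => (P i).natDegree = 2) with hB
  have hAB : A.card + B.card = r := by
    rw [← Finset.card_union_of_disjoint]
    · have : A ∪ B = Finset.univ := by
        ext i
        simp only [hA, hB, Finset.mem_union, Finset.mem_filter, Finset.mem_univ, true_and, iff_true]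
        exact (hdeg i).imp id (fun h => h.1)
      rw [this, Finset.card_univ, Fintype.card_fin]
    · rw [Finset.disjoint_left]
      intro i hi hi'
      have h1 := (Finset.mem_filter.1 hi).2
      have h2 := (Finset.mem_filter.1 hi').2
      omega
  exact Pool.Agent.W253.LF.t_CRIT K p L hL r u (by omega) hu

/-- The bound for one large prime. -/
theorem prime_bound_all (hPUI : S_PUI) (hPLOG : S_PLOG) (hCCAU : S_CCAU) (hSEL : S_SEL)
    (p : ℕ) [hp : Fact p.Prime] (L : ℂ_[p] → ℂ_[p]) (hL : IsIwasawaLog p L) (m : ℕ)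
    (hpm : 2 * (m + 1) < p) (α : Fin m → ℂ_[p]) (hα : ∀ i, ‖α i‖ ≤ 1)
    (hαα : ∀ i j, i ≠ j → ‖α i - α j‖ = 1)
    (hdata : ∀ t₀ : ℤ, ∃ t₁ : ℂ_[p], ‖(t₀ : ℂ_[p]) - t₁‖ ≤ ‖(p : ℂ_[p])‖ ∧ Clus p L m α t₁) :
    ∃ E : Finset ℤ, E.card ≤ m * p ∧ ∀ t ∉ E, GoodC L α (t : ℂ_[p]) := by
  classical
  have key : ∀ S : Finset ℤ, (∀ t ∈ S, ¬ GoodC L α (t : ℂ_[p])) → S.card ≤ m * p := by
    intro S hS
    have h1 := Finset.card_le_mul_card_image (f := fun t : ℤ => (t : ZMod p)) S m (by
      intro c _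
      rcases (S.filter fun t : ℤ => ((t : ZMod p)) = c).eq_empty_or_nonempty with h | ⟨t₀, ht₀⟩
      · rw [h]
        simp
      · have ht0 := Finset.mem_filter.1 ht₀
        obtain ⟨t₁, ht₁, hclus⟩ := hdata t₀
        have hcastinj : Function.Injective (fun t : ℤ => (t : ℂ_[p])) := Int.cast_injective
        rw [← Finset.card_image_of_injective _ hcastinj]
        apply clus_bound hPUI hPLOG hCCAU hSEL p L hL m hpm α hα hαα t₁ hclus
        intro z hz
        obtain ⟨t, ht, rfl⟩ := Finset.mem_image.1 hz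
        have ht' := Finset.mem_filter.1 ht
        refine ⟨?_, hS t ht'.1⟩
        have h2 : (p : ℤ) ∣ t - t₀ := by
          rw [← ZMod.intCast_zmod_eq_zero_iff_dvd, Int.cast_sub, ht'.2, ht0.2, sub_self]
        obtain ⟨d, hd⟩ := h2
        have h3 : ((t : ℤ) : ℂ_[p]) - t₁ = (p : ℂ_[p]) * (d : ℂ_[p]) + ((t₀ : ℂ_[p]) - t₁) := by
          have h4 : t = t₀ + p * d := by linarith
          rw [h4]
          push_cast
          ring
        rw [h3]
        refine (IsUltrametricDist.norm_add_le_max _ _).trans (max_le ?_ ht₁)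
        rw [norm_mul]
        exact mul_le_of_le_one_right (norm_nonneg _) (norm_intCast_le d))
    refine h1.trans ?_
    apply Nat.mul_le_mul_left
    refine (Finset.card_le_univ _).trans ?_
    rw [ZMod.card]
  have hfin : {t : ℤ | ¬ GoodC L α (t : ℂ_[p])}.Finite := by
    by_contra hinf
    obtain ⟨S, hS, hcard⟩ := Set.Infinite.exists_subset_card_eq hinf (m * p + 1)
    have := key S (fun t ht => hS ht)
    omega
  refine ⟨hfin.toFinset, ?_, ?_⟩
  · apply key
    intro t ht
    rw [Set.Finite.mem_toFinset] at ht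
    exact ht
  · intro t ht
    rw [Set.Finite.mem_toFinset, Set.mem_ofPred_eq, not_not] at ht
    exact ht

end Pool.Agent.W254.LF
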